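import Pool.Agent.Helper1.SD.Defs2
import Pool.Agent.Helper1.SD.Cone

set_option autoImplicit false

namespace Pool.Agent.Helper1.SD

open Matrix


/-! ### Automorphisms of a reflection system and the dominance argument -/

namespace RefSys

variable {N : ℕ}

theorem refl_dot (a x z : Fin N → ℝ) :
    refl a x ⬝ᵥ z = x ⬝ᵥ z - 2 * (a ⬝ᵥ x) / (a ⬝ᵥ a) * (a ⬝ᵥ z) := by
  simp only [refl, sub_dotProduct, smul_dotProduct, smul_eq_mul]

theorem refl_refl (a x : Fin N → ℝ) : refl a (refl a x) = x := by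
  by_cases ha : a ⬝ᵥ a = 0
  · simp [refl, ha]
  · have h1 : a ⬝ᵥ refl a x = - (a ⬝ᵥ x) := by
      rw [dotProduct_comm, refl_dot, dotProduct_comm x a]
      field_simp
      ring
    rw [refl, h1]
    simp only [refl]
    rw [mul_neg, neg_div, neg_smul]
    abel

/-- the reflection as a linear equivalence -/
noncomputable def reflEquiv (a : Fin N → ℝ) : (Fin N → ℝ) ≃ₗ[ℝ] (Fin N → ℝ) where
  toFun := refl a
  invFun := refl a
  left_inv := refl_refl a
  right_inv := refl_refl a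
  map_add' x y := by
    simp only [refl, dotProduct_add]
    rw [mul_add, add_div, add_smul]
    abel
  map_smul' c x := by
    simp only [refl, dotProduct_smul, smul_eq_mul, RingHom.id_apply, smul_sub, smul_smul]
    congr 2
    ring

theorem reflEquiv_apply (a x : Fin N → ℝ) : reflEquiv a x = refl a x := rfl

theorem refl_dot_refl (a x y : Fin N → ℝ) : refl a x ⬝ᵥ refl a y = x ⬝ᵥ y := by
  by_cases ha : a ⬝ᵥ a = 0
  · simp [refl, ha]
  · rw [refl_dot, dotProduct_comm x (refl a y), refl_dot, dotProduct_comm a (refl a y), refl_dot,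
      dotProduct_comm y x, dotProduct_comm y a]
    field_simp
    ring

/-- The automorphisms of a reflection system. -/
structure IsAut (R : RefSys N) (w : (Fin N → ℝ) ≃ₗ[ℝ] (Fin N → ℝ)) : Prop where
  dot : ∀ x y, w x ⬝ᵥ w y = x ⬝ᵥ y
  memA : ∀ a, w a ∈ R.A ↔ a ∈ R.A
  memB : ∀ b, w b ∈ R.B ↔ b ∈ R.B

variable {R : RefSys N}

theorem IsAut.refl (R : RefSys N) (i : Fin R.m) : IsAut R (reflEquiv (R.α i)) where
  dot := refl_dot_refl (R.α i)
  memA a := by
    constructor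
    · intro h
      have := R.reflA i _ h
      rwa [reflEquiv_apply, refl_refl] at this
    · exact R.reflA i a
  memB a := by
    constructor
    · intro h
      have := R.reflB i _ h
      rwa [reflEquiv_apply, refl_refl] at this
    · exact R.reflB i a

theorem IsAut.one (R : RefSys N) : IsAut R (LinearEquiv.refl ℝ _) where
  dot _ _ := rfl
  memA _ := Iff.rfl
  memB _ := Iff.rfl

theorem IsAut.trans {w v : (Fin N → ℝ) ≃ₗ[ℝ] (Fin N → ℝ)} (hw : IsAut R w) (hv : IsAut R v) :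
    IsAut R (w.trans v) where
  dot x y := by rw [LinearEquiv.trans_apply, LinearEquiv.trans_apply, hv.dot, hw.dot]
  memA a := by rw [LinearEquiv.trans_apply, hv.memA, hw.memA]
  memB a := by rw [LinearEquiv.trans_apply, hv.memB, hw.memB]

theorem IsAut.symm {w : (Fin N → ℝ) ≃ₗ[ℝ] (Fin N → ℝ)} (hw : IsAut R w) : IsAut R w.symm where
  dot x y := by
    have := hw.dot (w.symm x) (w.symm y)
    simpa using this.symm
  memA a := by
    have := hw.memA (w.symm a)
    simpa using this.symm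
  memB a := by
    have := hw.memB (w.symm a)
    simpa using this.symm

theorem finite_aut (R : RefSys N) : {w : (Fin N → ℝ) ≃ₗ[ℝ] (Fin N → ℝ) | IsAut R w}.Finite := by
  have : Finite R.A := R.finA
  let f : {w : (Fin N → ℝ) ≃ₗ[ℝ] (Fin N → ℝ) | IsAut R w} → (R.A → R.A) :=
    fun w a => ⟨w.1 a.1, (w.2.memA a.1).2 a.2⟩
  have hf : Function.Injective f := by
    intro w v h
    apply Subtype.ext
    apply LinearEquiv.toLinearMap_injective
    apply LinearMap.ext_on R.spanA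
    intro a ha
    have := congrFun h ⟨a, ha⟩
    exact congrArg Subtype.val this
  exact Finite.of_injective f hf

/-- (D1) every vector can be moved to an antidominant one -/
theorem exists_antidominant (R : RefSys N) (y : Fin N → ℝ) :
    ∃ w, IsAut R w ∧ ∀ i, R.α i ⬝ᵥ w y ≤ 0 := by
  obtain ⟨w, hw, hmin⟩ := Set.exists_min_image _
    (fun w : (Fin N → ℝ) ≃ₗ[ℝ] (Fin N → ℝ) => w y ⬝ᵥ R.ρ) (finite_aut R) ⟨_, IsAut.one R⟩
  refine ⟨w, hw, fun i => ?_⟩
  by_contra hcon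
  push Not at hcon
  have h1 := hmin (w.trans (reflEquiv (R.α i))) (hw.trans (IsAut.refl R i))
  simp only [LinearEquiv.trans_apply, reflEquiv_apply, refl_dot] at h1
  have hρ := R.pos i
  have hne : R.α i ≠ 0 := by
    intro h0
    rw [h0] at hρ
    simp at hρ
  have haa : 0 < R.α i ⬝ᵥ R.α i := by
    have h := dotProduct_self_eq_zero (v := R.α i)
    have h2 : 0 ≤ R.α i ⬝ᵥ R.α i := Finset.sum_nonneg (fun j _ => mul_self_nonneg _)
    rcases h2.lt_or_eq with h3 | h3
    · exact h3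
    · exact absurd (h.1 h3.symm) hne
  have : 0 < 2 * (R.α i ⬝ᵥ w y) / (R.α i ⬝ᵥ R.α i) * (R.α i ⬝ᵥ R.ρ) := by positivity
  linarith

/-- (D2) -/
theorem exists_dominant (R : RefSys N) (x y : Fin N → ℝ) (hy : ∀ i, R.α i ⬝ᵥ y ≤ 0) :
    ∃ w, IsAut R w ∧ (∀ i, 0 ≤ R.α i ⬝ᵥ w x) ∧ w x ⬝ᵥ y ≤ x ⬝ᵥ y := by
  obtain ⟨w0, hw0, hmin⟩ := Set.exists_min_image _
    (fun w : (Fin N → ℝ) ≃ₗ[ℝ] (Fin N → ℝ) => w x ⬝ᵥ y) (finite_aut R) ⟨_, IsAut.one R⟩
  have hfin : {w : (Fin N → ℝ) ≃ₗ[ℝ] (Fin N → ℝ) | IsAut R w ∧ w x ⬝ᵥ y ≤ w0 x ⬝ᵥ y}.Finite :=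
    (finite_aut R).subset (fun w h => h.1)
  obtain ⟨w, hw, hmax⟩ := Set.exists_max_image _
    (fun w : (Fin N → ℝ) ≃ₗ[ℝ] (Fin N → ℝ) => w x ⬝ᵥ R.ρ) hfin ⟨w0, hw0, le_refl _⟩
  refine ⟨w, hw.1, fun i => ?_, hw.2.trans (hmin _ (IsAut.one R))⟩
  by_contra hcon
  push Not at hcon
  have hρ := R.pos i
  have hne : R.α i ≠ 0 := by
    intro h0
    rw [h0] at hρ
    simp at hρ
  have haa : 0 < R.α i ⬝ᵥ R.α i := by
    have h := dotProduct_self_eq_zero (v := R.α i)
    have h2 : 0 ≤ R.α i ⬝ᵥ R.α i := Finset.sum_nonneg (fun j _ => mul_self_nonneg _)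
    rcases h2.lt_or_eq with h3 | h3
    · exact h3
    · exact absurd (h.1 h3.symm) hne
  have hc : 0 < - (2 * (R.α i ⬝ᵥ w x) / (R.α i ⬝ᵥ R.α i)) := by
    have : 0 < 2 * (-(R.α i ⬝ᵥ w x)) / (R.α i ⬝ᵥ R.α i) := by
      have : 0 < -(R.α i ⬝ᵥ w x) := by linarith
      positivity
    rw [mul_neg, neg_div] at this
    exact this
  have h1 := hmax (w.trans (reflEquiv (R.α i))) ⟨hw.1.trans (IsAut.refl R i), by
    simp only [LinearEquiv.trans_apply, reflEquiv_apply, refl_dot]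
    have h3 := hy i
    have h4 := mul_nonneg hc.le (neg_nonneg.2 h3)
    have h5 := hw.2
    nlinarith⟩
  simp only [LinearEquiv.trans_apply, reflEquiv_apply, refl_dot] at h1
  have h6 := mul_pos hc hρ
  nlinarith

theorem IsAut.dualB {w : (Fin N → ℝ) ≃ₗ[ℝ] (Fin N → ℝ)} (hw : IsAut R w) {x : Fin N → ℝ}
    (hx : x ∈ dualOf R.B) : w x ∈ dualOf R.B := by
  intro b hb
  have h1 := hw.symm.dot (w x) b
  rw [LinearEquiv.symm_apply_apply] at h1
  rw [← h1]
  exact hx _ ((hw.symm.memB b).2 hb)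

theorem IsAut.dualA {w : (Fin N → ℝ) ≃ₗ[ℝ] (Fin N → ℝ)} (hw : IsAut R w) {x : Fin N → ℝ}
    (hx : x ∈ dualOf R.A) : w x ∈ dualOf R.A := by
  intro b hb
  have h1 := hw.symm.dot (w x) b
  rw [LinearEquiv.symm_apply_apply] at h1
  rw [← h1]
  exact hx _ ((hw.symm.memA b).2 hb)

theorem Good.pair_nonneg {k : ℕ} (h : R.Good k) {x y : Fin N → ℝ} (hx : x ∈ dualOf R.B)
    (hy : y ∈ dualOf R.A) : 0 ≤ x ⬝ᵥ y := by
  obtain ⟨w, hw, hwy⟩ := exists_antidominant R y
  obtain ⟨v, hv, hvx, hle⟩ := exists_dominant R (w x) (w y) hwy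
  rw [hw.dot] at hle
  refine le_trans ?_ hle
  exact h.key _ _ hvx hwy (hv.dualB (hw.dualB hx)) (hw.dualA hy)

theorem Good.dualAB {k : ℕ} (h : R.Good k) :
    coneOf R.A = dualOf R.B ∧ coneOf R.B = dualOf R.A := by
  constructor
  · apply Set.Subset.antisymm
    · rw [← dualOf_dualOf R.finA]
      intro x hx b hb
      exact hx b (fun a ha => by rw [dotProduct_comm]; exact h.nonneg a ha b hb)
    · rw [← dualOf_dualOf R.finA]
      intro x hx y hy
      exact h.pair_nonneg hx hy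
  · apply Set.Subset.antisymm
    · rw [← dualOf_dualOf R.finB]
      intro x hx a ha
      exact hx a (fun b hb => h.nonneg a ha b hb)
    · rw [← dualOf_dualOf R.finB]
      intro x hx y hy
      rw [dotProduct_comm]
      exact h.pair_nonneg hy hx

/-- consequences of the covering condition -/
theorem cover_ks {k : ℕ} {Z : Set (Fin N → ℝ)} (hZ : Cover k Z) :
    IsSimplicialCone (coneOf Z) ∨ k + 2 ≤ Module.finrank ℝ (Submodule.span ℝ (coneOf Z)) := by
  rcases hZ with ⟨n, s, hs, hz⟩ | ⟨t, ht, htZ⟩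
  · exact Or.inl (isSimplicialCone_of_subset hs hz)
  · right
    rw [span_coneOf]
    have h1 : Module.finrank ℝ (Submodule.span ℝ (Set.range t)) = k + 2 := by
      rw [finrank_span_eq_card ht, Fintype.card_fin]
    rw [← h1]
    apply Submodule.finrank_mono
    apply Submodule.span_mono
    rintro _ ⟨i, rfl⟩
    exact htZ i

/-- the covering condition is transported by linear equivalences -/
theorem Cover.map {k : ℕ} {Z Z' : Set (Fin N → ℝ)} (w : (Fin N → ℝ) ≃ₗ[ℝ] (Fin N → ℝ))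
    (hZ : ∀ z, w z ∈ Z ↔ z ∈ Z') (h : Cover k Z) : Cover k Z' := by
  rcases h with ⟨n, s, hs, hz⟩ | ⟨t, ht, htZ⟩
  · left
    refine ⟨n, fun i => w.symm (s i), ?_, ?_⟩
    · exact hs.map' (w.symm : (Fin N → ℝ) →ₗ[ℝ] (Fin N → ℝ)) (LinearEquiv.ker _)
    · intro z hz'
      obtain ⟨i, hi⟩ := hz (w z) ((hZ z).2 hz')
      exact ⟨i, by simp [hi]⟩
  · right
    refine ⟨fun i => w.symm (t i), ?_, ?_⟩
    · exact ht.map' (w.symm : (Fin N → ℝ) →ₗ[ℝ] (Fin N → ℝ)) (LinearEquiv.ker _)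
    · intro i
      rw [← hZ]
      simpa using htZ i

theorem Good.ks {k : ℕ} (h : R.Good k) :
    KS k (coneOf R.A) (coneOf R.B) ∧ KS k (coneOf R.B) (coneOf R.A) := by
  constructor
  · intro g hg
    rw [h.dualAB.2] at hg
    rw [perpIn_coneOf hg]
    apply cover_ks
    obtain ⟨w, hw, hwg⟩ := exists_antidominant R g
    refine Cover.map w ?_ (h.coverA (w g) hwg (hw.dualA hg))
    intro z
    simp only [Set.mem_ofPred_eq, hw.dot, hw.memA]
  · intro g hg
    rw [h.dualAB.1] at hg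
    rw [perpIn_coneOf hg]
    apply cover_ks
    obtain ⟨w, hw, hwg⟩ := exists_antidominant R (-g)
    refine Cover.map w ?_ (h.coverB (w g) (fun i => ?_) (hw.dualB hg))
    · intro z
      simp only [Set.mem_ofPred_eq, hw.dot, hw.memB]
    · have := hwg i
      rw [map_neg, dotProduct_neg] at this
      linarith

end RefSys

end Pool.Agent.Helper1.SD
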