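import Pool.Agent.Helper28.JM.Defs

/-!
# The 3 x 4 block is not generated by quadrics
-/

set_option autoImplicit false

open MvPolynomial Finset

namespace Pool.Agent.Helper79.JMR

open Pool.Agent.Helper28.JM

section general

variable {σ : Type*} {K : Type*} [Field K]

lemma degree_one {m : σ →₀ ℕ} (h : m.degree = 1) : ∃ S, m = Finsupp.single S 1 := by
  classical
  have h0 : m ≠ 0 := by rintro rfl; simp at h
  obtain ⟨S, hS⟩ := Finsupp.ne_iff.mp h0
  refine ⟨S, ?_⟩
  have h1 : Finsupp.single S 1 ≤ m := by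
    rw [Finsupp.single_le_iff]
    simp at hS
    omega
  have h2 : m = Finsupp.single S 1 + (m - Finsupp.single S 1) := (add_tsub_cancel_of_le h1).symm
  have h3 : (m - Finsupp.single S 1).degree = 0 := by
    have := congrArg Finsupp.degree h2
    rw [map_add, h, Finsupp.degree_single] at this
    omega
  rw [Finsupp.degree_eq_zero_iff] at h3
  rw [h3, add_zero] at h2
  exact h2

lemma degree_two {m : σ →₀ ℕ} (h : m.degree = 2) :
    ∃ S S', m = Finsupp.single S 1 + Finsupp.single S' 1 := by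
  classical
  have h0 : m ≠ 0 := by rintro rfl; simp at h
  obtain ⟨S, hS⟩ := Finsupp.ne_iff.mp h0
  have h1 : Finsupp.single S 1 ≤ m := by
    rw [Finsupp.single_le_iff]
    simp at hS
    omega
  have h2 : m = Finsupp.single S 1 + (m - Finsupp.single S 1) := (add_tsub_cancel_of_le h1).symm
  have h3 : (m - Finsupp.single S 1).degree = 1 := by
    have := congrArg Finsupp.degree h2
    rw [map_add, h, Finsupp.degree_single] at this
    omega
  obtain ⟨S', hS'⟩ := degree_one h3
  exact ⟨S, S', by rw [← hS', ← h2]⟩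

lemma degree_of_mem {q : MvPolynomial σ K} {n : ℕ} (hq : q.IsHomogeneous n) {m : σ →₀ ℕ}
    (hm : coeff m q ≠ 0) : m.degree = n := by
  have := hq hm
  rw [Finsupp.degree_eq_weight_one]
  exact this

/-- evaluation of a quadratic form -/
lemma eval_pair {y : σ → K} {S S' : σ} (c : K) :
    (eval y) (monomial (Finsupp.single S 1 + Finsupp.single S' 1) c) = c * (y S * y S') := by
  rw [show (monomial (Finsupp.single S 1 + Finsupp.single S' 1) c : MvPolynomial σ K) =
      C c * (X S * X S') by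
    rw [X, X, monomial_mul, C_mul_monomial]; simp]
  simp

/-- polarisation of a quadratic form -/
lemma polar [DecidableEq σ] {q : MvPolynomial σ K} (hq : q.IsHomogeneous 2) {R R' : σ} (hne : R ≠ R') :
    (eval fun S => if S = R ∨ S = R' then (1 : K) else 0) q -
      (eval fun S => if S = R then (1 : K) else 0) q -
      (eval fun S => if S = R' then (1 : K) else 0) q =
      coeff (Finsupp.single R 1 + Finsupp.single R' 1) q := by
  have key : ∀ (p : MvPolynomial σ K), (∀ m, coeff m p ≠ 0 → m.degree = 2) →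
      (eval fun S => if S = R ∨ S = R' then (1 : K) else 0) p -
      (eval fun S => if S = R then (1 : K) else 0) p -
      (eval fun S => if S = R' then (1 : K) else 0) p =
      coeff (Finsupp.single R 1 + Finsupp.single R' 1) p := by
    intro p hp
    conv_lhs => rw [as_sum p]
    conv_rhs => rw [as_sum p]
    simp only [map_sum, coeff_sum]
    rw [← Finset.sum_sub_distrib, ← Finset.sum_sub_distrib]
    apply Finset.sum_congr rfl
    intro m hm
    obtain ⟨S, S', rfl⟩ := degree_two (hp m (mem_support_iff.mp hm))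
    generalize coeff (Finsupp.single S 1 + Finsupp.single S' 1) p = c
    rw [eval_pair, eval_pair, eval_pair, coeff_monomial]
    have hiff : (Finsupp.single S 1 + Finsupp.single S' 1 : σ →₀ ℕ) =
        Finsupp.single R 1 + Finsupp.single R' 1 ↔ (S = R ∧ S' = R') ∨ (S = R' ∧ S' = R) := by
      constructor
      · intro h
        have h3 := DFunLike.congr_fun h R
        have h4 := DFunLike.congr_fun h R'
        simp only [Finsupp.coe_add, Pi.add_apply, Finsupp.single_apply] at h3 h4
        rw [if_pos trivial, if_neg hne.symm] at h3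
        rw [if_pos trivial, if_neg hne] at h4
        by_cases a1 : S = R
        · left
          refine ⟨a1, ?_⟩
          by_contra a2
          have a3 : S ≠ R' := a1 ▸ hne
          rw [if_neg a2, if_neg a3] at h4
          omega
        · right
          rw [if_neg a1] at h3
          have a4 : S' = R := by
            by_contra a4
            rw [if_neg a4] at h3
            omega
          have a5 : S' ≠ R' := a4 ▸ hne
          rw [if_neg a5] at h4
          refine ⟨?_, a4⟩
          by_contra a3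
          rw [if_neg a3] at h4
          omega
      · rintro (⟨rfl, rfl⟩ | ⟨rfl, rfl⟩)
        · rfl
        · rw [add_comm]
    simp only [hiff]
    by_cases a1 : S = R
    · subst a1
      have b1 : ¬ S = R' := hne
      by_cases a2 : S' = R'
      · subst a2
        have b2 : ¬ S' = S := fun h => hne h.symm
        simp [b1, b2]
      · by_cases a4 : S' = S
        · subst a4; simp [hne]
        · simp [a2, a4, b1]
    · by_cases a3 : S = R'
      · subst a3
        by_cases a4 : S' = R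
        · subst a4; simp [a1, hne]
        · by_cases a2 : S' = S
          · subst a2; simp [a1]
          · simp [a1, a2, a4]
      · simp [a1, a3]
  exact key q fun m hm => degree_of_mem hq hm

/-- scaling of a homogeneous form -/
lemma aeval_scale {A : Type*} [CommRing A] [Algebra K A] {q : MvPolynomial σ K} {n : ℕ}
    (hq : q.IsHomogeneous n) (t : A) (h : σ → A) :
    aeval (fun S => t * h S) q = t ^ n * aeval h q := by
  conv_lhs => rw [as_sum q]
  conv_rhs => rw [as_sum q]
  rw [map_sum, map_sum, Finset.mul_sum]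
  apply Finset.sum_congr rfl
  intro m hm
  have h1 := degree_of_mem hq (mem_support_iff.mp hm)
  rw [aeval_monomial, aeval_monomial, Finsupp.prod, Finsupp.prod]
  simp only [mul_pow]
  rw [Finset.prod_mul_distrib, Finset.prod_pow_eq_pow_sum]
  have h2 : ∑ i ∈ m.support, m i = n := by rw [← h1]; rfl
  rw [h2]
  ring

/-- if all coefficients of the products of two of three variables vanish, so does the coefficient
of the product of the three variables in every multiple -/
lemma coeff_ideal [DecidableEq σ] {G : Set (MvPolynomial σ K)} {R₁ R₂ R₃ : σ} (h12 : R₁ ≠ R₂) (h13 : R₁ ≠ R₃)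
    (h23 : R₂ ≠ R₃) (hG : ∀ q ∈ G, q.IsHomogeneous 2 ∧
      coeff (Finsupp.single R₁ 1 + Finsupp.single R₂ 1) q = 0 ∧
      coeff (Finsupp.single R₁ 1 + Finsupp.single R₃ 1) q = 0 ∧
      coeff (Finsupp.single R₂ 1 + Finsupp.single R₃ 1) q = 0) {p : MvPolynomial σ K}
    (hp : p ∈ Ideal.span G) :
    coeff (Finsupp.single R₁ 1 + Finsupp.single R₂ 1 + Finsupp.single R₃ 1) p = 0 := by
  have key : ∀ a : MvPolynomial σ K,
      coeff (Finsupp.single R₁ 1 + Finsupp.single R₂ 1 + Finsupp.single R₃ 1) (a * p) = 0 := by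
    induction hp using Submodule.span_induction with
    | mem q hq =>
      intro a
      obtain ⟨h1, h2, h3, h4⟩ := hG q hq
      rw [coeff_mul]
      apply Finset.sum_eq_zero
      rintro ⟨m1, m2⟩ hm
      rw [HasAntidiagonal.mem_antidiagonal] at hm
      dsimp only at hm ⊢
      by_cases hc : coeff m2 q = 0
      · rw [hc, mul_zero]
      exfalso
      obtain ⟨S, S', rfl⟩ := degree_two (degree_of_mem h1 hc)
      have e : ∀ T : σ, ((if S = T then 1 else 0) + if S' = T then 1 else 0) ≤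
          (((if R₁ = T then 1 else 0) + if R₂ = T then 1 else 0) + if R₃ = T then 1 else 0 : ℕ) := by
        intro T
        have := DFunLike.congr_fun hm T
        simp only [Finsupp.coe_add, Pi.add_apply, Finsupp.single_apply] at this
        omega
      have hS : S = R₁ ∨ S = R₂ ∨ S = R₃ := by
        by_contra hcon
        push Not at hcon
        have := e S
        rw [if_pos rfl, if_neg (Ne.symm hcon.1), if_neg (Ne.symm hcon.2.1),
          if_neg (Ne.symm hcon.2.2)] at this
        omega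
      have hS' : S' = R₁ ∨ S' = R₂ ∨ S' = R₃ := by
        by_contra hcon
        push Not at hcon
        have := e S'
        rw [if_neg (Ne.symm hcon.1), if_neg (Ne.symm hcon.2.1),
          if_neg (Ne.symm hcon.2.2), if_pos rfl] at this
        omega
      have hne : S ≠ S' := by
        intro h
        subst h
        have := e S
        rcases hS with rfl | rfl | rfl
        · simp [h12.symm, h13.symm] at this
        · simp [h12, h23.symm] at this
        · simp [h13, h23] at this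
      rcases hS with rfl | rfl | rfl <;> rcases hS' with rfl | rfl | rfl
      · exact hne rfl
      · exact hc h2
      · exact hc h3
      · exact hc (by rw [add_comm]; exact h2)
      · exact hne rfl
      · exact hc h4
      · exact hc (by rw [add_comm]; exact h3)
      · exact hc (by rw [add_comm]; exact h4)
      · exact hne rfl
    | zero => intro a; simp
    | add x y _ _ hx hy => intro a; rw [mul_add, coeff_add, hx, hy, add_zero]
    | smul b x _ hx => intro a; rw [smul_eq_mul, ← mul_assoc]; exact hx (a * b)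
  simpa using key 1

end general

section region

variable {K : Type*} [Field K]

/-- values of the rectangles with a side on the line `x.2 = c` -/
lemma eval_special {Λ : Set Pt} {c : ℤ} (hc : ∀ S ∈ Mn Λ, c ≤ S.1.2) {q : MvPolynomial (Pt × Pt) K}
    (hq : q ∈ supported K (Mn Λ)) (hq2 : q.IsHomogeneous 2) (hphi : phi K q = 0) (v : Pt → K)
    (y : Pt × Pt → K) (hy : ∀ S ∈ Mn Λ, y S = if S.1.2 = c then
      v (S.1.1, S.2.2) * v (S.2.1, S.1.2) - v S.1 * v S.2 else 0) : eval y q = 0 := by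
  classical
  let f : Pt × Pt → K := fun S => v (S.1.1, S.2.2) * v (S.2.1, S.1.2) - v S.1 * v S.2
  let ξ : Pt → Polynomial K := fun w => if w.2 = c then Polynomial.C (v w) else
    Polynomial.X * Polynomial.C (v w)
  let h : Pt × Pt → Polynomial K := fun S => if S.1.2 = c then Polynomial.C (f S) else
    Polynomial.X * Polynomial.C (f S)
  have h1 : aeval ξ (phi K q) = aeval (fun S => Polynomial.X * h S) q := by
    have e1 : aeval ξ (phi K q) = aeval (fun S => aeval ξ (fR K S)) q := by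
      unfold phi
      rw [← AlgHom.comp_apply, comp_aeval]
    rw [e1]
    change eval₂Hom _ _ q = eval₂Hom _ _ q
    apply eval₂Hom_congr' rfl _ rfl
    intro S hS _
    have hSM : S ∈ Mn Λ := mem_supported.mp hq (by exact_mod_cast hS)
    have h2 := hc S hSM
    have h3 : S.1.2 < S.2.2 := hSM.2.1
    have h4 : ¬ S.2.2 = c := by omega
    by_cases h5 : S.1.2 = c
    · simp only [fR, map_sub, map_mul, aeval_X, ξ, h, f, h5, h4, if_true, if_false]
      ring
    · simp only [fR, map_sub, map_mul, aeval_X, ξ, h, f, h5, h4, if_false]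
      ring
  rw [hphi, map_zero, aeval_scale hq2] at h1
  have h2 : aeval h q = 0 := by
    rcases mul_eq_zero.mp h1.symm with h3 | h3
    · exact absurd h3 (pow_ne_zero _ Polynomial.X_ne_zero)
    · exact h3
  have h3 : eval y q = Polynomial.evalRingHom 0 (aeval h q) := by
    rw [aeval_def, ← coe_eval₂Hom, ← RingHom.comp_apply, comp_eval₂Hom]
    change eval₂Hom _ _ q = eval₂Hom _ _ q
    apply eval₂Hom_congr'
    · ext a; simp
    · intro S hS _
      have hSM : S ∈ Mn Λ := mem_supported.mp hq (by exact_mod_cast hS)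
      rw [hy S hSM]
      by_cases h5 : S.1.2 = c
      · simp only [h, f, h5, if_true]
        simp
      · simp only [h, h5, if_false]
        simp
    · rfl
  rw [h3, h2, map_zero]

/-- a mixed coefficient of a quadratic relation -/
lemma coeff_zero {Λ : Set Pt} {c : ℤ} (hc : ∀ S ∈ Mn Λ, c ≤ S.1.2) {q : MvPolynomial (Pt × Pt) K}
    (hq : q ∈ supported K (Mn Λ)) (hq2 : q.IsHomogeneous 2) (hphi : phi K q = 0)
    {R R' : Pt × Pt} (hne : R ≠ R')
    (v : K → K → Pt → K)
    (hv : ∀ α β : K, ∀ S ∈ Mn Λ, (if S = R then α else if S = R' then β else 0) =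
      if S.1.2 = c then v α β (S.1.1, S.2.2) * v α β (S.2.1, S.1.2) - v α β S.1 * v α β S.2 else 0) :
    coeff (Finsupp.single R 1 + Finsupp.single R' 1) q = 0 := by
  classical
  rw [← polar hq2 hne]
  have h1 := eval_special hc hq hq2 hphi (v 1 1) (fun S => if S = R ∨ S = R' then (1 : K) else 0) (by
    intro S hS
    rw [← hv 1 1 S hS]
    by_cases a : S = R <;> by_cases b : S = R' <;> simp [a, b])
  have h2 := eval_special hc hq hq2 hphi (v 1 0) (fun S => if S = R then (1 : K) else 0) (by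
    intro S hS
    rw [← hv 1 0 S hS]
    by_cases a : S = R <;> by_cases b : S = R' <;> simp [a, b])
  have h3 := eval_special hc hq hq2 hphi (v 0 1) (fun S => if S = R' then (1 : K) else 0) (by
    intro S hS
    rw [← hv 0 1 S hS]
    by_cases a : S = R
    · subst a; simp [hne]
    · simp [a])
  rw [h1, h2, h3]
  simp

end region

section rect

variable (K : Type*) [Field K]

/-- the three by four block -/
def Blk34 (a : Pt) : Set Pt := {x : Pt | a.1 ≤ x.1 ∧ x.1 ≤ a.1 + 2 ∧ a.2 ≤ x.2 ∧ x.2 ≤ a.2 + 3}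

/-- rectangles with a side on the lower line -/
def rc (a : Pt) (r s k : ℤ) : Pt × Pt := ((a.1 + r, a.2), (a.1 + s, a.2 + k))

lemma rc_ne {a : Pt} {r s k r' s' k' : ℤ} (h : k ≠ k') : rc a r s k ≠ rc a r' s' k' := by
  intro h1
  have := congrArg (fun S : Pt × Pt => S.2.2) h1
  simp [rc] at this
  exact h this

lemma rc_mem {a : Pt} {r s k : ℤ} (h0 : 0 ≤ r) (h1 : r < s) (h2 : s ≤ 2) (h3 : 1 ≤ k) (h4 : k ≤ 3) :
    rc a r s k ∈ Mn (Blk34 a) := by
  refine ⟨?_, ?_, ⟨?_, ?_, ?_, ?_⟩, ⟨?_, ?_, ?_, ?_⟩⟩ <;> simp only [rc] <;> omega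

/-- the determinant of the nine rectangles -/
noncomputable def F (a : Pt) : MvPolynomial (Pt × Pt) K :=
  X (rc a 0 1 1) * X (rc a 0 2 2) * X (rc a 1 2 3) - X (rc a 0 1 1) * X (rc a 0 2 3) * X (rc a 1 2 2) -
  X (rc a 0 1 2) * X (rc a 0 2 1) * X (rc a 1 2 3) + X (rc a 0 1 2) * X (rc a 0 2 3) * X (rc a 1 2 1) +
  X (rc a 0 1 3) * X (rc a 0 2 1) * X (rc a 1 2 2) - X (rc a 0 1 3) * X (rc a 0 2 2) * X (rc a 1 2 1)

lemma F_supported (a : Pt) : F K a ∈ supported K (Mn (Blk34 a)) := by
  have hX : ∀ r s k : ℤ, 0 ≤ r → r < s → s ≤ 2 → 1 ≤ k → k ≤ 3 →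
      (X (rc a r s k) : MvPolynomial (Pt × Pt) K) ∈ supported K (Mn (Blk34 a)) := by
    intro r s k h0 h1 h2 h3 h4
    exact (X_mem_supported (R := K)).mpr (rc_mem h0 h1 h2 h3 h4)
  unfold F
  have b1 := hX 0 1 1 (by omega) (by omega) (by omega) (by omega) (by omega)
  have b2 := hX 0 1 2 (by omega) (by omega) (by omega) (by omega) (by omega)
  have b3 := hX 0 1 3 (by omega) (by omega) (by omega) (by omega) (by omega)
  have b4 := hX 0 2 1 (by omega) (by omega) (by omega) (by omega) (by omega)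
  have b5 := hX 0 2 2 (by omega) (by omega) (by omega) (by omega) (by omega)
  have b6 := hX 0 2 3 (by omega) (by omega) (by omega) (by omega) (by omega)
  have b7 := hX 1 2 1 (by omega) (by omega) (by omega) (by omega) (by omega)
  have b8 := hX 1 2 2 (by omega) (by omega) (by omega) (by omega) (by omega)
  have b9 := hX 1 2 3 (by omega) (by omega) (by omega) (by omega) (by omega)
  exact Subalgebra.sub_mem _ (Subalgebra.add_mem _ (Subalgebra.add_mem _ (Subalgebra.sub_mem _
    (Subalgebra.sub_mem _ (mul_mem (mul_mem b1 b5) b9) (mul_mem (mul_mem b1 b6) b8))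
    (mul_mem (mul_mem b2 b4) b9)) (mul_mem (mul_mem b2 b6) b7)) (mul_mem (mul_mem b3 b4) b8))
    (mul_mem (mul_mem b3 b5) b7)

lemma phi_F (a : Pt) : phi K (F K a) = 0 := by
  unfold F phi
  simp only [map_add, map_sub, map_mul, aeval_X, fR, rc]
  ring

lemma coeff_F (a : Pt) : coeff (Finsupp.single (rc a 0 1 1) 1 + Finsupp.single (rc a 0 2 2) 1 +
    Finsupp.single (rc a 1 2 3) 1) (F K a) = 1 := by
  classical
  have key : ∀ A B C : Pt × Pt, ∀ M : (Pt × Pt) →₀ ℕ, coeff M (X A * X B * X C : MvPolynomial (Pt × Pt) K) =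
      if Finsupp.single A 1 + Finsupp.single B 1 + Finsupp.single C 1 = M then 1 else 0 := by
    intro A B C M
    rw [X, X, X, monomial_mul, monomial_mul, coeff_monomial]
    simp
  unfold F
  simp only [coeff_sub, coeff_add, key]
  have hz : ∀ A B C : Pt × Pt, (∃ T, (T = A ∨ T = B ∨ T = C) ∧ T ≠ rc a 0 1 1 ∧ T ≠ rc a 0 2 2 ∧
      T ≠ rc a 1 2 3) → ¬ ((Finsupp.single A 1 + Finsupp.single B 1 + Finsupp.single C 1 :
        (Pt × Pt) →₀ ℕ) =
      Finsupp.single (rc a 0 1 1) 1 + Finsupp.single (rc a 0 2 2) 1 + Finsupp.single (rc a 1 2 3) 1) := by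
    rintro A B C ⟨T, hT, h1, h2, h3⟩ h
    have := DFunLike.congr_fun h T
    simp only [Finsupp.coe_add, Pi.add_apply, Finsupp.single_apply] at this
    rw [if_neg h1.symm, if_neg h2.symm, if_neg h3.symm] at this
    rcases hT with rfl | rfl | rfl <;> simp at this
  have hr : ∀ r s k r' s' k' : ℤ, (r ≠ r' ∨ s ≠ s' ∨ k ≠ k') → rc a r s k ≠ rc a r' s' k' := by
    intro r s k r' s' k' h h1
    have e1 := congrArg (fun S : Pt × Pt => S.1.1) h1
    have e2 := congrArg (fun S : Pt × Pt => S.2.1) h1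
    have e3 := congrArg (fun S : Pt × Pt => S.2.2) h1
    simp [rc] at e1 e2 e3
    omega
  rw [if_pos trivial, if_neg, if_neg, if_neg, if_neg, if_neg]
  · ring
  · exact hz _ _ _ ⟨rc a 0 1 3, Or.inl rfl, hr _ _ _ _ _ _ (by omega), hr _ _ _ _ _ _ (by omega), hr _ _ _ _ _ _ (by omega)⟩
  · exact hz _ _ _ ⟨rc a 0 1 3, Or.inl rfl, hr _ _ _ _ _ _ (by omega), hr _ _ _ _ _ _ (by omega), hr _ _ _ _ _ _ (by omega)⟩
  · exact hz _ _ _ ⟨rc a 0 1 2, Or.inl rfl, hr _ _ _ _ _ _ (by omega), hr _ _ _ _ _ _ (by omega), hr _ _ _ _ _ _ (by omega)⟩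
  · exact hz _ _ _ ⟨rc a 0 1 2, Or.inl rfl, hr _ _ _ _ _ _ (by omega), hr _ _ _ _ _ _ (by omega), hr _ _ _ _ _ _ (by omega)⟩
  · exact hz _ _ _ ⟨rc a 0 2 3, Or.inr (Or.inl rfl), hr _ _ _ _ _ _ (by omega), hr _ _ _ _ _ _ (by omega), hr _ _ _ _ _ _ (by omega)⟩

/-- the valuation for the private monomials -/
lemma special {a : Pt} {p r₁ k₁ r₂ k₂ : ℤ} {x₁ y₁ x₂ y₂ : ℤ}
    (h : x₁ = min p r₁ ∧ y₁ = max p r₁ ∧ x₂ = min p r₂ ∧ y₂ = max p r₂)
    (hp : p ≠ r₁ ∧ p ≠ r₂) (hk : k₁ ≠ k₂ ∧ 1 ≤ k₁ ∧ 1 ≤ k₂) (_hr : r₁ ≠ r₂)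
    {q : MvPolynomial (Pt × Pt) K} (hq : q ∈ supported K (Mn (Blk34 a))) (hq2 : q.IsHomogeneous 2)
    (hphi : phi K q = 0) :
    coeff (Finsupp.single (rc a x₁ y₁ k₁) 1 + Finsupp.single (rc a x₂ y₂ k₂) 1) q = 0 := by
  obtain ⟨hx1, hy1, hx2, hy2⟩ := h
  obtain ⟨hk1, hk2, hk3⟩ := hk
  obtain ⟨hp1, hp2⟩ := hp
  obtain ⟨v, hv⟩ : ∃ v : K → K → Pt → K, v = fun α β w => if w = (a.1 + p, a.2) then 1 else
      if w = (a.1 + r₁, a.2 + k₁) then (if p < r₁ then -α else α) else
      if w = (a.1 + r₂, a.2 + k₂) then (if p < r₂ then -β else β) else 0 := ⟨_, rfl⟩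
  have hv1 : ∀ α β w1 w2, w2 ≠ a.2 → v α β (w1, w2) =
      if w1 = a.1 + r₁ ∧ w2 = a.2 + k₁ then (if p < r₁ then -α else α) else
      if w1 = a.1 + r₂ ∧ w2 = a.2 + k₂ then (if p < r₂ then -β else β) else 0 := by
    intro α β w1 w2 h
    rw [hv]
    simp only [Prod.mk.injEq]
    rw [if_neg (by tauto)]
  have hv2 : ∀ α β w1, v α β (w1, a.2) = if w1 = a.1 + p then 1 else 0 := by
    intro α β w1
    rw [hv]
    simp only [Prod.mk.injEq, and_true]
    rw [if_neg (c := w1 = a.1 + r₁ ∧ a.2 = a.2 + k₁) (by omega),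
      if_neg (c := w1 = a.1 + r₂ ∧ a.2 = a.2 + k₂) (by omega)]
  refine coeff_zero (c := a.2) (fun S hS => ?_) hq hq2 hphi (rc_ne hk1) v ?_
  · exact hS.2.2.2.2.2.1
  · rintro α β ⟨⟨s1, s2⟩, ⟨t1, t2⟩⟩ hS
    have h1 : s1 < t1 := hS.1
    have h2 : s2 < t2 := hS.2.1
    simp only [rc, Prod.mk.injEq]
    by_cases hs : s2 = a.2
    · subst hs
      rw [if_pos rfl, hv2, hv2, hv1 _ _ _ _ (by omega), hv1 _ _ _ _ (by omega)]
      by_cases c1 : t1 = a.1 + p
      · have c2 : ¬ s1 = a.1 + p := by omega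
        rw [if_pos c1, if_neg c2, mul_one, zero_mul, sub_zero]
        split_ifs <;> first | rfl | (exfalso; omega)
      · rw [if_neg c1, mul_zero, zero_sub]
        by_cases c2 : s1 = a.1 + p
        · rw [if_pos c2, one_mul]
          split_ifs <;> first | rfl | (exfalso; omega) | ring
        · rw [if_neg c2, zero_mul, neg_zero]
          split_ifs <;> first | rfl | (exfalso; omega)
    · rw [if_neg hs, if_neg (by tauto), if_neg (by tauto)]

/-- **JM-RECT34** -/
theorem not_QG_blk34 (a : Pt) : ¬ QG K (Blk34 a) := by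
  classical
  intro hQ
  have h1 := hQ (F K a) (F_supported K a) (phi_F K a)
  have h2 : coeff (Finsupp.single (rc a 0 1 1) 1 + Finsupp.single (rc a 0 2 2) 1 +
      Finsupp.single (rc a 1 2 3) 1) (F K a) = 0 := by
    refine coeff_ideal (rc_ne (by norm_num)) (rc_ne (by norm_num)) (rc_ne (by norm_num)) ?_ h1
    rintro q ⟨h3, h4, h5⟩
    refine ⟨h5, ?_, ?_, ?_⟩
    · exact special K (p := 0) (r₁ := 1) (r₂ := 2) (by norm_num) (by norm_num) (by norm_num)
        (by norm_num) h3 h5 h4
    · exact special K (p := 1) (r₁ := 0) (r₂ := 2) (by norm_num) (by norm_num) (by norm_num)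
        (by norm_num) h3 h5 h4
    · exact special K (p := 2) (r₁ := 0) (r₂ := 1) (by norm_num) (by norm_num) (by norm_num)
        (by norm_num) h3 h5 h4
  rw [coeff_F] at h2
  exact one_ne_zero h2

theorem not_QG_rect34 (K : Type*) [Field K] (a : Pt) :
    ¬ QG K {x : Pt | a.1 ≤ x.1 ∧ x.1 ≤ a.1 + 2 ∧ a.2 ≤ x.2 ∧ x.2 ≤ a.2 + 3} :=
  not_QG_blk34 K a

/-- transposition of rectangles -/
def sw2 : Pt × Pt ≃ Pt × Pt := Equiv.prodCongr (Equiv.prodComm ℤ ℤ) (Equiv.prodComm ℤ ℤ)

lemma sw2_symm : sw2.symm = sw2 := rfl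

lemma sw2_sw2 (S : Pt × Pt) : sw2 (sw2 S) = S := rfl

lemma mem_swap {Λ : Set Pt} (S : Pt × Pt) : sw2 S ∈ Mn Λ ↔ S ∈ Mn (Prod.swap ⁻¹' Λ) := by
  obtain ⟨⟨a, b⟩, ⟨c, d⟩⟩ := S
  simp only [sw2, Mn, Equiv.prodCongr_apply, Prod.map, Equiv.prodComm_apply, Prod.swap,
    Set.mem_setOf_eq, Set.mem_preimage]
  tauto

lemma phi_rename (p : MvPolynomial (Pt × Pt) K) :
    phi K (rename sw2 p) = rename (Equiv.prodComm ℤ ℤ) (phi K p) := by
  unfold phi
  rw [aeval_rename]
  have : (rename (Equiv.prodComm ℤ ℤ) (aeval (fR K) p) : MvPolynomial Pt K) =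
      aeval (fun S => rename (Equiv.prodComm ℤ ℤ) (fR K S)) p := by
    rw [← AlgHom.comp_apply, comp_aeval]
  rw [this]
  congr 2
  funext S
  obtain ⟨⟨a, b⟩, ⟨c, d⟩⟩ := S
  simp only [Function.comp, sw2, Equiv.prodCongr_apply, Prod.map, Equiv.prodComm_apply, Prod.swap, fR,
    map_sub, map_mul, rename_X]
  rw [mul_comm (X (b, c) : MvPolynomial Pt K)]

lemma supported_rename {Λ : Set Pt} {p : MvPolynomial (Pt × Pt) K}
    (hp : p ∈ supported K (Mn (Prod.swap ⁻¹' Λ))) : rename sw2 p ∈ supported K (Mn Λ) := by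
  classical
  rw [mem_supported] at hp ⊢
  intro S hS
  have h1 := vars_rename sw2 p (Finset.mem_coe.mp hS)
  rw [Finset.mem_image] at h1
  obtain ⟨T, hT, rfl⟩ := h1
  exact (mem_swap T).mpr (hp (Finset.mem_coe.mpr hT))

theorem QG_swap {Λ : Set Pt} (h : QG K Λ) : QG K (Prod.swap ⁻¹' Λ) := by
  intro p hp hphi
  have h1 := h (rename sw2 p) (supported_rename K hp) (by rw [phi_rename, hphi, map_zero])
  have h2 := Ideal.mem_map_of_mem (rename sw2 : MvPolynomial (Pt × Pt) K →ₐ[K] _) h1
  have h3 : rename sw2 (rename sw2 p) = p := by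
    rw [rename_rename]
    have : (sw2 : Pt × Pt → Pt × Pt) ∘ sw2 = id := rfl
    rw [this, rename_id_apply]
  rw [h3] at h2
  unfold quadI at h2
  rw [Ideal.map_span] at h2
  refine Ideal.span_mono ?_ h2
  rintro _ ⟨q, ⟨h4, h5, h6⟩, rfl⟩
  refine ⟨?_, ?_, ?_⟩
  · have : Prod.swap ⁻¹' (Prod.swap ⁻¹' Λ) = Λ := rfl
    rw [← this] at h4
    exact supported_rename K h4
  · change phi K (rename sw2 q) = 0
    rw [phi_rename, h5, map_zero]
  · exact h6.rename_isHomogeneous

theorem not_QG_rect43 (K : Type*) [Field K] (a : Pt) :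
    ¬ QG K {x : Pt | a.1 ≤ x.1 ∧ x.1 ≤ a.1 + 3 ∧ a.2 ≤ x.2 ∧ x.2 ≤ a.2 + 2} := by
  intro h
  apply not_QG_rect34 K (a.2, a.1)
  have h1 := QG_swap K h
  convert h1 using 1
  ext x
  simp only [Set.mem_setOf_eq, Set.mem_preimage, Prod.swap]
  tauto

end rect

end Pool.Agent.Helper79.JMR
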