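import Mathlib

set_option autoImplicit false

open MeasureTheory Set

namespace Pool.Agent.Helper79.Sector

/-- The circle of length one. -/
abbrev T := UnitAddCircle

/-- The two dimensional torus. -/
abbrev T2 := UnitAddCircle × UnitAddCircle

/-- Integrals of a continuous function on the circle along the real line differ from their mean
value by a bounded quantity. -/
lemma periodic_avg {p : T → ℝ} (hp : Continuous p) {B : ℝ} (hB : ∀ y, |p y| ≤ B) (a b : ℝ) :
    |(∫ t in a..b, p (t : T)) - (b - a) * ∫ y, p y| ≤ 2 * B := by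
  have hB0 : 0 ≤ B := le_trans (abs_nonneg _) (hB 0)
  set m : ℝ := ∫ y, p y with hm
  have hmB : |m| ≤ B := by
    have h1 : ‖∫ y, p y‖ ≤ B * (volume : Measure T).real univ :=
      norm_integral_le_of_norm_le_const (Filter.Eventually.of_forall fun y => by
        rw [Real.norm_eq_abs]; exact hB y)
    simpa [Measure.real, hm] using h1
  have hcont : Continuous (fun t : ℝ => p (t : T)) :=
    hp.comp (AddCircle.continuous_mk' (1 : ℝ))
  have hper : Function.Periodic (fun t : ℝ => p (t : T)) 1 := by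
    intro t
    simp
  have hint : ∀ a b : ℝ, IntervalIntegrable (fun t : ℝ => p (t : T)) volume a b :=
    fun a b => hcont.intervalIntegrable a b
  have hone : ∀ a : ℝ, ∫ t in a..a + 1, p (t : T) = m := fun a =>
    UnitAddCircle.intervalIntegral_preimage a p
  set n : ℤ := ⌊b - a⌋ with hn
  have hn1 : (n : ℝ) ≤ b - a := Int.floor_le _
  have hn2 : b - a < n + 1 := Int.lt_floor_add_one _
  have hper2 : ∫ t in a..a + n, p (t : T) = n * m := by
    have h := hper.intervalIntegral_add_zsmul_eq n a (fun a b => hint a b)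
    simp only [zsmul_eq_mul, mul_one] at h
    rw [h, hone]
  have hsplit : ∫ t in a..b, p (t : T) = n * m + ∫ t in (a + n)..b, p (t : T) := by
    rw [← hper2, intervalIntegral.integral_add_adjacent_intervals (hint _ _) (hint _ _)]
  have hrest : |∫ t in (a + n)..b, p (t : T)| ≤ B * |b - (a + n)| := by
    have := intervalIntegral.norm_integral_le_of_norm_le_const
      (a := a + n) (b := b) (f := fun t : ℝ => p (t : T)) (C := B)
      (fun t _ => by rw [Real.norm_eq_abs]; exact hB _)
    simpa [Real.norm_eq_abs] using this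
  have habs : |b - (a + n)| ≤ 1 := by
    rw [abs_le]; constructor <;> linarith
  rw [hsplit]
  have e : n * m + (∫ t in (a + n)..b, p (t : T)) - (b - a) * m
      = (∫ t in (a + n)..b, p (t : T)) - (b - (a + n)) * m := by ring
  rw [e]
  calc |(∫ t in (a + n)..b, p (t : T)) - (b - (a + n)) * m|
      ≤ |∫ t in (a + n)..b, p (t : T)| + |(b - (a + n)) * m| := abs_sub _ _
    _ ≤ B * 1 + 1 * B := by
        rw [abs_mul]
        gcongr
        exact hrest.trans (by gcongr)
    _ = 2 * B := by ring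

/-- The same with a nonzero speed. -/
lemma periodic_avg_speed {p : T → ℝ} (hp : Continuous p) {B : ℝ} (hB : ∀ y, |p y| ≤ B)
    (θ : T) {c : ℝ} (hc : c ≠ 0) (t0 t1 : ℝ) :
    |(∫ t in t0..t1, p (θ - ((c * t : ℝ) : T))) - (t1 - t0) * ∫ y, p y| ≤ 2 * B / |c| := by
  obtain ⟨θ', rfl⟩ := QuotientAddGroup.mk_surjective θ
  have h1 : ∀ t : ℝ, p ((θ' : T) - ((c * t : ℝ) : T)) = p ((θ' - c * t : ℝ) : T) := by
    intro t; rw [AddCircle.coe_sub]
  have h2 : (∫ t in t0..t1, p ((θ' : T) - ((c * t : ℝ) : T)))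
      = c⁻¹ * ∫ t in (θ' - c * t1)..(θ' - c * t0), p (t : T) := by
    simp_rw [h1]
    rw [intervalIntegral.integral_comp_sub_mul (fun t : ℝ => p (t : T)) hc]
    simp
  have h3 := periodic_avg hp hB (θ' - c * t1) (θ' - c * t0)
  change |(∫ t in t0..t1, p ((θ' : T) - ((c * t : ℝ) : T))) - (t1 - t0) * ∫ y, p y| ≤ _
  rw [h2]
  have e : c⁻¹ * (∫ t in (θ' - c * t1)..(θ' - c * t0), p (t : T)) - (t1 - t0) * ∫ y, p y
      = c⁻¹ * ((∫ t in (θ' - c * t1)..(θ' - c * t0), p (t : T))
        - ((θ' - c * t0) - (θ' - c * t1)) * ∫ y, p y) := by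
    field_simp
    ring
  rw [e, abs_mul, abs_inv]
  rw [div_eq_inv_mul]
  gcongr

/-- Fast averaging lemma. -/
lemma fast_avg {u h : ℝ → ℝ} (hu : Continuous u) (hh : Continuous h) {N : ℕ} (hN : 0 < N)
    {B Bh hbar e1 e2 : ℝ}
    (hB : ∀ t ∈ Icc (0 : ℝ) 1, |u t| ≤ B) (hBh : ∀ t ∈ Icc (0 : ℝ) 1, |h t| ≤ Bh)
    (hbarB : |hbar| ≤ Bh)
    (hmod : ∀ t ∈ Icc (0 : ℝ) 1, ∀ t' ∈ Icc (0 : ℝ) 1, |t - t'| ≤ 1 / N → |u t - u t'| ≤ e1)
    (havg : ∀ k < N, |(∫ t in ((k : ℝ) / N)..(((k + 1 : ℕ) : ℝ) / N), h t) - hbar / N| ≤ e2 / N) :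
    |(∫ t in (0 : ℝ)..1, u t * h t) - hbar * ∫ t in (0 : ℝ)..1, u t|
      ≤ 2 * e1 * Bh + B * e2 := by
  have hN0 : (0 : ℝ) < N := by exact_mod_cast hN
  have hBh0 : 0 ≤ Bh := le_trans (abs_nonneg _) hbarB
  have hB0 : 0 ≤ B := le_trans (abs_nonneg _) (hB 0 (by simp))
  have hg : Continuous (fun t => u t * (h t - hbar)) := hu.mul (hh.sub continuous_const)
  have e0 : (∫ t in (0 : ℝ)..1, u t * h t) - hbar * ∫ t in (0 : ℝ)..1, u t
      = ∫ t in (0 : ℝ)..1, u t * (h t - hbar) := by
    rw [← intervalIntegral.integral_const_mul, ← intervalIntegral.integral_sub]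
    · congr 1; ext t; ring
    · exact (hu.mul hh).intervalIntegrable _ _
    · exact (continuous_const.mul hu).intervalIntegrable _ _
  rw [e0]
  have hsum : ∑ k ∈ Finset.range N, ∫ t in ((k : ℝ) / N)..(((k + 1 : ℕ) : ℝ) / N),
      u t * (h t - hbar) = ∫ t in (0 : ℝ)..1, u t * (h t - hbar) := by
    have := intervalIntegral.sum_integral_adjacent_intervals (n := N) (μ := volume)
      (f := fun t => u t * (h t - hbar)) (a := fun k : ℕ => (k : ℝ) / N)
      (fun k _ => hg.intervalIntegrable _ _)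
    simpa [hN0.ne'] using this
  rw [← hsum]
  have hterm : ∀ k ∈ Finset.range N, |∫ t in ((k : ℝ) / N)..(((k + 1 : ℕ) : ℝ) / N),
      u t * (h t - hbar)| ≤ (2 * e1 * Bh + B * e2) / N := by
    intro k hk
    rw [Finset.mem_range] at hk
    have hk1 : ((k : ℝ) + 1) ≤ N := by exact_mod_cast hk
    have hk0 : (0 : ℝ) ≤ k := Nat.cast_nonneg k
    set tk : ℝ := (k : ℝ) / N with htk
    set tk' : ℝ := ((k + 1 : ℕ) : ℝ) / N with htk'
    have hlen : tk' - tk = 1 / N := by
      rw [htk, htk']; push_cast; field_simp; ring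
    have hle : tk ≤ tk' := by
      have : (0 : ℝ) < 1 / N := by positivity
      linarith
    have htk0 : 0 ≤ tk := by positivity
    have htk1 : tk' ≤ 1 := by
      rw [htk']; push_cast; rw [div_le_one hN0]; exact hk1
    have hmem : tk ∈ Icc (0 : ℝ) 1 := ⟨htk0, hle.trans htk1⟩
    have e1' : (∫ t in tk..tk', u t * (h t - hbar))
        = u tk * (∫ t in tk..tk', (h t - hbar))
          + ∫ t in tk..tk', (u t - u tk) * (h t - hbar) := by
      rw [← intervalIntegral.integral_const_mul, ← intervalIntegral.integral_add]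
      · congr 1; ext t; ring
      · exact (continuous_const.mul (hh.sub continuous_const)).intervalIntegrable _ _
      · exact ((hu.sub continuous_const).mul (hh.sub continuous_const)).intervalIntegrable _ _
    have e2' : (∫ t in tk..tk', (h t - hbar)) = (∫ t in tk..tk', h t) - hbar / N := by
      rw [intervalIntegral.integral_sub (hh.intervalIntegrable _ _)
        (continuous_const.intervalIntegrable _ _), intervalIntegral.integral_const, hlen]
      simp [div_eq_inv_mul]
    have b1 : |u tk * (∫ t in tk..tk', (h t - hbar))| ≤ B * (e2 / N) := by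
      rw [abs_mul, e2']
      gcongr
      · exact hB tk hmem
      · exact havg k hk
    have b2 : |∫ t in tk..tk', (u t - u tk) * (h t - hbar)| ≤ (e1 * (2 * Bh)) * (1 / N) := by
      have := intervalIntegral.norm_integral_le_of_norm_le_const
        (a := tk) (b := tk') (f := fun t : ℝ => (u t - u tk) * (h t - hbar)) (C := e1 * (2 * Bh))
        (fun t ht => by
          rw [uIoc_of_le hle] at ht
          have ht' : t ∈ Icc (0 : ℝ) 1 := ⟨htk0.trans ht.1.le, ht.2.trans htk1⟩
          rw [Real.norm_eq_abs, abs_mul]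
          have c1 : |u t - u tk| ≤ e1 := by
            apply hmod t ht' tk hmem
            rw [abs_le]; constructor
            · have : (0 : ℝ) < 1 / N := by positivity
              linarith [ht.1]
            · linarith [ht.2]
          have c2 : |h t - hbar| ≤ 2 * Bh := by
            calc |h t - hbar| ≤ |h t| + |hbar| := abs_sub _ _
              _ ≤ Bh + Bh := add_le_add (hBh t ht') hbarB
              _ = 2 * Bh := by ring
          have : 0 ≤ e1 := le_trans (abs_nonneg _) c1
          gcongr)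
      rw [Real.norm_eq_abs, hlen] at this
      rwa [abs_of_pos (by positivity : (0 : ℝ) < 1 / N)] at this
    rw [e1']
    calc _ ≤ |u tk * (∫ t in tk..tk', (h t - hbar))|
          + |∫ t in tk..tk', (u t - u tk) * (h t - hbar)| := abs_add_le _ _
      _ ≤ B * (e2 / N) + (e1 * (2 * Bh)) * (1 / N) := add_le_add b1 b2
      _ = (2 * e1 * Bh + B * e2) / N := by ring
  calc |∑ k ∈ Finset.range N, ∫ t in ((k : ℝ) / N)..(((k + 1 : ℕ) : ℝ) / N),
      u t * (h t - hbar)|
      ≤ ∑ k ∈ Finset.range N, |∫ t in ((k : ℝ) / N)..(((k + 1 : ℕ) : ℝ) / N),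
      u t * (h t - hbar)| := Finset.abs_sum_le_sum_abs _ _
    _ ≤ ∑ k ∈ Finset.range N, (2 * e1 * Bh + B * e2) / N := Finset.sum_le_sum hterm
    _ = 2 * e1 * Bh + B * e2 := by
        rw [Finset.sum_const, Finset.card_range, nsmul_eq_mul]
        field_simp

end Pool.Agent.Helper79.Sector
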