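import Mathlib
import Pool.Agent.Helper79.SectorBasic

set_option autoImplicit false

open MeasureTheory Set Filter

namespace Pool.Agent.Helper79.Sector

/-- Translate the point `x` of the torus backwards by the vector `(a, b)`. -/
noncomputable def flow (x : T2) (a b : ℝ) : T2 := (x.1 - (a : T), x.2 - (b : T))

lemma norm_coe_le (a : ℝ) : ‖(a : T)‖ ≤ |a| := by
  rw [UnitAddCircle.norm_eq]
  simpa using round_le a 0

lemma continuous_coe : Continuous (fun a : ℝ => (a : T)) := AddCircle.continuous_mk' (1 : ℝ)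

lemma unif1 {p : T → ℝ} (hp : Continuous p) {ε : ℝ} (hε : 0 < ε) :
    ∃ δ > 0, ∀ (θ : T) (a a' : ℝ), |a - a'| ≤ δ → |p (θ - (a : T)) - p (θ - (a' : T))| ≤ ε := by
  have hu : UniformContinuous p := CompactSpace.uniformContinuous_of_continuous hp
  rw [Metric.uniformContinuous_iff] at hu
  obtain ⟨δ, hδ, h⟩ := hu ε hε
  refine ⟨δ / 2, by positivity, fun θ a a' ha => ?_⟩
  have hd : dist (θ - (a : T)) (θ - (a' : T)) < δ := by
    rw [dist_eq_norm]
    have : θ - (a : T) - (θ - (a' : T)) = ((a' - a : ℝ) : T) := by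
      rw [AddCircle.coe_sub]; abel
    rw [this]
    refine (norm_coe_le _).trans_lt ?_
    rw [abs_sub_comm]
    linarith
  have := h hd
  rw [Real.dist_eq] at this
  exact this.le

lemma unif2 {F : T2 → ℝ} (hF : Continuous F) {ε : ℝ} (hε : 0 < ε) :
    ∃ δ > 0, ∀ (x : T2) (a b a' b' : ℝ), |a - a'| ≤ δ → |b - b'| ≤ δ →
      |F (flow x a b) - F (flow x a' b')| ≤ ε := by
  have hu : UniformContinuous F := CompactSpace.uniformContinuous_of_continuous hF
  rw [Metric.uniformContinuous_iff] at hu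
  obtain ⟨δ, hδ, h⟩ := hu ε hε
  refine ⟨δ / 2, by positivity, fun x a b a' b' ha hb => ?_⟩
  have key : ∀ (θ : T) (c c' : ℝ), |c - c'| ≤ δ / 2 →
      dist (θ - (c : T)) (θ - (c' : T)) < δ := by
    intro θ c c' hc
    rw [dist_eq_norm]
    have : θ - (c : T) - (θ - (c' : T)) = ((c' - c : ℝ) : T) := by
      rw [AddCircle.coe_sub]; abel
    rw [this]
    refine (norm_coe_le _).trans_lt ?_
    rw [abs_sub_comm]
    linarith
  have hd : dist (flow x a b) (flow x a' b') < δ := by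
    rw [Prod.dist_eq, max_lt_iff]
    exact ⟨key _ _ _ ha, key _ _ _ hb⟩
  have := h hd
  rw [Real.dist_eq] at this
  exact this.le

lemma exists_bound1 {p : T → ℝ} (hp : Continuous p) : ∃ B, 0 ≤ B ∧ ∀ x, |p x| ≤ B := by
  obtain ⟨B, hB⟩ := isCompact_univ.exists_bound_of_continuousOn hp.continuousOn
  exact ⟨B, le_trans (norm_nonneg _) (hB 0 (mem_univ _)), fun x => by
    rw [← Real.norm_eq_abs]; exact hB x (mem_univ x)⟩

lemma exists_bound2 {F : T2 → ℝ} (hF : Continuous F) : ∃ B, 0 ≤ B ∧ ∀ x, |F x| ≤ B := by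
  obtain ⟨B, hB⟩ := isCompact_univ.exists_bound_of_continuousOn hF.continuousOn
  exact ⟨B, le_trans (norm_nonneg _) (hB 0 (mem_univ _)), fun x => by
    rw [← Real.norm_eq_abs]; exact hB x (mem_univ x)⟩

/-- A uniformly bounded, equicontinuous (on the unit interval) family of continuous functions. -/
structure Nice {P : Type*} (u : P → ℝ → ℝ) : Prop where
  cont : ∀ p, Continuous (u p)
  bdd : ∃ B, 0 ≤ B ∧ ∀ p, ∀ t ∈ Icc (0 : ℝ) 1, |u p t| ≤ B
  equi : ∀ ε > 0, ∃ δ > 0, ∀ p, ∀ t ∈ Icc (0 : ℝ) 1, ∀ t' ∈ Icc (0 : ℝ) 1, |t - t'| ≤ δ →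
    |u p t - u p t'| ≤ ε

lemma Nice.mul {P : Type*} {u v : P → ℝ → ℝ} (hu : Nice u) (hv : Nice v) :
    Nice (fun p t => u p t * v p t) := by
  obtain ⟨Bu, hBu0, hBu⟩ := hu.bdd
  obtain ⟨Bv, hBv0, hBv⟩ := hv.bdd
  refine ⟨fun p => (hu.cont p).mul (hv.cont p), ⟨Bu * Bv, by positivity, fun p t ht => ?_⟩, ?_⟩
  · rw [abs_mul]
    gcongr
    · exact hBu p t ht
    · exact hBv p t ht
  · intro ε hε
    obtain ⟨δ1, hδ1, h1⟩ := hu.equi (ε / (2 * (Bv + 1))) (by positivity)
    obtain ⟨δ2, hδ2, h2⟩ := hv.equi (ε / (2 * (Bu + 1))) (by positivity)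
    refine ⟨min δ1 δ2, lt_min hδ1 hδ2, fun p t ht t' ht' htt => ?_⟩
    have a1 := h1 p t ht t' ht' (htt.trans (min_le_left _ _))
    have a2 := h2 p t ht t' ht' (htt.trans (min_le_right _ _))
    have e : u p t * v p t - u p t' * v p t'
        = (u p t - u p t') * v p t + u p t' * (v p t - v p t') := by ring
    rw [e]
    calc _ ≤ |(u p t - u p t') * v p t| + |u p t' * (v p t - v p t')| := abs_add_le _ _
      _ ≤ ε / (2 * (Bv + 1)) * (Bv + 1) + (Bu + 1) * (ε / (2 * (Bu + 1))) := by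
          rw [abs_mul, abs_mul]
          gcongr
          · exact (hBv p t ht).trans (by linarith)
          · exact (hBu p t' ht').trans (by linarith)
      _ = ε := by field_simp; ring

lemma Nice.two_t {P : Type*} : Nice (fun (_ : P) (t : ℝ) => 2 * t) := by
  refine ⟨fun p => by fun_prop, ⟨2, by norm_num, fun p t ht => ?_⟩, fun ε hε => ?_⟩
  · rw [abs_of_nonneg (by linarith [ht.1])]
    linarith [ht.2]
  · refine ⟨ε / 2, by positivity, fun p t _ t' _ h => ?_⟩
    have : 2 * t - 2 * t' = 2 * (t - t') := by ring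
    rw [this, abs_mul, abs_two]
    linarith

lemma Nice.one {P : Type*} : Nice (fun (_ : P) (_ : ℝ) => (1 : ℝ)) := by
  refine ⟨fun p => by fun_prop, ⟨1, by norm_num, fun p t ht => by simp⟩, fun ε hε => ?_⟩
  exact ⟨1, by norm_num, fun p t _ t' _ _ => by simpa using hε.le⟩

lemma Nice.circ {P : Type*} {χ : T → ℝ} (hχ : Continuous χ) (θ : P → T) (v : P → ℝ) {V : ℝ}
    (hV : ∀ p, |v p| ≤ V) : Nice (fun p t => χ (θ p - ((v p * t : ℝ) : T))) := by
  obtain ⟨B, hB0, hB⟩ := exists_bound1 hχ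
  refine ⟨fun p => ?_, ⟨B, hB0, fun p t _ => hB _⟩, fun ε hε => ?_⟩
  · exact hχ.comp (continuous_const.sub (continuous_coe.comp (by fun_prop)))
  · obtain ⟨δ, hδ, h⟩ := unif1 hχ hε
    refine ⟨δ / (|V| + 1), by positivity, fun p t _ t' _ htt => ?_⟩
    apply h
    have : v p * t - v p * t' = v p * (t - t') := by ring
    rw [this, abs_mul]
    calc |v p| * |t - t'| ≤ (|V| + 1) * (δ / (|V| + 1)) := by
          gcongr
          exact (hV p).trans ((le_abs_self _).trans (by linarith))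
      _ = δ := by field_simp

lemma Nice.tor {P : Type*} {F : T2 → ℝ} (hF : Continuous F) (x : P → T2) (v w : P → ℝ) {V : ℝ}
    (hV : ∀ p, |v p| ≤ V) (hW : ∀ p, |w p| ≤ V) :
    Nice (fun p t => F (flow (x p) (v p * t) (w p * t))) := by
  obtain ⟨B, hB0, hB⟩ := exists_bound2 hF
  refine ⟨fun p => ?_, ⟨B, hB0, fun p t _ => hB _⟩, fun ε hε => ?_⟩
  · unfold flow
    exact hF.comp ((continuous_const.sub (continuous_coe.comp (by fun_prop))).prodMk
      (continuous_const.sub (continuous_coe.comp (by fun_prop))))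
  · obtain ⟨δ, hδ, h⟩ := unif2 hF hε
    refine ⟨δ / (|V| + 1), by positivity, fun p t _ t' _ htt => ?_⟩
    have key : ∀ c : ℝ, |c| ≤ V → |c * t - c * t'| ≤ δ := by
      intro c hc
      have : c * t - c * t' = c * (t - t') := by ring
      rw [this, abs_mul]
      calc |c| * |t - t'| ≤ (|V| + 1) * (δ / (|V| + 1)) := by
            gcongr
            exact hc.trans ((le_abs_self _).trans (by linarith))
        _ = δ := by field_simp
    exact h _ _ _ _ _ (key _ (hV p)) (key _ (hW p))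

/-- General averaging step: a fast function whose short time averages tend to constants. -/
lemma step_general {P : Type*} {u : P → ℝ → ℝ} (hu : Nice u) {Q : Type*} (h : ℝ → Q → ℝ → ℝ)
    (hbar : Q → ℝ) {Bh : ℝ} (hh : ∀ n q, Continuous (h n q))
    (hBh : ∀ n q t, |h n q t| ≤ Bh) (hbarB : ∀ q, |hbar q| ≤ Bh)
    (havg : ∀ e > 0, ∃ N0 : ℕ, ∀ N : ℕ, N0 ≤ N → 0 < N → ∀ᶠ n : ℝ in atTop, ∀ q : Q, ∀ k < N,
      |(∫ t in ((k : ℝ) / N)..(((k + 1 : ℕ) : ℝ) / N), h n q t) - hbar q / N| ≤ e / N)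
    {err : ℝ} (herr : 0 < err) :
    ∀ᶠ n : ℝ in atTop, ∀ (p : P) (q : Q),
      |(∫ t in (0 : ℝ)..1, u p t * h n q t) - hbar q * ∫ t in (0 : ℝ)..1, u p t| ≤ err := by
  obtain ⟨B, hB0, hB⟩ := hu.bdd
  by_cases hQ : Nonempty Q
  swap
  · exact Eventually.of_forall fun n p q => (hQ ⟨q⟩).elim
  obtain ⟨q0⟩ := hQ
  have hBh0 : 0 ≤ Bh := le_trans (abs_nonneg _) (hbarB q0)
  obtain ⟨δ, hδ, hmod⟩ := hu.equi (err / (4 * (Bh + 1))) (by positivity)
  obtain ⟨N0, hN0⟩ := havg (err / (2 * (B + 1))) (by positivity)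
  obtain ⟨N1, hN1⟩ := exists_nat_gt (1 / δ)
  set N := max (max N0 N1) 1 with hN
  have hNpos : 0 < N := lt_of_lt_of_le one_pos (le_max_right _ _)
  have hNN0 : N0 ≤ N := (le_max_left _ _).trans (le_max_left _ _)
  have hNN1 : N1 ≤ N := (le_max_right _ _).trans (le_max_left _ _)
  have hNδ : 1 / (N : ℝ) ≤ δ := by
    have h1 : (N1 : ℝ) ≤ N := by exact_mod_cast hNN1
    have hNr : (0 : ℝ) < N := by exact_mod_cast hNpos
    rw [div_le_iff₀ hNr]
    rw [div_lt_iff₀ hδ] at hN1
    calc (1 : ℝ) ≤ N1 * δ := hN1.le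
      _ ≤ N * δ := by gcongr
      _ = δ * N := by ring
  filter_upwards [hN0 N hNN0 hNpos] with n hn p q
  have := fast_avg (hu.cont p) (hh n q) hNpos (fun t ht => hB p t ht) (fun t _ => hBh n q t)
    (hbarB q) (fun t ht t' ht' htt => hmod p t ht t' ht' (htt.trans hNδ)) (hn q)
  refine this.trans ?_
  calc 2 * (err / (4 * (Bh + 1))) * Bh + B * (err / (2 * (B + 1)))
      ≤ 2 * (err / (4 * (Bh + 1))) * (Bh + 1) + (B + 1) * (err / (2 * (B + 1))) := by
        gcongr <;> linarith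
    _ = err := by field_simp; ring

/-- Short time averages of a function with constant vertical means along almost vertical
directions. -/
lemma avg_vert {Q : Type*} (x : Q → T2) (v1 v2 : Q → ℝ) {V c0 : ℝ} (hV : ∀ q, |v1 q| ≤ V)
    (hc0 : 0 < c0) (hv2 : ∀ q, c0 ≤ |v2 q|) {F : T2 → ℝ} (hF : Continuous F) (hbar : Q → ℝ)
    (hm : ∀ q, ∀ t ∈ Icc (0 : ℝ) 1, ∫ y, F ((x q).1 - ((v1 q * t : ℝ) : T), y) = hbar q)
    {e : ℝ} (he : 0 < e) :
    ∃ N0 : ℕ, ∀ N : ℕ, N0 ≤ N → 0 < N → ∀ᶠ n : ℝ in atTop, ∀ q : Q, ∀ k < N,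
      |(∫ t in ((k : ℝ) / N)..(((k + 1 : ℕ) : ℝ) / N), F (flow (x q) (v1 q * t) (n * v2 q * t)))
        - hbar q / N| ≤ e / N := by
  obtain ⟨B, hB0, hB⟩ := exists_bound2 hF
  obtain ⟨δ, hδ, hunif⟩ := unif2 hF (half_pos he)
  obtain ⟨N0, hN0⟩ := exists_nat_gt ((|V| + 1) / δ)
  refine ⟨N0, fun N hN hNpos => ?_⟩
  have hNr : (0 : ℝ) < N := by exact_mod_cast hNpos
  have hVN : (|V| + 1) / N ≤ δ := by
    have h1 : (N0 : ℝ) ≤ N := by exact_mod_cast hN
    rw [div_lt_iff₀ hδ] at hN0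
    rw [div_le_iff₀ hNr]
    calc |V| + 1 ≤ N0 * δ := hN0.le
      _ ≤ N * δ := by gcongr
      _ = δ * N := by ring
  filter_upwards [eventually_ge_atTop (4 * B * N / (c0 * e)), eventually_gt_atTop 0]
    with n hn hn0 q k hk
  have hk1 : ((k : ℝ) + 1) ≤ N := by exact_mod_cast hk
  have hk0 : (0 : ℝ) ≤ k := Nat.cast_nonneg k
  set tk : ℝ := (k : ℝ) / N with htk
  set tk' : ℝ := ((k + 1 : ℕ) : ℝ) / N with htk'
  have hlen : tk' - tk = 1 / N := by
    rw [htk, htk']; push_cast; field_simp; ring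
  have hle : tk ≤ tk' := by
    have : (0 : ℝ) < 1 / N := by positivity
    linarith
  have htk0 : 0 ≤ tk := by positivity
  have htk1 : tk' ≤ 1 := by
    rw [htk']; push_cast; rw [div_le_one hNr]; exact hk1
  have hmem : tk ∈ Icc (0 : ℝ) 1 := ⟨htk0, hle.trans htk1⟩
  have hcont1 : Continuous (fun t : ℝ => F (flow (x q) (v1 q * t) (n * v2 q * t))) := by
    unfold flow
    exact hF.comp ((continuous_const.sub (continuous_coe.comp (by fun_prop))).prodMk
      (continuous_const.sub (continuous_coe.comp (by fun_prop))))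
  have hcont2 : Continuous (fun t : ℝ => F (flow (x q) (v1 q * tk) (n * v2 q * t))) := by
    unfold flow
    exact hF.comp (continuous_const.prodMk
      (continuous_const.sub (continuous_coe.comp (by fun_prop))))
  have hsplit : (∫ t in tk..tk', F (flow (x q) (v1 q * t) (n * v2 q * t)))
      = (∫ t in tk..tk', F (flow (x q) (v1 q * tk) (n * v2 q * t)))
        + ∫ t in tk..tk', (F (flow (x q) (v1 q * t) (n * v2 q * t))
          - F (flow (x q) (v1 q * tk) (n * v2 q * t))) := by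
    rw [intervalIntegral.integral_sub (hcont1.intervalIntegrable _ _)
      (hcont2.intervalIntegrable _ _)]
    ring
  have b2 : |∫ t in tk..tk', (F (flow (x q) (v1 q * t) (n * v2 q * t))
          - F (flow (x q) (v1 q * tk) (n * v2 q * t)))| ≤ (e / 2) * (1 / N) := by
    have := intervalIntegral.norm_integral_le_of_norm_le_const
        (a := tk) (b := tk') (f := fun t : ℝ => F (flow (x q) (v1 q * t) (n * v2 q * t))
          - F (flow (x q) (v1 q * tk) (n * v2 q * t))) (C := e / 2)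
        (fun t ht => by
          rw [uIoc_of_le hle] at ht
          rw [Real.norm_eq_abs]
          apply hunif
          · have e1 : v1 q * t - v1 q * tk = v1 q * (t - tk) := by ring
            rw [e1, abs_mul]
            have e2 : |t - tk| ≤ 1 / N := by
              rw [abs_of_nonneg (by linarith [ht.1])]; linarith [ht.2]
            calc |v1 q| * |t - tk| ≤ (|V| + 1) * (1 / N) := by
                  gcongr
                  exact (hV q).trans ((le_abs_self _).trans (by linarith))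
              _ = (|V| + 1) / N := by ring
              _ ≤ δ := hVN
          · simpa using hδ.le)
    rw [Real.norm_eq_abs, hlen] at this
    rwa [abs_of_pos (by positivity : (0 : ℝ) < 1 / N)] at this
  have b1 : |(∫ t in tk..tk', F (flow (x q) (v1 q * tk) (n * v2 q * t))) - hbar q / N|
      ≤ (e / 2) * (1 / N) := by
    have hp : Continuous (fun y : T => F ((x q).1 - ((v1 q * tk : ℝ) : T), y)) :=
      hF.comp (continuous_const.prodMk continuous_id)
    have hc : n * v2 q ≠ 0 := by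
      have : 0 < |v2 q| := hc0.trans_le (hv2 q)
      exact mul_ne_zero hn0.ne' (abs_pos.mp this)
    have h1 := periodic_avg_speed hp (fun y => hB _) (x q).2 hc tk tk'
    rw [hm q tk hmem, hlen] at h1
    have e3 : 1 / (N : ℝ) * hbar q = hbar q / N := by ring
    rw [e3] at h1
    refine h1.trans ?_
    rw [abs_mul, abs_of_pos hn0]
    rw [div_le_iff₀ (by have := hc0.trans_le (hv2 q); positivity)]
    have h3 : 4 * B * N / (c0 * e) * c0 ≤ n * |v2 q| := by
      gcongr
      exact hv2 q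
    calc 2 * B = e / 2 * (1 / N) * (4 * B * N / (c0 * e) * c0) := by field_simp; ring
      _ ≤ e / 2 * (1 / N) * (n * |v2 q|) := by gcongr
  rw [hsplit]
  calc _ = |((∫ t in tk..tk', F (flow (x q) (v1 q * tk) (n * v2 q * t))) - hbar q / N)
        + ∫ t in tk..tk', (F (flow (x q) (v1 q * t) (n * v2 q * t))
          - F (flow (x q) (v1 q * tk) (n * v2 q * t)))| := by congr 1; ring
    _ ≤ _ := abs_add_le _ _
    _ ≤ (e / 2) * (1 / N) + (e / 2) * (1 / N) := add_le_add b1 b2
    _ = e / N := by ring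

/-- Averaging out a fast factor, uniformly over a nice family. -/
lemma step_vert {P Q : Type*} {u : P → ℝ → ℝ} (hu : Nice u)
    (x : Q → T2) (v1 v2 : Q → ℝ) {V c0 : ℝ} (hV : ∀ q, |v1 q| ≤ V)
    (hc0 : 0 < c0) (hv2 : ∀ q, c0 ≤ |v2 q|) {F : T2 → ℝ} (hF : Continuous F) (hbar : Q → ℝ)
    (hm : ∀ q, ∀ t ∈ Icc (0 : ℝ) 1, ∫ y, F ((x q).1 - ((v1 q * t : ℝ) : T), y) = hbar q)
    {err : ℝ} (herr : 0 < err) :
    ∀ᶠ n : ℝ in atTop, ∀ (p : P) (q : Q),
      |(∫ t in (0 : ℝ)..1, u p t * F (flow (x q) (v1 q * t) (n * v2 q * t)))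
        - hbar q * ∫ t in (0 : ℝ)..1, u p t| ≤ err := by
  obtain ⟨B, hB0, hB⟩ := exists_bound2 hF
  have hbarB : ∀ q, |hbar q| ≤ B := by
    intro q
    rw [← hm q 0 (by simp)]
    have h1 : ‖∫ y, F ((x q).1 - ((v1 q * 0 : ℝ) : T), y)‖ ≤ B * (volume : Measure T).real univ :=
      norm_integral_le_of_norm_le_const (Filter.Eventually.of_forall fun y => by
        rw [Real.norm_eq_abs]; exact hB _)
    simpa [Measure.real] using h1
  refine step_general hu (fun n q t => F (flow (x q) (v1 q * t) (n * v2 q * t))) hbar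
    (Bh := B) ?_ (fun n q t => hB _) hbarB (fun e he => avg_vert x v1 v2 hV hc0 hv2 hF hbar hm he)
    herr
  intro n q
  unfold flow
  exact hF.comp ((continuous_const.sub (continuous_coe.comp (by fun_prop))).prodMk
      (continuous_const.sub (continuous_coe.comp (by fun_prop))))

end Pool.Agent.Helper79.Sector
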