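import Mathlib
import Pool.Agent.Helper79.SectorNice

set_option autoImplicit false

open MeasureTheory Set Filter

namespace Pool.Agent.Helper79.Sector

/-- Weighted average of `F` over the segment of length `s` starting at `x` in direction
`-(1, σ)`. -/
noncomputable def A (σ s : ℝ) (F : T2 → ℝ) (x : T2) : ℝ :=
  ∫ t in (0 : ℝ)..1, 2 * t * F (flow x (s * t) (s * σ * t))

lemma continuous_flow (x : T2) {f g : ℝ → ℝ} (hf : Continuous f) (hg : Continuous g) :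
    Continuous (fun t => flow x (f t) (g t)) := by
  unfold flow
  exact (continuous_const.sub (continuous_coe.comp hf)).prodMk
      (continuous_const.sub (continuous_coe.comp hg))

/-- Parameters for the uniform estimates. -/
structure Par (ρ κ0 : ℝ) where
  x : T2
  α : T
  α' : T
  b' : T
  s : ℝ
  σ : ℝ
  κ : ℝ
  ω : ℝ
  hs : ρ ≤ s
  hs' : s ≤ ρ⁻¹
  hσ : |σ| ≤ 2
  hκ : |κ| ≤ κ0
  hω : 1 / 2 ≤ |ω|
  hω' : |ω| ≤ 2

lemma integral_two_t : ∫ t in (0 : ℝ)..1, 2 * t = 1 := by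
  rw [intervalIntegral.integral_const_mul]; simp

lemma calcG {χ1 χ2 : T → ℝ} {F1 F2 : T2 → ℝ} (hχ1 : Continuous χ1) (hχ2 : Continuous χ2)
    (hF1 : Continuous F1) (hF2 : Continuous F2) {m : ℝ} (hm : ∀ a, ∫ y, F2 (a, y) = m)
    {ρ : ℝ} (hρ : 0 < ρ) {err : ℝ} (herr : 0 < err) :
    ∃ κ0 > 0, ∀ᶠ L : ℝ in atTop, ∀ᶠ n : ℝ in atTop, ∀ p : Par ρ κ0,
      |(∫ t in (0 : ℝ)..1, 2 * t * χ1 (p.α - ((p.s * p.κ * t : ℝ) : T))
          * χ2 (p.α' - ((L * (p.s * p.ω) * t : ℝ) : T))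
          * F1 (flow p.x (p.s * t) (p.s * p.σ * t))
          * F2 (flow (p.x.1, p.b') (p.s * t) (n * (p.s * p.ω) * t)))
        - m * (∫ y, χ2 y) * χ1 p.α * A p.σ p.s F1 p.x| ≤ err := by
  obtain ⟨B1, hB10, hB1⟩ := exists_bound2 hF1
  set q2 : ℝ := ∫ y, χ2 y with hq2
  obtain ⟨δ, hδ, hunif⟩ := unif1 hχ1 (show 0 < err / (3 * (|m * q2| + 1) * (2 * B1 + 1)) by
    positivity)
  refine ⟨δ * ρ, by positivity, ?_⟩
  set κ0 := δ * ρ with hκ0
  have hs0 : ∀ p : Par ρ κ0, 0 < p.s := fun p => hρ.trans_le p.hs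
  have hsabs : ∀ p : Par ρ κ0, |p.s| ≤ ρ⁻¹ := fun p => by
    rw [abs_of_pos (hs0 p)]; exact p.hs'
  have hρi : 0 < ρ⁻¹ := by positivity
  -- the families
  have n2t : Nice (fun (_ : Par ρ κ0) (t : ℝ) => 2 * t) := Nice.two_t
  have nχ1 : Nice (fun (p : Par ρ κ0) (t : ℝ) => χ1 (p.α - ((p.s * p.κ * t : ℝ) : T))) := by
    refine Nice.circ hχ1 (fun p : Par ρ κ0 => p.α) (fun p => p.s * p.κ) (V := ρ⁻¹ * κ0)
      (fun p => ?_)
    rw [abs_mul]
    exact mul_le_mul (hsabs p) p.hκ (abs_nonneg _) hρi.le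
  have nF1 : Nice (fun (p : Par ρ κ0) (t : ℝ) => F1 (flow p.x (p.s * t) (p.s * p.σ * t))) := by
    refine Nice.tor hF1 (fun p : Par ρ κ0 => p.x) (fun p => p.s) (fun p => p.s * p.σ)
      (V := ρ⁻¹ * 2)
      (fun p => ?_) (fun p => ?_)
    · exact (hsabs p).trans (by linarith)
    · rw [abs_mul]
      exact mul_le_mul (hsabs p) p.hσ (abs_nonneg _) hρi.le
  have nχ2 : ∀ L : ℝ, Nice (fun (p : Par ρ κ0) (t : ℝ) =>
      χ2 (p.α' - ((L * (p.s * p.ω) * t : ℝ) : T))) := by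
    intro L
    refine Nice.circ hχ2 (fun p : Par ρ κ0 => p.α') (fun p => L * (p.s * p.ω))
      (V := |L| * (ρ⁻¹ * 2))
      (fun p => ?_)
    rw [abs_mul, abs_mul]
    gcongr
    · exact hsabs p
    · exact p.hω'
  have hc0 : ∀ p : Par ρ κ0, ρ / 2 ≤ |p.s * p.ω| := by
    intro p
    rw [abs_mul, abs_of_pos (hs0 p)]
    calc ρ / 2 = ρ * (1 / 2) := by ring
      _ ≤ p.s * |p.ω| := mul_le_mul p.hs p.hω (by norm_num) (hs0 p).le
  -- step 2
  have step2 := step_vert (n2t.mul (nχ1.mul nF1)) (fun p : Par ρ κ0 => ((0 : T), p.α'))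
    (fun _ => 0) (fun p => p.s * p.ω) (V := 0) (c0 := ρ / 2) (fun _ => by simp) (by positivity)
    hc0 (F := fun x => χ2 x.2) (hχ2.comp continuous_snd) (fun _ => q2) (fun p t _ => rfl)
    (err := err / (3 * (|m| + 1))) (by positivity)
  filter_upwards [step2] with L hL
  have step1 := step_vert (n2t.mul (nχ1.mul ((nχ2 L).mul nF1)))
    (fun p : Par ρ κ0 => (p.x.1, p.b'))
    (fun p => p.s) (fun p => p.s * p.ω) (V := ρ⁻¹) (c0 := ρ / 2) hsabs (by positivity)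
    hc0 (F := F2) hF2 (fun _ => m) (fun p t _ => hm _)
    (err := err / 3) (by positivity)
  filter_upwards [step1] with n hn p
  have h1 := hn p p
  have h2 := hL p p
  -- names
  set J0 := ∫ t in (0 : ℝ)..1, 2 * t * χ1 (p.α - ((p.s * p.κ * t : ℝ) : T))
          * χ2 (p.α' - ((L * (p.s * p.ω) * t : ℝ) : T))
          * F1 (flow p.x (p.s * t) (p.s * p.σ * t))
          * F2 (flow (p.x.1, p.b') (p.s * t) (n * (p.s * p.ω) * t)) with hJ0
  set J1 := ∫ t in (0 : ℝ)..1, 2 * t * (χ1 (p.α - ((p.s * p.κ * t : ℝ) : T))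
          * (χ2 (p.α' - ((L * (p.s * p.ω) * t : ℝ) : T))
          * F1 (flow p.x (p.s * t) (p.s * p.σ * t)))) with hJ1
  set J2 := ∫ t in (0 : ℝ)..1, 2 * t * (χ1 (p.α - ((p.s * p.κ * t : ℝ) : T))
          * F1 (flow p.x (p.s * t) (p.s * p.σ * t))) with hJ2
  have e1 : |J0 - m * J1| ≤ err / 3 := by
    convert h1 using 5
    ring
  have e2 : |J1 - q2 * J2| ≤ err / (3 * (|m| + 1)) := by
    convert h2 using 5
    · simp only [flow]
      ring
  have e3 : |J2 - χ1 p.α * A p.σ p.s F1 p.x| ≤ err / (3 * (|m * q2| + 1)) := by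
    have hc1 : Continuous (fun t : ℝ => 2 * t * (χ1 (p.α - ((p.s * p.κ * t : ℝ) : T))
          * F1 (flow p.x (p.s * t) (p.s * p.σ * t)))) :=
      (n2t.mul (nχ1.mul nF1)).cont p
    have hc2 : Continuous (fun t : ℝ => χ1 p.α * (2 * t
          * F1 (flow p.x (p.s * t) (p.s * p.σ * t)))) :=
      continuous_const.mul ((n2t.mul nF1).cont p)
    have : J2 - χ1 p.α * A p.σ p.s F1 p.x
        = ∫ t in (0 : ℝ)..1, (2 * t * (χ1 (p.α - ((p.s * p.κ * t : ℝ) : T))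
          * F1 (flow p.x (p.s * t) (p.s * p.σ * t)))
          - χ1 p.α * (2 * t * F1 (flow p.x (p.s * t) (p.s * p.σ * t)))) := by
      rw [hJ2, A, ← intervalIntegral.integral_const_mul,
        intervalIntegral.integral_sub (hc1.intervalIntegrable _ _) (hc2.intervalIntegrable _ _)]
    rw [this]
    have hb := intervalIntegral.norm_integral_le_of_norm_le_const
        (a := 0) (b := 1) (f := fun t : ℝ => (2 * t * (χ1 (p.α - ((p.s * p.κ * t : ℝ) : T))
          * F1 (flow p.x (p.s * t) (p.s * p.σ * t)))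
          - χ1 p.α * (2 * t * F1 (flow p.x (p.s * t) (p.s * p.σ * t)))))
        (C := err / (3 * (|m * q2| + 1) * (2 * B1 + 1)) * (2 * B1))
        (fun t ht => by
          rw [uIoc_of_le zero_le_one] at ht
          have e4 : (2 * t * (χ1 (p.α - ((p.s * p.κ * t : ℝ) : T))
            * F1 (flow p.x (p.s * t) (p.s * p.σ * t)))
            - χ1 p.α * (2 * t * F1 (flow p.x (p.s * t) (p.s * p.σ * t))))
            = (χ1 (p.α - ((p.s * p.κ * t : ℝ) : T)) - χ1 (p.α - ((0 : ℝ) : T)))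
              * (2 * t * F1 (flow p.x (p.s * t) (p.s * p.σ * t))) := by
            rw [AddCircle.coe_zero, sub_zero]; ring
          rw [e4, Real.norm_eq_abs, abs_mul]
          have e5 : |χ1 (p.α - ((p.s * p.κ * t : ℝ) : T)) - χ1 (p.α - ((0 : ℝ) : T))|
              ≤ err / (3 * (|m * q2| + 1) * (2 * B1 + 1)) := by
            apply hunif
            rw [sub_zero, abs_mul, abs_mul, abs_of_pos ht.1]
            calc |p.s| * |p.κ| * t ≤ ρ⁻¹ * κ0 * 1 := by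
                  gcongr
                  · exact ht.1.le
                  · exact hsabs p
                  · exact p.hκ
                  · exact ht.2
              _ = δ := by rw [hκ0]; field_simp
          have e6 : |2 * t * F1 (flow p.x (p.s * t) (p.s * p.σ * t))| ≤ 2 * B1 := by
            rw [abs_mul, abs_of_pos (by linarith [ht.1] : (0 : ℝ) < 2 * t)]
            exact mul_le_mul (by linarith [ht.2]) (hB1 _) (abs_nonneg _) (by norm_num)
          exact mul_le_mul e5 e6 (abs_nonneg _) (by positivity))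
    rw [Real.norm_eq_abs, sub_zero, abs_one, mul_one] at hb
    refine hb.trans ?_
    calc err / (3 * (|m * q2| + 1) * (2 * B1 + 1)) * (2 * B1)
        ≤ err / (3 * (|m * q2| + 1) * (2 * B1 + 1)) * (2 * B1 + 1) := by gcongr; linarith
      _ = err / (3 * (|m * q2| + 1)) := by field_simp
  have e7 : J0 - m * q2 * χ1 p.α * A p.σ p.s F1 p.x
      = (J0 - m * J1) + m * (J1 - q2 * J2) + m * q2 * (J2 - χ1 p.α * A p.σ p.s F1 p.x) := by ring
  rw [e7]
  have e8 : |m * (J1 - q2 * J2)| ≤ err / 3 := by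
    rw [abs_mul]
    calc |m| * |J1 - q2 * J2| ≤ (|m| + 1) * (err / (3 * (|m| + 1))) := by
          gcongr
          linarith
      _ = err / 3 := by field_simp
  have e9 : |m * q2 * (J2 - χ1 p.α * A p.σ p.s F1 p.x)| ≤ err / 3 := by
    rw [abs_mul]
    calc |m * q2| * |J2 - χ1 p.α * A p.σ p.s F1 p.x|
        ≤ (|m * q2| + 1) * (err / (3 * (|m * q2| + 1))) := by
          gcongr
          linarith
      _ = err / 3 := by field_simp
  calc _ ≤ |(J0 - m * J1) + m * (J1 - q2 * J2)|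
        + |m * q2 * (J2 - χ1 p.α * A p.σ p.s F1 p.x)| := abs_add_le _ _
    _ ≤ (|J0 - m * J1| + |m * (J1 - q2 * J2)|)
        + |m * q2 * (J2 - χ1 p.α * A p.σ p.s F1 p.x)| := by gcongr; exact abs_add_le _ _
    _ ≤ (err / 3 + err / 3) + err / 3 := by gcongr
    _ = err := by ring

lemma abs_combine3 {J0 J1 J2 J3 m1 m2 m3 e1 e2 e3 : ℝ} (h1 : |J0 - m1 * J1| ≤ e1)
    (h2 : |m1| * |J1 - m2 * J2| ≤ e2) (h3 : |m1 * m2| * |J2 - m3 * J3| ≤ e3) :
    |J0 - m1 * m2 * m3 * J3| ≤ e1 + e2 + e3 := by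
  have e7 : J0 - m1 * m2 * m3 * J3
      = (J0 - m1 * J1) + m1 * (J1 - m2 * J2) + m1 * m2 * (J2 - m3 * J3) := by ring
  rw [e7]
  calc _ ≤ |(J0 - m1 * J1) + m1 * (J1 - m2 * J2)| + |m1 * m2 * (J2 - m3 * J3)| := abs_add_le _ _
    _ ≤ (|J0 - m1 * J1| + |m1 * (J1 - m2 * J2)|) + |m1 * m2 * (J2 - m3 * J3)| := by
        gcongr; exact abs_add_le _ _
    _ ≤ e1 + e2 + e3 := by
        rw [abs_mul, abs_mul]
        gcongr

lemma mul_div_bound {m x e : ℝ} (he : 0 < e) (hx : x ≤ e / (3 * (|m| + 1))) :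
    |m| * x ≤ e / 3 := by
  calc |m| * x ≤ |m| * (e / (3 * (|m| + 1))) := by gcongr
    _ ≤ (|m| + 1) * (e / (3 * (|m| + 1))) := by gcongr; linarith
    _ = e / 3 := by field_simp

lemma calcV {χ1 χ2 : T → ℝ} {F1 F2 : T2 → ℝ} (hχ1 : Continuous χ1) (hχ2 : Continuous χ2)
    (hF1 : Continuous F1) (hF2 : Continuous F2) {m1 m2 : ℝ} (hm1 : ∀ a, ∫ y, F1 (a, y) = m1)
    (hm2 : ∀ a, ∫ y, F2 (a, y) = m2) (L1 : ℝ) {err : ℝ} (herr : 0 < err) :
    ∀ᶠ L2 : ℝ in atTop, ∀ᶠ n1 : ℝ in atTop, ∀ᶠ n2 : ℝ in atTop, ∀ (a α' b1 b2 : T),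
      |(∫ t in (0 : ℝ)..1, χ1 (0 - ((-L1 * t : ℝ) : T)) * χ2 (α' - ((L2 * (-1) * t : ℝ) : T))
          * F1 (flow (a, b1) (0 * t) (n1 * (-1) * t))
          * F2 (flow (a, b2) (0 * t) (n2 * (-1) * t)))
        - m2 * m1 * (∫ y, χ2 y) * ∫ t in (0 : ℝ)..1, χ1 (0 - ((-L1 * t : ℝ) : T))| ≤ err := by
  set q2 : ℝ := ∫ y, χ2 y with hq2
  have nχ1 : ∀ (P : Type), Nice (fun (_ : P) (t : ℝ) => χ1 (0 - ((-L1 * t : ℝ) : T))) := by
    intro P
    exact Nice.circ hχ1 (fun _ : P => 0) (fun _ => -L1) (V := |L1|) (fun p => by simp)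
  have stepA := step_vert (nχ1 Unit) (fun α' : T => ((0 : T), α')) (fun _ => 0) (fun _ => -1)
    (V := 0) (c0 := 1) (fun _ => by simp) one_pos (fun _ => by simp) (F := fun x => χ2 x.2)
    (hχ2.comp continuous_snd) (fun _ => q2) (fun p t _ => rfl)
    (err := err / (3 * (|m2 * m1| + 1))) (by positivity)
  filter_upwards [stepA] with L2 hL2
  have nχ2 : Nice (fun (α' : T) (t : ℝ) => χ2 (α' - ((L2 * (-1) * t : ℝ) : T))) :=
    Nice.circ hχ2 (fun α' : T => α') (fun _ => L2 * (-1)) (V := |L2 * (-1)|) (fun p => le_rfl)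
  have stepB := step_vert ((nχ1 T).mul nχ2) (fun x : T2 => x) (fun _ => 0) (fun _ => -1)
    (V := 0) (c0 := 1) (fun _ => by simp) one_pos (fun _ => by simp) (F := F1) hF1
    (fun _ => m1) (fun p t _ => hm1 _) (err := err / (3 * (|m2| + 1))) (by positivity)
  filter_upwards [stepB] with n1 hn1
  have nχ2' : Nice (fun (p : T × T2) (t : ℝ) => χ2 (p.1 - ((L2 * (-1) * t : ℝ) : T))) :=
    Nice.circ hχ2 (fun p : T × T2 => p.1) (fun _ => L2 * (-1)) (V := |L2 * (-1)|)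
      (fun p => le_rfl)
  have nF1 : Nice (fun (p : T × T2) (t : ℝ) => F1 (flow p.2 (0 * t) (n1 * (-1) * t))) :=
    Nice.tor hF1 (fun p : T × T2 => p.2) (fun _ => 0) (fun _ => n1 * (-1)) (V := |n1 * (-1)|)
      (fun p => by rw [abs_zero]; exact abs_nonneg _) (fun p => le_rfl)
  have stepC := step_vert ((nχ1 (T × T2)).mul (nχ2'.mul nF1)) (fun x : T2 => x) (fun _ => 0)
    (fun _ => -1) (V := 0) (c0 := 1) (fun _ => by simp) one_pos (fun _ => by simp) (F := F2) hF2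
    (fun _ => m2) (fun p t _ => hm2 _) (err := err / 3) (by positivity)
  filter_upwards [stepC] with n2 hn2 a α' b1 b2
  have h1 := hn2 (α', (a, b1)) (a, b2)
  have h2 := hn1 α' (a, b1)
  have h3 := hL2 () α'
  refine (abs_combine3 (e1 := err / 3) (e2 := err / 3) (e3 := err / 3)
    (J1 := ∫ t in (0 : ℝ)..1, χ1 (0 - ((-L1 * t : ℝ) : T)) *
      (χ2 (α' - ((L2 * (-1) * t : ℝ) : T)) * F1 (flow (a, b1) (0 * t) (n1 * (-1) * t))))
    (J2 := ∫ t in (0 : ℝ)..1, χ1 (0 - ((-L1 * t : ℝ) : T)) *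
      χ2 (α' - ((L2 * (-1) * t : ℝ) : T))) ?_ ?_ ?_).trans (by linarith)
  · convert h1 using 5
    ring
  · apply mul_div_bound herr
    convert h2 using 5
    ring
  · apply mul_div_bound herr
    convert h3 using 5
    rfl

end Pool.Agent.Helper79.Sector
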