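import Mathlib
import Pool.Agent.Helper79.SectorCalc

set_option autoImplicit false

open MeasureTheory Set Filter

namespace Pool.Agent.Helper79.Sector

instance instProbT : IsProbabilityMeasure (volume : Measure T) := ⟨UnitAddCircle.measure_univ⟩

instance instProbT2 : IsProbabilityMeasure (volume : Measure T2) := by
  rw [Measure.volume_eq_prod]; infer_instance

/-- pair as a point of the two dimensional unit torus -/
def pr (x : T2) : UnitAddTorus (Fin 2) := ![x.1, x.2]

lemma continuous_pr : Continuous pr := by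
  unfold pr
  refine continuous_pi fun i => ?_
  fin_cases i
  · exact continuous_fst
  · exact continuous_snd

lemma fourier_sub_coe (n : ℤ) (a : T) (b : ℝ) :
    fourier n (a - (b : T)) = fourier n a * Complex.exp (-(2 * Real.pi * Complex.I * n * b)) := by
  obtain ⟨a', rfl⟩ := QuotientAddGroup.mk_surjective a
  have h : ((a' : T) - (b : T)) = ((a' - b : ℝ) : T) := by rw [AddCircle.coe_sub]
  change fourier n ((a' : T) - (b : T)) = fourier n (a' : T) * _
  rw [h, fourier_coe_apply, fourier_coe_apply, ← Complex.exp_add]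
  congr 1
  push_cast
  ring

lemma integral_fourier_eq_zero {n : ℤ} (hn : n ≠ 0) : ∫ y : T, fourier n y = 0 :=
  integral_eq_zero_of_add_right_eq_neg (μ := (volume : Measure T))
    (fourier_add_half_inv_index hn one_pos)

lemma mFourier_pr (n : Fin 2 → ℤ) (x : T2) :
    UnitAddTorus.mFourier n (pr x) = fourier (n 0) x.1 * fourier (n 1) x.2 := by
  simp [UnitAddTorus.mFourier, pr, Fin.prod_univ_two]

lemma integral_mFourier_pr {n : Fin 2 → ℤ} (hn : n ≠ 0) :
    ∫ x : T2, UnitAddTorus.mFourier n (pr x) = 0 := by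
  simp_rw [mFourier_pr]
  have : ∫ x : T2, fourier (n 0) x.1 * fourier (n 1) x.2
      = (∫ a : T, fourier (n 0) a) * ∫ b : T, fourier (n 1) b :=
    integral_prod_mul (μ := (volume : Measure T)) (ν := (volume : Measure T))
      (fun a : T => fourier (n 0) a) (fun b : T => fourier (n 1) b)
  rw [this]
  by_cases h0 : n 0 = 0
  · have h1 : n 1 ≠ 0 := by
      intro h1
      apply hn
      ext i
      fin_cases i
      · exact h0
      · exact h1
    rw [integral_fourier_eq_zero h1, mul_zero]
  · rw [integral_fourier_eq_zero h0, zero_mul]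

/-- Uniform convergence of the averages along the line of slope `σ`. -/
def WP (σ : ℝ) (G : C(UnitAddTorus (Fin 2), ℂ)) : Prop :=
  ∀ e > 0, ∃ R0 > 0, ∀ R ≥ R0, ∀ x : T2,
    ‖(∫ t in (0 : ℝ)..1, G (pr (flow x (R * t) (R * σ * t)))) - ∫ y : T2, G (pr y)‖ ≤ e

lemma cont_line (σ R : ℝ) (x : T2) (G : C(UnitAddTorus (Fin 2), ℂ)) :
    Continuous (fun t : ℝ => G (pr (flow x (R * t) (R * σ * t)))) :=
  G.continuous.comp (continuous_pr.comp (continuous_flow x (by fun_prop) (by fun_prop)))

lemma integrable_pr (G : C(UnitAddTorus (Fin 2), ℂ)) :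
    Integrable (fun y : T2 => G (pr y)) :=
  (G.continuous.comp continuous_pr).integrable_of_hasCompactSupport
    (HasCompactSupport.of_compactSpace _)

lemma WP_add {σ : ℝ} {G H : C(UnitAddTorus (Fin 2), ℂ)} (hG : WP σ G) (hH : WP σ H) :
    WP σ (G + H) := by
  intro e he
  obtain ⟨R1, hR1, h1⟩ := hG (e / 2) (by positivity)
  obtain ⟨R2, hR2, h2⟩ := hH (e / 2) (by positivity)
  refine ⟨max R1 R2, lt_max_of_lt_left hR1, fun R hR x => ?_⟩
  have a1 := h1 R ((le_max_left _ _).trans hR) x
  have a2 := h2 R ((le_max_right _ _).trans hR) x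
  simp only [ContinuousMap.add_apply]
  rw [intervalIntegral.integral_add ((cont_line σ R x G).intervalIntegrable _ _)
    ((cont_line σ R x H).intervalIntegrable _ _), integral_add (integrable_pr G) (integrable_pr H)]
  rw [add_sub_add_comm]
  calc _ ≤ _ := norm_add_le _ _
    _ ≤ e / 2 + e / 2 := add_le_add a1 a2
    _ = e := by ring

lemma WP_smul {σ : ℝ} {G : C(UnitAddTorus (Fin 2), ℂ)} (c : ℂ) (hG : WP σ G) :
    WP σ (c • G) := by
  intro e he
  obtain ⟨R1, hR1, h1⟩ := hG (e / (‖c‖ + 1)) (by positivity)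
  refine ⟨R1, hR1, fun R hR x => ?_⟩
  have a1 := h1 R hR x
  simp only [ContinuousMap.smul_apply, smul_eq_mul]
  rw [intervalIntegral.integral_const_mul, integral_const_mul, ← mul_sub, norm_mul]
  calc ‖c‖ * _ ≤ (‖c‖ + 1) * (e / (‖c‖ + 1)) := by
        gcongr
        linarith
    _ = e := by field_simp

lemma WP_mFourier {σ : ℝ} (hσ : Irrational σ) (n : Fin 2 → ℤ) :
    WP σ (UnitAddTorus.mFourier n) := by
  intro e he
  by_cases hn : n = 0
  · refine ⟨1, one_pos, fun R _ x => ?_⟩
    subst hn
    simp [UnitAddTorus.mFourier_zero, Measure.real, he.le]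
  · set β : ℝ := n 0 + n 1 * σ with hβ
    have hβ0 : β ≠ 0 := by
      intro h
      by_cases h1 : n 1 = 0
      · rw [hβ, h1] at h
        simp only [Int.cast_zero, zero_mul, add_zero, Int.cast_eq_zero] at h
        apply hn
        ext i
        fin_cases i
        · exact h
        · exact h1
      · apply hσ
        refine ⟨-(n 0 : ℚ) / (n 1 : ℚ), ?_⟩
        have h1' : (n 1 : ℝ) ≠ 0 := by exact_mod_cast h1
        push_cast
        rw [div_eq_iff h1']
        rw [hβ] at h
        linarith
    have hβpos : 0 < |β| := abs_pos.mpr hβ0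
    refine ⟨1 / (|β| * e), by positivity, fun R hR x => ?_⟩
    have hRpos : 0 < R := lt_of_lt_of_le (by positivity) hR
    rw [integral_mFourier_pr hn, sub_zero]
    set c : ℂ := -(2 * Real.pi * Complex.I * (R * β : ℝ)) with hc
    have hcnorm : ‖c‖ = 2 * Real.pi * (R * |β|) := by
      rw [hc, norm_neg, norm_mul, norm_mul, norm_mul, Complex.norm_I, Complex.norm_real,
        Complex.norm_real, Real.norm_eq_abs, Real.norm_eq_abs, abs_mul, abs_of_pos hRpos,
        abs_of_pos Real.pi_pos]
      simp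
    have hc0 : c ≠ 0 := by
      rw [← norm_pos_iff, hcnorm]
      have := Real.pi_pos
      positivity
    have hint : ∀ t : ℝ, (UnitAddTorus.mFourier n) (pr (flow x (R * t) (R * σ * t)))
        = (fourier (n 0) x.1 * fourier (n 1) x.2) * Complex.exp (c * t) := by
      intro t
      rw [mFourier_pr]
      simp only [flow]
      rw [fourier_sub_coe, fourier_sub_coe]
      have : Complex.exp (c * t) = Complex.exp (-(2 * Real.pi * Complex.I * (n 0) * (R * t : ℝ)))
          * Complex.exp (-(2 * Real.pi * Complex.I * (n 1) * (R * σ * t : ℝ))) := by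
        rw [← Complex.exp_add]
        congr 1
        rw [hc, hβ]
        push_cast
        ring
      rw [this]
      ring
    simp_rw [hint]
    rw [intervalIntegral.integral_const_mul, integral_exp_mul_complex hc0, norm_mul, norm_mul]
    have f1 : ‖(fourier (n 0) x.1 : ℂ)‖ = 1 := by
      rw [fourier_apply]; exact Circle.norm_coe _
    have f2 : ‖(fourier (n 1) x.2 : ℂ)‖ = 1 := by
      rw [fourier_apply]; exact Circle.norm_coe _
    rw [f1, f2, one_mul, one_mul, norm_div, hcnorm]
    have hexp : ∀ t : ℝ, ‖Complex.exp (c * t)‖ = 1 := by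
      intro t
      rw [Complex.norm_exp]
      have : (c * t).re = 0 := by
        rw [hc]
        simp
      rw [this, Real.exp_zero]
    have hnum : ‖Complex.exp (c * (1 : ℝ)) - Complex.exp (c * (0 : ℝ))‖ ≤ 2 := by
      calc _ ≤ ‖Complex.exp (c * (1 : ℝ))‖ + ‖Complex.exp (c * (0 : ℝ))‖ := norm_sub_le _ _
        _ = 2 := by rw [hexp, hexp]; norm_num
    have hpi : 1 ≤ Real.pi := by linarith [Real.pi_gt_three]
    have hR' : 1 ≤ R * (|β| * e) := by
      rw [ge_iff_le, div_le_iff₀ (by positivity)] at hR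
      exact hR
    rw [div_le_iff₀ (by positivity)]
    calc _ ≤ (2 : ℝ) := hnum
      _ ≤ 2 * (Real.pi * (R * (|β| * e))) := by nlinarith
      _ = e * (2 * Real.pi * (R * |β|)) := by ring

lemma WP_closure {σ : ℝ} {G : C(UnitAddTorus (Fin 2), ℂ)}
    (h : ∀ e > 0, ∃ H, WP σ H ∧ ‖G - H‖ ≤ e) : WP σ G := by
  intro e he
  obtain ⟨H, hH, hGH⟩ := h (e / 3) (by positivity)
  obtain ⟨R1, hR1, h1⟩ := hH (e / 3) (by positivity)
  refine ⟨R1, hR1, fun R hR x => ?_⟩
  have a1 := h1 R hR x
  have hpt : ∀ y, ‖G y - H y‖ ≤ e / 3 := fun y => by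
    have := (G - H).norm_coe_le_norm y
    simpa using this.trans hGH
  have b1 : ‖(∫ t in (0 : ℝ)..1, G (pr (flow x (R * t) (R * σ * t))))
      - ∫ t in (0 : ℝ)..1, H (pr (flow x (R * t) (R * σ * t)))‖ ≤ e / 3 := by
    rw [← intervalIntegral.integral_sub ((cont_line σ R x G).intervalIntegrable _ _)
      ((cont_line σ R x H).intervalIntegrable _ _)]
    have := intervalIntegral.norm_integral_le_of_norm_le_const (a := 0) (b := 1)
      (f := fun t : ℝ => G (pr (flow x (R * t) (R * σ * t)))
        - H (pr (flow x (R * t) (R * σ * t)))) (C := e / 3) (fun t _ => hpt _)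
    simpa using this
  have b2 : ‖(∫ y : T2, H (pr y)) - ∫ y : T2, G (pr y)‖ ≤ e / 3 := by
    rw [← integral_sub (integrable_pr H) (integrable_pr G)]
    have := norm_integral_le_of_norm_le_const (μ := (volume : Measure T2))
      (f := fun y : T2 => H (pr y) - G (pr y)) (C := e / 3)
      (Filter.Eventually.of_forall fun y => by rw [norm_sub_rev]; exact hpt _)
    simpa [Measure.real] using this
  calc _ = ‖((∫ t in (0 : ℝ)..1, G (pr (flow x (R * t) (R * σ * t))))
      - ∫ t in (0 : ℝ)..1, H (pr (flow x (R * t) (R * σ * t))))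
      + ((∫ t in (0 : ℝ)..1, H (pr (flow x (R * t) (R * σ * t)))) - ∫ y : T2, H (pr y))
      + ((∫ y : T2, H (pr y)) - ∫ y : T2, G (pr y))‖ := by congr 1; ring
    _ ≤ e / 3 + e / 3 + e / 3 := (norm_add₃_le).trans (by gcongr)
    _ = e := by ring

lemma WP_all {σ : ℝ} (hσ : Irrational σ) (G : C(UnitAddTorus (Fin 2), ℂ)) : WP σ G := by
  have hG : G ∈ (Submodule.span ℂ (range <| UnitAddTorus.mFourier (d := Fin 2))).topologicalClosure
      := by
    rw [UnitAddTorus.span_mFourier_closure_eq_top]; trivial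
  apply WP_closure
  intro e he
  have hG' : G ∈ closure (Submodule.span ℂ (range <| UnitAddTorus.mFourier (d := Fin 2)) :
    Set C(UnitAddTorus (Fin 2), ℂ)) := hG
  rw [Metric.mem_closure_iff] at hG'
  obtain ⟨H, hH, hd⟩ := hG' e he
  refine ⟨H, ?_, ?_⟩
  · refine Submodule.span_induction (p := fun H _ => WP σ H) ?_ ?_ ?_ ?_ hH
    · rintro _ ⟨n, rfl⟩
      exact WP_mFourier hσ n
    · intro e he
      exact ⟨1, one_pos, fun R _ x => by simp [he.le]⟩
    · intro G H _ _ hG hH
      exact WP_add hG hH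
    · intro c G _ hG
      exact WP_smul c hG
  · rw [← dist_eq_norm]; exact hd.le

/-- Weyl equidistribution, uniformly in the starting point. -/
lemma weyl {σ : ℝ} (hσ : Irrational σ) {F : T2 → ℝ} (hF : Continuous F) {e : ℝ} (he : 0 < e) :
    ∃ R0 > 0, ∀ R ≥ R0, ∀ x : T2,
      |(∫ t in (0 : ℝ)..1, F (flow x (R * t) (R * σ * t))) - ∫ y : T2, F y| ≤ e := by
  let G : C(UnitAddTorus (Fin 2), ℂ) :=
    ⟨fun z => (F (z 0, z 1) : ℂ), Complex.continuous_ofReal.comp
      (hF.comp ((continuous_apply 0).prodMk (continuous_apply 1)))⟩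
  obtain ⟨R0, hR0, h⟩ := WP_all hσ G e he
  refine ⟨R0, hR0, fun R hR x => ?_⟩
  have h1 := h R hR x
  have hG : ∀ y : T2, G (pr y) = (F y : ℂ) := fun y => by simp [G, pr]
  simp_rw [hG] at h1
  rw [intervalIntegral.integral_ofReal, integral_complex_ofReal, ← Complex.ofReal_sub,
    Complex.norm_real] at h1
  exact h1

end Pool.Agent.Helper79.Sector
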