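import Mathlib
import Pool.Agent.Helper79.SectorWeyl

set_option autoImplicit false

open MeasureTheory Set Filter

namespace Pool.Agent.Helper79.Sector

/-- Multiplication by a natural number on the torus. -/
def dil (M : ℕ) (x : T2) : T2 := (M • x.1, M • x.2)

lemma continuous_dil (M : ℕ) : Continuous (dil M) := by
  unfold dil; fun_prop

lemma coe_nsmul' (M : ℕ) (a : ℝ) : M • (a : T) = ((M * a : ℝ) : T) := by
  rw [← AddCircle.coe_nsmul, nsmul_eq_mul]

lemma dil_flow (M : ℕ) (x : T2) (a b : ℝ) :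
    dil M (flow x a b) = flow (dil M x) (M * a) (M * b) := by
  simp only [dil, flow, smul_sub, coe_nsmul']

lemma flow_flow (x : T2) (a b a' b' : ℝ) :
    flow (flow x a b) a' b' = flow x (a + a') (b + b') := by
  simp only [flow, AddCircle.coe_add, sub_sub]

/-- vertical mean -/
noncomputable def vm (F : T2 → ℝ) (a : T) : ℝ := ∫ y, F (a, y)

structure PS (ρ : ℝ) where
  x : T2
  s : ℝ
  hs : ρ ≤ s
  hs' : s ≤ ρ⁻¹

/-- Averaging out a rapidly oscillating factor along an irrational direction. -/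
lemma step_dil {σ : ℝ} (hσ : Irrational σ) {W F : T2 → ℝ} (hW : Continuous W)
    (hF : Continuous F) {ρ : ℝ} (hρ : 0 < ρ) {err : ℝ} (herr : 0 < err) :
    ∀ᶠ M : ℕ in atTop, ∀ s : ℝ, ρ ≤ s → s ≤ ρ⁻¹ → ∀ x : T2,
      |A σ s (fun y => W y * F (dil M y)) x - (∫ y, F y) * A σ s W x| ≤ err := by
  obtain ⟨B, hB0, hB⟩ := exists_bound2 hF
  have hsabs : ∀ p : PS ρ, |p.s| ≤ ρ⁻¹ := fun p => by
    rw [abs_of_pos (hρ.trans_le p.hs)]; exact p.hs'
  have hρi : 0 < ρ⁻¹ := by positivity
  have nu : Nice (fun (p : PS ρ) (t : ℝ) => 2 * t * W (flow p.x (p.s * t) (p.s * σ * t))) := by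
    refine Nice.two_t.mul (Nice.tor hW (fun p : PS ρ => p.x) (fun p => p.s) (fun p => p.s * σ)
      (V := ρ⁻¹ * (1 + |σ|)) (fun p => ?_) (fun p => ?_))
    · refine (hsabs p).trans ?_
      have := abs_nonneg σ
      nlinarith
    · rw [abs_mul]
      refine mul_le_mul (hsabs p) (by linarith) (abs_nonneg _) hρi.le
  have key := step_general nu (Q := PS ρ)
    (fun n q t => F (flow q.x (n * (q.s * t)) (n * (q.s * σ * t)))) (fun _ => ∫ y, F y)
    (Bh := B) (fun n q => hF.comp (continuous_flow _ (by fun_prop) (by fun_prop)))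
    (fun n q t => hB _) (fun q => by
      have h1 : ‖∫ y, F y‖ ≤ B * (volume : Measure T2).real univ :=
        norm_integral_le_of_norm_le_const (Filter.Eventually.of_forall fun y => by
          rw [Real.norm_eq_abs]; exact hB _)
      simpa [Measure.real] using h1) ?_ herr
  · have key2 := tendsto_natCast_atTop_atTop (R := ℝ) |>.eventually key
    filter_upwards [key2] with M hM s hs hs' x
    have := hM ⟨x, s, hs, hs'⟩ ⟨dil M x, s, hs, hs'⟩
    have e0 : A σ s (fun y => W y * F (dil M y)) x = ∫ t in (0 : ℝ)..1,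
        2 * t * W (flow x (s * t) (s * σ * t)) *
          F (flow (dil M x) (M * (s * t)) (M * (s * σ * t))) := by
      unfold A
      congr 1
      ext t
      simp only [dil_flow]
      ring
    rw [e0]
    exact this
  · intro e he
    obtain ⟨R0, hR0, hR⟩ := weyl hσ hF he
    refine ⟨1, fun N _ hN => ?_⟩
    have hNr : (0 : ℝ) < N := by exact_mod_cast hN
    filter_upwards [eventually_ge_atTop (R0 * N / ρ), eventually_gt_atTop 0] with n hn hn0 q k _
    have hc : (1 / (N : ℝ)) ≠ 0 := by positivity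
    have hsub := intervalIntegral.integral_comp_mul_add (a := 0) (b := 1)
      (fun t : ℝ => F (flow q.x (n * (q.s * t)) (n * (q.s * σ * t)))) hc ((k : ℝ) / N)
    have e1 : 1 / (N : ℝ) * 0 + k / N = k / N := by ring
    have e2 : 1 / (N : ℝ) * 1 + k / N = ((k + 1 : ℕ) : ℝ) / N := by push_cast; ring
    rw [e1, e2] at hsub
    have e3 : (∫ t in ((k : ℝ) / N)..(((k + 1 : ℕ) : ℝ) / N),
        F (flow q.x (n * (q.s * t)) (n * (q.s * σ * t))))
        = (1 / N) * ∫ τ in (0 : ℝ)..1, F (flow q.x (n * (q.s * (1 / N * τ + k / N)))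
          (n * (q.s * σ * (1 / N * τ + k / N)))) := by
      rw [hsub, smul_eq_mul, ← mul_assoc, mul_inv_cancel₀ hc, one_mul]
    rw [e3]
    have hRn : R0 ≤ n * q.s / N := by
      rw [le_div_iff₀ hNr]
      rw [div_le_iff₀ hρ] at hn
      exact hn.trans (by gcongr; exact q.hs)
    have := hR (n * q.s / N) hRn (flow q.x (n * (q.s * (k / N))) (n * (q.s * σ * (k / N))))
    have e4 : ∀ τ : ℝ, flow q.x (n * (q.s * (1 / N * τ + k / N)))
          (n * (q.s * σ * (1 / N * τ + k / N)))
        = flow (flow q.x (n * (q.s * (k / N))) (n * (q.s * σ * (k / N))))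
          (n * q.s / N * τ) (n * q.s / N * σ * τ) := by
      intro τ
      rw [flow_flow]
      congr 1 <;> ring
    simp_rw [e4]
    have e5 : ∀ z m : ℝ, 1 / (N : ℝ) * z - m / N = (1 / N) * (z - m) := fun z m => by ring
    rw [e5, abs_mul, abs_of_pos (by positivity : (0 : ℝ) < 1 / N)]
    calc 1 / (N : ℝ) * _ ≤ 1 / N * e := by gcongr
      _ = e / N := by ring

lemma vert_eq (F : T2 → ℝ) (a : T) : ∫ t in (0 : ℝ)..1, F (a, (t : T)) = ∫ y, F (a, y) := by
  have := UnitAddCircle.intervalIntegral_preimage 0 (fun y : T => F (a, y))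
  simpa using this

/-- Vertical version. -/
lemma step_dil_vert {W F : T2 → ℝ} (hW : Continuous W)
    (hF : Continuous F) {err : ℝ} (herr : 0 < err) :
    ∀ᶠ M : ℕ in atTop, ∀ a : T,
      |vm (fun y => W y * F (dil M y)) a - vm F (M • a) * vm W a| ≤ err := by
  have nu : Nice (fun (p : T) (t : ℝ) => W (flow (p, 0) (0 * t) ((-1) * t))) :=
    Nice.tor hW (fun p : T => (p, 0)) (fun _ => 0) (fun _ => -1) (V := 1) (by simp) (by simp)
  have key := step_vert nu (fun x : T2 => x) (fun _ => 0) (fun _ => -1) (V := 0) (c0 := 1)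
    (fun _ => by simp) one_pos (fun _ => by simp) hF (fun q => vm F q.1)
    (fun q t _ => by simp [vm]) herr
  have key2 := tendsto_natCast_atTop_atTop (R := ℝ) |>.eventually key
  filter_upwards [key2] with M hM a
  have := hM a (M • a, 0)
  have e1 : vm (fun y => W y * F (dil M y)) a
      = ∫ t in (0 : ℝ)..1, W (flow (a, 0) (0 * t) (-1 * t)) *
        F (flow (M • a, 0) (0 * t) (M * (-1) * t)) := by
    rw [vm, ← vert_eq (fun y => W y * F (dil M y)) a]
    congr 1
    ext t
    simp only [flow, dil, coe_nsmul', zero_mul, AddCircle.coe_zero, sub_zero, mul_neg, mul_one,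
      neg_mul, one_mul, AddCircle.coe_neg, zero_sub, neg_neg]
  have e2 : vm W a = ∫ t in (0 : ℝ)..1, W (flow (a, 0) (0 * t) (-1 * t)) := by
    rw [vm, ← vert_eq W a]
    congr 1
    ext t
    simp [flow]
  rw [e1, e2]
  exact this

end Pool.Agent.Helper79.Sector
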