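import Mathlib
import Pool.Agent.Helper79.SectorDil

set_option autoImplicit false

open MeasureTheory Set Filter

namespace Pool.Agent.Helper79.Sector

lemma exists_zsmul_eq {d : ℤ} (hd : d ≠ 0) (u : T) : ∃ y : T, d • y = u :=
  ⟨DivisibleBy.div u d, DivisibleBy.div_cancel u hd⟩

lemma mp_nsmul {L : ℕ} (hL : 0 < L) :
    MeasurePreserving (fun y : T => L • y) volume volume := by
  have hs : Function.Surjective (nsmulAddMonoidHom (α := T) L) := by
    intro u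
    obtain ⟨y, hy⟩ := exists_zsmul_eq (d := (L : ℤ)) (by exact_mod_cast hL.ne') u
    exact ⟨y, by simpa using hy⟩
  have hc : Continuous (nsmulAddMonoidHom (α := T) L) := by
    change Continuous (fun y : T => L • y)
    fun_prop
  exact AddMonoidHom.measurePreserving (μ := (volume : Measure T)) (ν := (volume : Measure T))
    hc hs rfl

instance instHaarT2 : (volume : Measure T2).IsAddHaarMeasure := by
  rw [Measure.volume_eq_prod]; infer_instance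

/-- Integer matrices with nonzero determinant preserve the measure of the torus. -/
lemma mp_mat {a b c d : ℤ} (h : a * d - b * c ≠ 0) :
    MeasurePreserving (fun x : T2 => (a • x.1 + b • x.2, c • x.1 + d • x.2)) volume volume := by
  let f : T2 →+ T2 :=
    { toFun := fun x => (a • x.1 + b • x.2, c • x.1 + d • x.2)
      map_zero' := by simp
      map_add' := by
        intro x y
        ext
        · simp only [Prod.fst_add, Prod.snd_add, smul_add]; abel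
        · simp only [Prod.fst_add, Prod.snd_add, smul_add]; abel }
  have hs : Function.Surjective f := by
    rintro ⟨u, v⟩
    obtain ⟨u', hu'⟩ := exists_zsmul_eq h u
    obtain ⟨v', hv'⟩ := exists_zsmul_eq h v
    refine ⟨(d • u' - b • v', -c • u' + a • v'), ?_⟩
    change (a • (d • u' - b • v') + b • (-c • u' + a • v'),
      c • (d • u' - b • v') + d • (-c • u' + a • v')) = (u, v)
    rw [← hu', ← hv']
    ext
    · module
    · module
  have hc : Continuous f := by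
    change Continuous (fun x : T2 => (a • x.1 + b • x.2, c • x.1 + d • x.2))
    fun_prop
  exact AddMonoidHom.measurePreserving (μ := (volume : Measure T2)) (ν := (volume : Measure T2))
    hc hs rfl

lemma integral_nsmul {χ : T → ℝ} (hχ : Continuous χ) {L : ℕ} (hL : 0 < L) :
    ∫ t in (0 : ℝ)..1, χ (0 - ((-(L : ℝ) * t : ℝ) : T)) = ∫ y, χ y := by
  have h1 : ∀ t : ℝ, χ (0 - ((-(L : ℝ) * t : ℝ) : T)) = (fun y : T => χ (L • y)) (t : T) := by
    intro t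
    simp only [coe_nsmul', neg_mul, AddCircle.coe_neg, zero_sub, neg_neg]
  simp_rw [h1]
  have h2 := UnitAddCircle.intervalIntegral_preimage 0 (fun y : T => χ (L • y))
  rw [zero_add] at h2
  rw [h2]
  have hmp := mp_nsmul hL
  conv_rhs => rw [← hmp.map_eq]
  rw [integral_map hmp.measurable.aemeasurable]
  exact hχ.aestronglyMeasurable

/-- The two first-level factors. -/
def X1 (χ : T → ℝ) (l1 : ℕ) (x : T2) : ℝ := χ (l1 • x.2)
def X2 (χ : T → ℝ) (l2 : ℕ) (x : T2) : ℝ := χ (l2 • (x.2 - x.1))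
def B1 (n1 : ℕ) (x : T2) : T2 := (x.1, n1 • x.2)
def B2 (n2 : ℕ) (x : T2) : T2 := (x.1, n2 • (x.2 - x.1))
/-- Product function. -/
def YY (χ : T → ℝ) (F : T2 → ℝ) (l1 l2 n1 n2 : ℕ) (x : T2) : ℝ :=
  X1 χ l1 x * X2 χ l2 x * F (B1 n1 x) * F (B2 n2 x)

lemma continuous_B1 (n : ℕ) : Continuous (B1 n) := by unfold B1; fun_prop
lemma continuous_B2 (n : ℕ) : Continuous (B2 n) := by unfold B2; fun_prop
lemma continuous_X1 {χ : T → ℝ} (hχ : Continuous χ) (n : ℕ) : Continuous (X1 χ n) := by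
  unfold X1; fun_prop
lemma continuous_X2 {χ : T → ℝ} (hχ : Continuous χ) (n : ℕ) : Continuous (X2 χ n) := by
  unfold X2; fun_prop
lemma continuous_YY {χ : T → ℝ} (hχ : Continuous χ) {F : T2 → ℝ} (hF : Continuous F)
    (l1 l2 n1 n2 : ℕ) : Continuous (YY χ F l1 l2 n1 n2) := by
  unfold YY
  exact ((((continuous_X1 hχ l1).mul (continuous_X2 hχ l2)).mul
    (hF.comp (continuous_B1 n1))).mul (hF.comp (continuous_B2 n2)))

lemma nsmul_sub_coe (N : ℕ) (θ : T) (b : ℝ) :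
    N • (θ - (b : T)) = N • θ - ((N * b : ℝ) : T) := by
  rw [smul_sub, coe_nsmul']

lemma sub_coe_sub (θ η : T) (a b : ℝ) :
    (θ - (b : T)) - (η - (a : T)) = (θ - η) - ((b - a : ℝ) : T) := by
  rw [AddCircle.coe_sub]; abel

lemma YY_flow1 (χ : T → ℝ) (F : T2 → ℝ) {l1 l2 n1 n2 : ℕ} (hn1 : 0 < n1) (x : T2) (s σ t : ℝ) :
    YY χ F l1 l2 n1 n2 (flow x (s * t) (s * (σ / n1) * t))
      = χ (l1 • x.2 - ((s * (l1 * (σ / n1)) * t : ℝ) : T))
        * χ (l2 • (x.2 - x.1) - ((l2 * (s * (σ / n1 - 1)) * t : ℝ) : T))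
        * F (flow (x.1, n1 • x.2) (s * t) (s * σ * t))
        * F (flow (x.1, n2 • (x.2 - x.1)) (s * t) (n2 * (s * (σ / n1 - 1)) * t)) := by
  have hn1' : (n1 : ℝ) ≠ 0 := by exact_mod_cast hn1.ne'
  simp only [YY, X1, X2, B1, B2, flow, sub_coe_sub, nsmul_sub_coe]
  have e1 : (l1 : ℝ) * (s * (σ / n1) * t) = s * (l1 * (σ / n1)) * t := by ring
  have e2 : (l2 : ℝ) * (s * (σ / n1) * t - s * t) = l2 * (s * (σ / n1 - 1)) * t := by ring
  have e3 : (n1 : ℝ) * (s * (σ / n1) * t) = s * σ * t := by field_simp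
  have e4 : (n2 : ℝ) * (s * (σ / n1) * t - s * t) = n2 * (s * (σ / n1 - 1)) * t := by ring
  rw [e1, e2, e3, e4]

lemma YY_flow2 (χ : T → ℝ) (F : T2 → ℝ) {l1 l2 n1 n2 : ℕ} (hn2 : 0 < n2) (x : T2) (s σ t : ℝ) :
    YY χ F l1 l2 n1 n2 (flow x (s * t) (s * (1 + σ / n2) * t))
      = χ (l2 • (x.2 - x.1) - ((s * (l2 * (σ / n2)) * t : ℝ) : T))
        * χ (l1 • x.2 - ((l1 * (s * (1 + σ / n2)) * t : ℝ) : T))
        * F (flow (x.1, n2 • (x.2 - x.1)) (s * t) (s * σ * t))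
        * F (flow (x.1, n1 • x.2) (s * t) (n1 * (s * (1 + σ / n2)) * t)) := by
  have hn2' : (n2 : ℝ) ≠ 0 := by exact_mod_cast hn2.ne'
  simp only [YY, X1, X2, B1, B2, flow, sub_coe_sub, nsmul_sub_coe]
  have e1 : (l2 : ℝ) * (s * (1 + σ / n2) * t - s * t) = s * (l2 * (σ / n2)) * t := by ring
  have e2 : (l1 : ℝ) * (s * (1 + σ / n2) * t) = l1 * (s * (1 + σ / n2)) * t := by ring
  have e3 : (n2 : ℝ) * (s * (1 + σ / n2) * t - s * t) = s * σ * t := by field_simp; ring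
  have e4 : (n1 : ℝ) * (s * (1 + σ / n2) * t) = n1 * (s * (1 + σ / n2)) * t := by ring
  rw [e1, e2, e3, e4]
  ring

/-- All the estimates for the product function. -/
structure Est (χ : T → ℝ) (F : T2 → ℝ) {ι : Type} (σ : ι → ℝ) (ρ q err : ℝ)
    (l1 l2 n1 n2 : ℕ) : Prop where
  g1 : ∀ s, ρ ≤ s → s ≤ ρ⁻¹ → ∀ i x,
    |A (σ i / n1) s (YY χ F l1 l2 n1 n2) x - q * X1 χ l1 x * A (σ i) s F (B1 n1 x)| ≤ err
  g2 : ∀ s, ρ ≤ s → s ≤ ρ⁻¹ → ∀ i x,
    |A (1 + σ i / n2) s (YY χ F l1 l2 n1 n2) x - q * X2 χ l2 x * A (σ i) s F (B2 n2 x)| ≤ err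
  v : ∀ a, |vm (YY χ F l1 l2 n1 n2) a - q * q| ≤ err

lemma est_of {χ : T → ℝ} (hχ : Continuous χ) {F : T2 → ℝ} {ρ : ℝ} {err : ℝ} {κ0 : ℝ}
    {ι : Type} {σ : ι → ℝ} (hσ : ∀ i, |σ i| ≤ 2) {l1 l2 n1 n2 : ℕ}
    (hl1 : 0 < l1) (hn1 : 4 ≤ n1) (hn2 : 4 ≤ n2)
    (hκ1 : 2 * (l1 : ℝ) / n1 ≤ κ0) (hκ2 : 2 * (l2 : ℝ) / n2 ≤ κ0)
    (G1 : ∀ p : Par ρ κ0,
      |(∫ t in (0 : ℝ)..1, 2 * t * χ (p.α - ((p.s * p.κ * t : ℝ) : T))
          * χ (p.α' - ((l2 * (p.s * p.ω) * t : ℝ) : T))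
          * F (flow p.x (p.s * t) (p.s * p.σ * t))
          * F (flow (p.x.1, p.b') (p.s * t) (n2 * (p.s * p.ω) * t)))
        - 1 * (∫ y, χ y) * χ p.α * A p.σ p.s F p.x| ≤ err)
    (G2 : ∀ p : Par ρ κ0,
      |(∫ t in (0 : ℝ)..1, 2 * t * χ (p.α - ((p.s * p.κ * t : ℝ) : T))
          * χ (p.α' - ((l1 * (p.s * p.ω) * t : ℝ) : T))
          * F (flow p.x (p.s * t) (p.s * p.σ * t))
          * F (flow (p.x.1, p.b') (p.s * t) (n1 * (p.s * p.ω) * t)))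
        - 1 * (∫ y, χ y) * χ p.α * A p.σ p.s F p.x| ≤ err)
    (V : ∀ (a α' b1 b2 : T),
      |(∫ t in (0 : ℝ)..1, χ (0 - ((-(l1 : ℝ) * t : ℝ) : T)) * χ (α' - ((l2 * (-1) * t : ℝ) : T))
          * F (flow (a, b1) (0 * t) (n1 * (-1) * t))
          * F (flow (a, b2) (0 * t) (n2 * (-1) * t)))
        - 1 * 1 * (∫ y, χ y) * ∫ t in (0 : ℝ)..1, χ (0 - ((-(l1 : ℝ) * t : ℝ) : T))| ≤ err) :
    Est χ F σ ρ (∫ y, χ y) err l1 l2 n1 n2 := by
  have hn1' : (4 : ℝ) ≤ n1 := by exact_mod_cast hn1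
  have hn2' : (4 : ℝ) ≤ n2 := by exact_mod_cast hn2
  have hsn : ∀ (n : ℕ), (4 : ℝ) ≤ n → ∀ i, |σ i / n| ≤ 1 / 2 := by
    intro n hn i
    rw [abs_div, abs_of_pos (by linarith : (0 : ℝ) < n), div_le_iff₀ (by linarith)]
    have := hσ i
    linarith
  have hk : ∀ (l n : ℕ), (4 : ℝ) ≤ n → 2 * (l : ℝ) / n ≤ κ0 → ∀ i, |(l : ℝ) * (σ i / n)| ≤ κ0 := by
    intro l n hn h i
    refine le_trans ?_ h
    have hn0 : (0 : ℝ) < n := by linarith
    rw [abs_mul, abs_div, abs_of_pos hn0, Nat.abs_cast]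
    rw [mul_div_assoc', div_le_div_iff_of_pos_right hn0]
    have := hσ i
    have hl : (0 : ℝ) ≤ l := Nat.cast_nonneg l
    nlinarith
  refine ⟨fun s hs hs' i x => ?_, fun s hs hs' i x => ?_, fun a => ?_⟩
  · have h1 := hsn n1 hn1' i
    rw [abs_le] at h1
    have := G1 ⟨(x.1, n1 • x.2), l1 • x.2, l2 • (x.2 - x.1), n2 • (x.2 - x.1), s, σ i,
      l1 * (σ i / n1), σ i / n1 - 1, hs, hs', hσ i, hk l1 n1 hn1' hκ1 i,
      by rw [abs_of_neg (by linarith)]; linarith, by rw [abs_of_neg (by linarith)]; linarith⟩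
    simp only [one_mul] at this
    have e0 : A (σ i / n1) s (YY χ F l1 l2 n1 n2) x = ∫ t in (0 : ℝ)..1,
        2 * t * χ (l1 • x.2 - ((s * (l1 * (σ i / n1)) * t : ℝ) : T))
        * χ (l2 • (x.2 - x.1) - ((l2 * (s * (σ i / n1 - 1)) * t : ℝ) : T))
        * F (flow (x.1, n1 • x.2) (s * t) (s * σ i * t))
        * F (flow (x.1, n2 • (x.2 - x.1)) (s * t) (n2 * (s * (σ i / n1 - 1)) * t)) := by
      unfold A
      congr 1
      ext t
      rw [YY_flow1 χ F (by omega)]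
      ring
    rw [e0]
    exact this
  · have h1 := hsn n2 hn2' i
    rw [abs_le] at h1
    have := G2 ⟨(x.1, n2 • (x.2 - x.1)), l2 • (x.2 - x.1), l1 • x.2, n1 • x.2, s, σ i,
      l2 * (σ i / n2), 1 + σ i / n2, hs, hs', hσ i, hk l2 n2 hn2' hκ2 i,
      by rw [abs_of_pos (by linarith)]; linarith, by rw [abs_of_pos (by linarith)]; linarith⟩
    simp only [one_mul] at this
    have e0 : A (1 + σ i / n2) s (YY χ F l1 l2 n1 n2) x = ∫ t in (0 : ℝ)..1,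
        2 * t * χ (l2 • (x.2 - x.1) - ((s * (l2 * (σ i / n2)) * t : ℝ) : T))
        * χ (l1 • x.2 - ((l1 * (s * (1 + σ i / n2)) * t : ℝ) : T))
        * F (flow (x.1, n2 • (x.2 - x.1)) (s * t) (s * σ i * t))
        * F (flow (x.1, n1 • x.2) (s * t) (n1 * (s * (1 + σ i / n2)) * t)) := by
      unfold A
      congr 1
      ext t
      rw [YY_flow2 χ F (by omega)]
      ring
    rw [e0]
    exact this
  · have := V a (-(l2 • a)) 0 (-(n2 • a))
    rw [integral_nsmul hχ hl1, one_mul, one_mul] at this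
    convert this using 3
    rw [vm, ← vert_eq]
    congr 1
    ext t
    simp only [YY, X1, X2, B1, B2, flow, coe_nsmul', smul_sub, zero_mul, AddCircle.coe_zero,
      sub_zero, mul_neg, mul_one, neg_mul, AddCircle.coe_neg, zero_sub, neg_neg, sub_neg_eq_add,
      neg_add_eq_sub, zero_add]

lemma exists_params {χ : T → ℝ} (hχ : Continuous χ) {F : T2 → ℝ} (hF : Continuous F)
    (hm : ∀ a, ∫ y, F (a, y) = 1) {ρ : ℝ} (hρ : 0 < ρ) {err : ℝ} (herr : 0 < err)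
    {ι : Type} {σ : ι → ℝ} (hσ : ∀ i, |σ i| ≤ 2) :
    ∃ l1 l2 n1 n2 : ℕ, 0 < l1 ∧ 0 < l2 ∧ 4 ≤ n1 ∧ 4 ≤ n2 ∧
      Est χ F σ ρ (∫ y, χ y) err l1 l2 n1 n2 ∧
      Est (fun y => 1 - χ y) (fun _ => 1) σ ρ (∫ y, (1 - χ y)) err l1 l2 n1 n2 := by
  have hχ' : Continuous (fun y => 1 - χ y) := continuous_const.sub hχ
  have hone : Continuous (fun _ : T2 => (1 : ℝ)) := continuous_const
  have hmone : ∀ a : T, ∫ y : T, (fun _ : T2 => (1 : ℝ)) (a, y) = 1 := by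
    intro a; simp
  obtain ⟨κY, hκY, hY⟩ := calcG hχ hχ hF hF hm hρ herr
  obtain ⟨κW, hκW, hW⟩ := calcG hχ' hχ' hone hone hmone hρ herr
  set κ0 := min κY κW with hκ0
  have hκ0pos : 0 < κ0 := lt_min hκY hκW
  have tn := tendsto_natCast_atTop_atTop (R := ℝ)
  -- choose l1
  have c1 := ((tn.eventually hY).and (tn.eventually hW)).and (eventually_gt_atTop (0 : ℕ))
  obtain ⟨l1, ⟨hY1, hW1⟩, hl1⟩ := c1.exists
  have VY := calcV hχ hχ hF hF hm hm (l1 : ℝ) herr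
  have VW := calcV hχ' hχ' hone hone hmone hmone (l1 : ℝ) herr
  have c2 := (((tn.eventually hY).and (tn.eventually hW)).and
    ((tn.eventually VY).and (tn.eventually VW))).and (eventually_gt_atTop (0 : ℕ))
  obtain ⟨l2, ⟨⟨hY2, hW2⟩, VY2, VW2⟩, hl2⟩ := c2.exists
  have c3 := (((tn.eventually hY1).and (tn.eventually hW1)).and
    ((tn.eventually VY2).and (tn.eventually VW2))).and
    ((eventually_ge_atTop (4 : ℕ)).and (tn.eventually (eventually_ge_atTop (2 * (l1 : ℝ) / κ0))))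
  obtain ⟨n1, ⟨⟨hY3, hW3⟩, VY3, VW3⟩, hn1, hn1'⟩ := c3.exists
  have c4 := (((tn.eventually hY2).and (tn.eventually hW2)).and
    ((tn.eventually VY3).and (tn.eventually VW3))).and
    ((eventually_ge_atTop (4 : ℕ)).and (tn.eventually (eventually_ge_atTop (2 * (l2 : ℝ) / κ0))))
  obtain ⟨n2, ⟨⟨hY4, hW4⟩, VY4, VW4⟩, hn2, hn2'⟩ := c4.exists
  have hn1pos : (0 : ℝ) < n1 := by
    have : (4 : ℝ) ≤ n1 := by exact_mod_cast hn1
    linarith
  have hn2pos : (0 : ℝ) < n2 := by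
    have : (4 : ℝ) ≤ n2 := by exact_mod_cast hn2
    linarith
  have k1 : 2 * (l1 : ℝ) / n1 ≤ κ0 := by
    rw [div_le_iff₀ hκ0pos] at hn1'
    rw [div_le_iff₀ hn1pos]; linarith
  have k2 : 2 * (l2 : ℝ) / n2 ≤ κ0 := by
    rw [div_le_iff₀ hκ0pos] at hn2'
    rw [div_le_iff₀ hn2pos]; linarith
  refine ⟨l1, l2, n1, n2, hl1, hl2, hn1, hn2, ?_, ?_⟩
  · refine est_of hχ hσ hl1 hn1 hn2 (k1.trans (min_le_left κY κW)) (k2.trans (min_le_left κY κW))
      hY4 hY3 (fun a α' b1 b2 => ?_)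
    exact VY4 a α' b1 b2
  · refine est_of hχ' hσ hl1 hn1 hn2 (k1.trans (min_le_right κY κW))
      (k2.trans (min_le_right κY κW)) hW4 hW3 (fun a α' b1 b2 => ?_)
    exact VW4 a α' b1 b2

end Pool.Agent.Helper79.Sector
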