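import Mathlib
import Pool.Agent.Helper79.SectorInner

set_option autoImplicit false

open MeasureTheory Set Filter

namespace Pool.Agent.Helper79.Sector

lemma A_intervalIntegrable {F : T2 → ℝ} (hF : Continuous F) (σ s : ℝ) (x : T2) (a b : ℝ) :
    IntervalIntegrable (fun t => 2 * t * F (flow x (s * t) (s * σ * t))) volume a b := by
  apply Continuous.intervalIntegrable
  exact (continuous_const.mul continuous_id).mul
    (hF.comp (continuous_flow x (by fun_prop) (by fun_prop)))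

lemma A_const_mul (σ s c : ℝ) (F : T2 → ℝ) (x : T2) :
    A σ s (fun y => c * F y) x = c * A σ s F x := by
  unfold A
  rw [← intervalIntegral.integral_const_mul]
  congr 1
  ext t
  ring

lemma A_add {F G : T2 → ℝ} (hF : Continuous F) (hG : Continuous G) (σ s : ℝ) (x : T2) :
    A σ s (fun y => F y + G y) x = A σ s F x + A σ s G x := by
  unfold A
  rw [← intervalIntegral.integral_add (A_intervalIntegrable hF σ s x 0 1)
    (A_intervalIntegrable hG σ s x 0 1)]
  congr 1
  ext t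
  ring

lemma A_mono_on {F G : T2 → ℝ} (hF : Continuous F) (hG : Continuous G) (σ s : ℝ) (x : T2)
    (h : ∀ t : ℝ, 0 ≤ t → t ≤ 1 → F (flow x (s * t) (s * σ * t)) ≤
      G (flow x (s * t) (s * σ * t))) :
    A σ s F x ≤ A σ s G x := by
  unfold A
  apply intervalIntegral.integral_mono_on zero_le_one (A_intervalIntegrable hF σ s x 0 1)
    (A_intervalIntegrable hG σ s x 0 1)
  intro t ht
  have := h t ht.1 ht.2
  have h2 := ht.1
  gcongr

lemma A_mono {F G : T2 → ℝ} (hF : Continuous F) (hG : Continuous G) (h : ∀ y, F y ≤ G y)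
    (σ s : ℝ) (x : T2) : A σ s F x ≤ A σ s G x :=
  A_mono_on hF hG σ s x (fun _ _ _ => h _)

lemma A_nonneg {F : T2 → ℝ} (h : ∀ y, 0 ≤ F y)
    (σ s : ℝ) (x : T2) : 0 ≤ A σ s F x := by
  unfold A
  apply intervalIntegral.integral_nonneg zero_le_one
  intro t ht
  have h1 := ht.1
  have := h (flow x (s * t) (s * σ * t))
  positivity

lemma A_one (σ s : ℝ) (x : T2) : A σ s (fun _ => 1) x = 1 := by
  unfold A
  simp only [mul_one]
  exact integral_two_t

lemma A_dil (σ s : ℝ) (F : T2 → ℝ) (M : ℕ) (x : T2) :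
    A σ s (fun y => F (dil M y)) x = A σ (M * s) F (dil M x) := by
  unfold A
  congr 1
  ext t
  change 2 * t * F (dil M (flow x (s * t) (s * σ * t))) = _
  rw [dil_flow]
  congr 3 <;> ring

/-- average over slopes -/
noncomputable def K {ι : Type} [Fintype ι] (σ : ι → ℝ) (s : ℝ) (F : T2 → ℝ) (x : T2) : ℝ :=
  (Fintype.card ι : ℝ)⁻¹ * ∑ i, A (σ i) s F x

variable {ι : Type} [Fintype ι]

lemma K_const_mul (σ : ι → ℝ) (s c : ℝ) (F : T2 → ℝ) (x : T2) :
    K σ s (fun y => c * F y) x = c * K σ s F x := by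
  unfold K
  simp_rw [A_const_mul]
  rw [← Finset.mul_sum]
  ring

lemma K_add {F G : T2 → ℝ} (hF : Continuous F) (hG : Continuous G) (σ : ι → ℝ) (s : ℝ) (x : T2) :
    K σ s (fun y => F y + G y) x = K σ s F x + K σ s G x := by
  unfold K
  simp_rw [A_add hF hG]
  rw [Finset.sum_add_distrib]
  ring

lemma K_le_of [Nonempty ι] {σ : ι → ℝ} {s s' : ℝ} {F G : T2 → ℝ} {x x' : T2} {a b : ℝ}
    (h : ∀ i, a * A (σ i) s F x - b ≤ A (σ i) s' G x') :
    a * K σ s F x - b ≤ K σ s' G x' := by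
  unfold K
  have hc : (0 : ℝ) < Fintype.card ι := by exact_mod_cast Fintype.card_pos
  have h1 : ∑ i, (a * A (σ i) s F x - b) ≤ ∑ i, A (σ i) s' G x' :=
    Finset.sum_le_sum fun i _ => h i
  rw [Finset.sum_sub_distrib, Finset.sum_const, Finset.card_univ, nsmul_eq_mul,
    ← Finset.mul_sum] at h1
  calc a * ((Fintype.card ι : ℝ)⁻¹ * ∑ i, A (σ i) s F x) - b
      = (Fintype.card ι : ℝ)⁻¹ * (a * ∑ i, A (σ i) s F x - Fintype.card ι * b) := by
        field_simp
    _ ≤ (Fintype.card ι : ℝ)⁻¹ * ∑ i, A (σ i) s' G x' := by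
        apply mul_le_mul_of_nonneg_left h1 (by positivity)

lemma K_mono [Nonempty ι] {F G : T2 → ℝ} (hF : Continuous F) (hG : Continuous G)
    (h : ∀ y, F y ≤ G y)
    (σ : ι → ℝ) (s : ℝ) (x : T2) : K σ s F x ≤ K σ s G x := by
  have := K_le_of (σ := σ) (s := s) (s' := s) (F := F) (G := G) (x := x) (x' := x) (a := 1)
    (b := 0) (fun i => by simpa using A_mono hF hG h (σ i) s x)
  simpa using this

lemma K_nonneg {F : T2 → ℝ} (h : ∀ y, 0 ≤ F y)
    (σ : ι → ℝ) (s : ℝ) (x : T2) : 0 ≤ K σ s F x := by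
  unfold K
  have : 0 ≤ ∑ i, A (σ i) s F x := Finset.sum_nonneg fun i _ => A_nonneg h _ _ _
  positivity

lemma K_one [Nonempty ι] (σ : ι → ℝ) (s : ℝ) (x : T2) : K σ s (fun _ => 1) x = 1 := by
  unfold K
  simp_rw [A_one]
  have hc : (0 : ℝ) < Fintype.card ι := by exact_mod_cast Fintype.card_pos
  rw [Finset.sum_const, Finset.card_univ, nsmul_eq_mul, mul_one, inv_mul_cancel₀ hc.ne']

/-- The combined slopes. -/
noncomputable def VV (σ : ι → ℝ) (n1 n2 : ℕ) : ι ⊕ ι → ℝ :=
  Sum.elim (fun i => σ i / n1) (fun i => 1 + σ i / n2)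

lemma K_VV [Nonempty ι] (σ : ι → ℝ) (n1 n2 : ℕ) (s : ℝ) (F : T2 → ℝ) (x : T2) :
    K (VV σ n1 n2) s F x =
      (K (fun i => σ i / n1) s F x + K (fun i => 1 + σ i / n2) s F x) / 2 := by
  unfold K VV
  rw [Fintype.sum_sum_type, Fintype.card_sum]
  simp only [Sum.elim_inl, Sum.elim_inr]
  push_cast
  have hc : (0 : ℝ) < Fintype.card ι := by exact_mod_cast Fintype.card_pos
  field_simp
  ring

omit [Fintype ι] in
lemma VV_inj {σ : ι → ℝ} (hσ : Function.Injective σ) (h2 : ∀ i, |σ i| ≤ 2)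
    (hirr : ∀ i, Irrational (σ i)) {n1 n2 : ℕ}
    (hn1 : 4 ≤ n1) (hn2 : 4 ≤ n2) : Function.Injective (VV σ n1 n2) := by
  have hn1' : (4 : ℝ) ≤ n1 := by exact_mod_cast hn1
  have hn2' : (4 : ℝ) ≤ n2 := by exact_mod_cast hn2
  have hsn : ∀ (n : ℕ), (4 : ℝ) ≤ n → ∀ i, |σ i / n| < 1 / 2 := by
    intro n hn i
    rw [abs_div, abs_of_pos (by linarith : (0 : ℝ) < n), div_lt_iff₀ (by linarith)]
    have h1 := h2 i
    have h3 : |σ i| ≠ 2 := by
      intro h
      rcases (abs_eq (by norm_num : (0 : ℝ) ≤ 2)).1 h with h | h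
      · exact (hirr i) ⟨2, by rw [h]; norm_num⟩
      · exact (hirr i) ⟨-2, by rw [h]; norm_num⟩
    have := lt_of_le_of_ne h1 h3
    linarith
  rintro (i | i) (j | j) h
  · simp only [VV, Sum.elim_inl] at h
    rw [div_left_inj' (by linarith)] at h
    rw [hσ h]
  · simp only [VV, Sum.elim_inl, Sum.elim_inr] at h
    have a1 := hsn n1 hn1' i
    have a2 := hsn n2 hn2' j
    rw [abs_lt] at a1 a2
    linarith
  · simp only [VV, Sum.elim_inl, Sum.elim_inr] at h
    have a1 := hsn n1 hn1' j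
    have a2 := hsn n2 hn2' i
    rw [abs_lt] at a1 a2
    linarith
  · simp only [VV, Sum.elim_inr] at h
    have h' := add_left_cancel h
    rw [div_left_inj' (by linarith)] at h'
    rw [hσ h']

omit [Fintype ι] in
lemma VV_bound {σ : ι → ℝ} (h2 : ∀ i, |σ i| ≤ 2) {n1 n2 : ℕ}
    (hn1 : 4 ≤ n1) (hn2 : 4 ≤ n2) : ∀ i, |VV σ n1 n2 i| ≤ 2 := by
  have hn1' : (4 : ℝ) ≤ n1 := by exact_mod_cast hn1
  have hn2' : (4 : ℝ) ≤ n2 := by exact_mod_cast hn2
  have hsn : ∀ (n : ℕ), (4 : ℝ) ≤ n → ∀ i, |σ i / n| ≤ 1 / 2 := by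
    intro n hn i
    rw [abs_div, abs_of_pos (by linarith : (0 : ℝ) < n), div_le_iff₀ (by linarith)]
    have h1 := h2 i
    linarith
  rintro (i | i)
  · simp only [VV, Sum.elim_inl]
    exact (hsn n1 hn1' i).trans (by norm_num)
  · simp only [VV, Sum.elim_inr]
    have := hsn n2 hn2' i
    rw [abs_le] at this ⊢
    constructor <;> linarith

omit [Fintype ι] in
lemma VV_irr {σ : ι → ℝ} (hirr : ∀ i, Irrational (σ i)) {n1 n2 : ℕ}
    (hn1 : 4 ≤ n1) (hn2 : 4 ≤ n2) : ∀ i, Irrational (VV σ n1 n2 i) := by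
  rintro (i | i)
  · simp only [VV, Sum.elim_inl]
    exact (hirr i).div_natCast (by omega)
  · simp only [VV, Sum.elim_inr]
    have := ((hirr i).div_natCast (m := n2) (by omega)).natCast_add 1
    simpa using this

lemma measure_preimage_le {α β : Type*} [MeasurableSpace α] [MeasurableSpace β] {μ : Measure α}
    {ν : Measure β} {f : α → β} (h : MeasurePreserving f μ ν) (s : Set β) :
    μ (f ⁻¹' s) ≤ ν s := by
  have := Measure.le_map_apply h.measurable.aemeasurable (μ := μ) s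
  rwa [h.map_eq] at this

lemma measure_preimage_le' {α β : Type*} [MeasurableSpace α] [MeasurableSpace β] {μ : Measure α}
    {ν : Measure β} {f : α → β} (h : MeasurePreserving f μ ν) {s : Set β} {t : Set α}
    (hst : t ⊆ f ⁻¹' s) :
    μ t ≤ ν s := (measure_mono hst).trans (measure_preimage_le h s)

lemma mp_l1 {l : ℕ} (hl : 0 < l) :
    MeasurePreserving (fun x : T2 => l • x.2) volume volume :=
  (mp_nsmul hl).comp measurePreserving_snd

lemma mp_B1 {n : ℕ} (hn : 0 < n) : MeasurePreserving (B1 n) volume volume := by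
  have hn' : (n : ℤ) ≠ 0 := by exact_mod_cast hn.ne'
  have := mp_mat (a := 1) (b := 0) (c := 0) (d := n) (by simpa using hn')
  convert this using 2 with x
  simp [B1]

lemma mp_B2 {n : ℕ} (hn : 0 < n) : MeasurePreserving (B2 n) volume volume := by
  have hn' : (n : ℤ) ≠ 0 := by exact_mod_cast hn.ne'
  have := mp_mat (a := 1) (b := 0) (c := -n) (d := n) (by simpa using hn')
  convert this using 2 with x
  simp only [B2, one_smul, zero_smul, add_zero, neg_smul, natCast_zsmul, smul_sub]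
  congr 1
  abel

lemma mp_l2 {l : ℕ} (hl : 0 < l) :
    MeasurePreserving (fun x : T2 => l • (x.2 - x.1)) volume volume :=
  (measurePreserving_snd (μ := (volume : Measure T)) (ν := (volume : Measure T))).comp (mp_B2 hl)

lemma mp_dil {M : ℕ} (hM : 0 < M) : MeasurePreserving (dil M) volume volume := by
  have hn' : (M : ℤ) ≠ 0 := by exact_mod_cast hM.ne'
  have := mp_mat (a := M) (b := 0) (c := 0) (d := M) (by simpa using hn')
  convert this using 2 with x
  simp [dil]

lemma mp_l12 {l1 l2 : ℕ} (hl1 : 0 < l1) (hl2 : 0 < l2) :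
    MeasurePreserving (fun x : T2 => (l1 • x.2, l2 • (x.2 - x.1))) volume volume := by
  have hn1 : (l1 : ℤ) ≠ 0 := by exact_mod_cast hl1.ne'
  have hn2 : (l2 : ℤ) ≠ 0 := by exact_mod_cast hl2.ne'
  have := mp_mat (a := 0) (b := l1) (c := -l2) (d := l2) (by simpa using ⟨hl1.ne', hl2.ne'⟩)
  convert this using 2 with x
  simp only [zero_smul, zero_add, neg_smul, natCast_zsmul, smul_sub]
  congr 1
  abel

end Pool.Agent.Helper79.Sector
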