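import Mathlib
import Pool.Agent.Helper79.SectorOps

set_option autoImplicit false

open MeasureTheory Set Filter

namespace Pool.Agent.Helper79.Sector

/-- Bump function on the circle. -/
lemma exists_chi {r κ : ℝ} (hr : 0 < r) (hr' : r ≤ 1 / 8) (hκ : 0 < κ) (hκ' : κ ≤ 1 / 8) :
    ∃ χ : T → ℝ, Continuous χ ∧ (∀ y, 0 ≤ χ y) ∧ (∀ y, χ y ≤ 1) ∧
      2 * r ≤ ∫ y, χ y ∧ ∫ y, χ y ≤ 2 * r + κ ∧
      volume {y | χ y ≠ 0 ∧ χ y ≠ 1} ≤ ENNReal.ofReal κ ∧
      volume {y | χ y = 1} ≤ ENNReal.ofReal (2 * r) := by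
  have hvol : ∀ e : ℝ, 2 * e ≤ 1 → volume (Metric.closedBall (0 : T) e) = ENNReal.ofReal (2 * e) := by
    intro e he
    rw [AddCircle.volume_closedBall, min_eq_right he]
  refine ⟨fun y => max 0 (min 1 (1 + (r - ‖y‖) * (2 / κ))), by fun_prop,
    fun y => le_max_left _ _, fun y => max_le zero_le_one (min_le_left _ _), ?_, ?_, ?_, ?_⟩
  · have h1 : ∫ y, (Metric.closedBall (0 : T) r).indicator (fun _ => (1 : ℝ)) y = 2 * r := by
      rw [integral_indicator measurableSet_closedBall]
      simp [Measure.real, hvol r (by linarith), hr.le]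
    rw [← h1]
    apply integral_mono
    · exact (integrable_const _).indicator measurableSet_closedBall
    · exact Continuous.integrable_of_hasCompactSupport (by fun_prop)
        (HasCompactSupport.of_compactSpace _)
    · intro y
      simp only [indicator]
      split_ifs with h
      · rw [mem_closedBall_zero_iff] at h
        have : 0 ≤ (r - ‖y‖) * (2 / κ) := mul_nonneg (by linarith) (by positivity)
        rw [min_eq_left (by linarith)]
        simp
      · exact le_max_left _ _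
  · have h1 : ∫ y, (Metric.closedBall (0 : T) (r + κ / 2)).indicator (fun _ => (1 : ℝ)) y
        = 2 * r + κ := by
      rw [integral_indicator measurableSet_closedBall]
      simp only [integral_const, smul_eq_mul, mul_one, Measure.real,
        Measure.restrict_apply_univ]
      rw [hvol (r + κ / 2) (by linarith), ENNReal.toReal_ofReal (by positivity)]
      ring
    rw [← h1]
    apply integral_mono
    · exact Continuous.integrable_of_hasCompactSupport (by fun_prop)
        (HasCompactSupport.of_compactSpace _)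
    · exact (integrable_const _).indicator measurableSet_closedBall
    · intro y
      simp only [indicator]
      split_ifs with h
      · exact max_le zero_le_one (min_le_left _ _)
      · rw [mem_closedBall_zero_iff, not_le] at h
        apply max_le le_rfl
        apply (min_le_right _ _).trans
        have : (r - ‖y‖) * (2 / κ) ≤ (-(κ / 2)) * (2 / κ) := by
          gcongr; linarith
        have e : (-(κ / 2)) * (2 / κ) = -1 := by field_simp
        linarith
  · have hsub : {y : T | max 0 (min 1 (1 + (r - ‖y‖) * (2 / κ))) ≠ 0 ∧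
        max 0 (min 1 (1 + (r - ‖y‖) * (2 / κ))) ≠ 1} ⊆
        Metric.closedBall (0 : T) (r + κ / 2) \ Metric.closedBall (0 : T) r := by
      rintro y ⟨h0, h1⟩
      refine ⟨?_, ?_⟩
      · rw [mem_closedBall_zero_iff]
        by_contra hc
        push Not at hc
        apply h0
        have : (r - ‖y‖) * (2 / κ) ≤ (-(κ / 2)) * (2 / κ) := by
          gcongr; linarith
        have e : (-(κ / 2)) * (2 / κ) = -1 := by field_simp
        rw [min_eq_right (by linarith), max_eq_left (by linarith)]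
      · rw [mem_closedBall_zero_iff]
        intro hc
        apply h1
        have : 0 ≤ (r - ‖y‖) * (2 / κ) := mul_nonneg (by linarith) (by positivity)
        rw [min_eq_left (by linarith)]
        simp
    refine (measure_mono hsub).trans ?_
    rw [measure_sdiff (Metric.closedBall_subset_closedBall (by linarith))
      measurableSet_closedBall.nullMeasurableSet (measure_ne_top _ _),
      hvol _ (by linarith), hvol _ (by linarith), ← ENNReal.ofReal_sub _ (by positivity)]
    apply ENNReal.ofReal_le_ofReal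
    linarith
  · have hsub : {y : T | max 0 (min 1 (1 + (r - ‖y‖) * (2 / κ))) = 1} ⊆
        Metric.closedBall (0 : T) r := by
      intro y hy
      rw [mem_closedBall_zero_iff]
      by_contra hc
      push Not at hc
      have : (r - ‖y‖) * (2 / κ) < 0 := mul_neg_of_neg_of_pos (by linarith) (by positivity)
      simp only [mem_ofPred_eq] at hy
      have h2 : max 0 (min 1 (1 + (r - ‖y‖) * (2 / κ))) < 1 := by
        apply max_lt zero_lt_one
        exact (min_le_right _ _).trans_lt (by linarith)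
      linarith
    exact (measure_mono hsub).trans (hvol r (by linarith)).le

/-- Data for one round. -/
structure Round {ι : Type} [Fintype ι] (V : ι → ℝ) (Y W : T2 → ℝ) (ρ g q err ε0 : ℝ) : Prop where
  cY : Continuous Y
  cW : Continuous W
  Y0 : ∀ x, 0 ≤ Y x
  W0 : ∀ x, 0 ≤ W x
  W1 : ∀ x, W x ≤ 1
  vY : ∀ a, |vm Y a - q * q| ≤ err
  vW : ∀ a, |vm W a - (1 - q) * (1 - q)| ≤ err
  bad : volume {x | W x ≠ 1 ∧ ¬ ∃ s, ρ ≤ s ∧ s ≤ ρ⁻¹ ∧ q * g / 2 - err ≤ K V s Y x ∧
    (1 - q) / 2 - err ≤ K V s W x} ≤ ENNReal.ofReal ε0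

lemma YY_one (χ : T → ℝ) (l1 l2 n1 n2 : ℕ) (x : T2) :
    YY χ (fun _ => 1) l1 l2 n1 n2 x = X1 χ l1 x * X2 χ l2 x := by
  simp [YY]

lemma X1_compl (χ : T → ℝ) (l : ℕ) (x : T2) : X1 (fun y => 1 - χ y) l x = 1 - X1 χ l x := rfl
lemma X2_compl (χ : T → ℝ) (l : ℕ) (x : T2) : X2 (fun y => 1 - χ y) l x = 1 - X2 χ l x := rfl

lemma exists_round {ι : Type} [Fintype ι] [Nonempty ι] {σ : ι → ℝ} {F : T2 → ℝ} {ρ g ε κ r : ℝ}
    (hσ : ∀ i, |σ i| ≤ 2) (hF : Continuous F) (hF0 : ∀ x, 0 ≤ F x)
    (hm : ∀ a, ∫ y, F (a, y) = 1) (hρ : 0 < ρ)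
    (hbad : volume {x | ∀ s, ρ ≤ s → s ≤ ρ⁻¹ → K σ s F x < g} ≤ ENNReal.ofReal ε)
    (hε : 0 ≤ ε)
    {χ : T → ℝ} (hχ : Continuous χ) (hχ0 : ∀ y, 0 ≤ χ y) (hχ1 : ∀ y, χ y ≤ 1)
    (hκ : volume {y | χ y ≠ 0 ∧ χ y ≠ 1} ≤ ENNReal.ofReal κ) (hκ0 : 0 ≤ κ)
    (hr : volume {y | χ y = 1} ≤ ENNReal.ofReal r) (hr0 : 0 ≤ r)
    {err : ℝ} (herr : 0 < err) :
    ∃ n1 n2 : ℕ, 4 ≤ n1 ∧ 4 ≤ n2 ∧ ∃ Y W : T2 → ℝ,
      Round (VV σ n1 n2) Y W ρ g (∫ y, χ y) err (2 * κ + r * r + 2 * ε) := by
  obtain ⟨l1, l2, n1, n2, hl1, hl2, hn1, hn2, E, E'⟩ := exists_params hχ hF hm hρ herr hσ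
  have hχ' : Continuous (fun y => 1 - χ y) := continuous_const.sub hχ
  have hone : Continuous (fun _ : T2 => (1 : ℝ)) := continuous_const
  have hq : ∫ y, (1 - χ y) = 1 - ∫ y, χ y := by
    rw [integral_sub (integrable_const _) (Continuous.integrable_of_hasCompactSupport hχ
      (HasCompactSupport.of_compactSpace _))]
    simp
  rw [hq] at E'
  set q := ∫ y, χ y with hqdef
  have hq0 : 0 ≤ q := integral_nonneg hχ0
  have hcompl0 : ∀ y, 0 ≤ 1 - χ y := fun y => by linarith [hχ1 y]
  have hcompl1 : ∀ y, 1 - χ y ≤ 1 := fun y => by linarith [hχ0 y]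
  refine ⟨n1, n2, hn1, hn2, YY χ F l1 l2 n1 n2, YY (fun y => 1 - χ y) (fun _ => 1) l1 l2 n1 n2,
    continuous_YY hχ hF _ _ _ _, continuous_YY hχ' hone _ _ _ _, ?_, ?_, ?_, E.v, E'.v, ?_⟩
  · intro x
    unfold YY X1 X2
    exact mul_nonneg (mul_nonneg (mul_nonneg (hχ0 _) (hχ0 _)) (hF0 _)) (hF0 _)
  · intro x
    rw [YY_one]
    exact mul_nonneg (hcompl0 _) (hcompl0 _)
  · intro x
    rw [YY_one]
    exact mul_le_one₀ (hcompl1 _) (hcompl0 _) (hcompl1 _)
  · have hsub : {x | YY (fun y => 1 - χ y) (fun _ => 1) l1 l2 n1 n2 x ≠ 1 ∧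
        ¬ ∃ s, ρ ≤ s ∧ s ≤ ρ⁻¹ ∧ q * g / 2 - err ≤ K (VV σ n1 n2) s (YY χ F l1 l2 n1 n2) x ∧
        (1 - q) / 2 - err ≤
          K (VV σ n1 n2) s (YY (fun y => 1 - χ y) (fun _ => 1) l1 l2 n1 n2) x} ⊆
        ((fun x : T2 => l1 • x.2) ⁻¹' {y | χ y ≠ 0 ∧ χ y ≠ 1} ∪
        (fun x : T2 => l2 • (x.2 - x.1)) ⁻¹' {y | χ y ≠ 0 ∧ χ y ≠ 1}) ∪
        (fun x : T2 => (l1 • x.2, l2 • (x.2 - x.1))) ⁻¹' ({y | χ y = 1} ×ˢ {y | χ y = 1}) ∪
        (B1 n1 ⁻¹' {x | ∀ s, ρ ≤ s → s ≤ ρ⁻¹ → K σ s F x < g} ∪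
        B2 n2 ⁻¹' {x | ∀ s, ρ ≤ s → s ≤ ρ⁻¹ → K σ s F x < g}) := by
      rintro x ⟨hW, hgood⟩
      by_contra hc
      simp only [mem_union, mem_preimage, mem_ofPred_eq, mem_prod, not_or] at hc
      obtain ⟨⟨⟨c1, c2⟩, c3⟩, c4, c5⟩ := hc
      have d1 : X1 χ l1 x = 0 ∨ X1 χ l1 x = 1 := by
        unfold X1; tauto
      have d2 : X2 χ l2 x = 0 ∨ X2 χ l2 x = 1 := by
        unfold X2; tauto
      have d3 : ¬ (X1 χ l1 x = 1 ∧ X2 χ l2 x = 1) := by
        unfold X1 X2; tauto
      rw [YY_one, X1_compl, X2_compl] at hW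
      have KW : ∀ s, ρ ≤ s → s ≤ ρ⁻¹ → X1 χ l1 x + X2 χ l2 x = 1 → (1 - q) / 2 - err ≤
          K (VV σ n1 n2) s (YY (fun y => 1 - χ y) (fun _ => 1) l1 l2 n1 n2) x := by
        intro s hs hs' hX
        rw [K_VV]
        have e1 : (1 - q) * (1 - X1 χ l1 x) * K σ s (fun _ => 1) (B1 n1 x) - err ≤
            K (fun i => σ i / n1) s (YY (fun y => 1 - χ y) (fun _ => 1) l1 l2 n1 n2) x := by
          have := fun i => (abs_le.1 (E'.g1 s hs hs' i x)).1
          simp only [X1_compl] at this
          unfold K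
          have hc : (0 : ℝ) < Fintype.card ι := by exact_mod_cast Fintype.card_pos
          have h1 : ∑ i, ((1 - q) * (1 - X1 χ l1 x) * A (σ i) s (fun _ => 1) (B1 n1 x) - err) ≤
              ∑ i, A (σ i / n1) s (YY (fun y => 1 - χ y) (fun _ => 1) l1 l2 n1 n2) x :=
            Finset.sum_le_sum fun i _ => by linarith [this i]
          rw [Finset.sum_sub_distrib, Finset.sum_const, Finset.card_univ, nsmul_eq_mul,
            ← Finset.mul_sum] at h1
          calc _ = (Fintype.card ι : ℝ)⁻¹ * ((1 - q) * (1 - X1 χ l1 x) *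
                ∑ i, A (σ i) s (fun _ => 1) (B1 n1 x) - Fintype.card ι * err) := by
                field_simp
            _ ≤ _ := by
                apply mul_le_mul_of_nonneg_left h1 (by positivity)
        have e2 : (1 - q) * (1 - X2 χ l2 x) * K σ s (fun _ => 1) (B2 n2 x) - err ≤
            K (fun i => 1 + σ i / n2) s (YY (fun y => 1 - χ y) (fun _ => 1) l1 l2 n1 n2) x := by
          have := fun i => (abs_le.1 (E'.g2 s hs hs' i x)).1
          simp only [X2_compl] at this
          unfold K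
          have hc : (0 : ℝ) < Fintype.card ι := by exact_mod_cast Fintype.card_pos
          have h1 : ∑ i, ((1 - q) * (1 - X2 χ l2 x) * A (σ i) s (fun _ => 1) (B2 n2 x) - err) ≤
              ∑ i, A (1 + σ i / n2) s (YY (fun y => 1 - χ y) (fun _ => 1) l1 l2 n1 n2) x :=
            Finset.sum_le_sum fun i _ => by linarith [this i]
          rw [Finset.sum_sub_distrib, Finset.sum_const, Finset.card_univ, nsmul_eq_mul,
            ← Finset.mul_sum] at h1
          calc _ = (Fintype.card ι : ℝ)⁻¹ * ((1 - q) * (1 - X2 χ l2 x) *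
                ∑ i, A (σ i) s (fun _ => 1) (B2 n2 x) - Fintype.card ι * err) := by
                field_simp
            _ ≤ _ := by
                apply mul_le_mul_of_nonneg_left h1 (by positivity)
        rw [K_one] at e1 e2
        nlinarith
      have KY1 : ∀ s, ρ ≤ s → s ≤ ρ⁻¹ → q * X1 χ l1 x * K σ s F (B1 n1 x) - err ≤
          K (fun i => σ i / n1) s (YY χ F l1 l2 n1 n2) x := by
        intro s hs hs'
        have := fun i => (abs_le.1 (E.g1 s hs hs' i x)).1
        unfold K
        have hc : (0 : ℝ) < Fintype.card ι := by exact_mod_cast Fintype.card_pos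
        have h1 : ∑ i, (q * X1 χ l1 x * A (σ i) s F (B1 n1 x) - err) ≤
            ∑ i, A (σ i / n1) s (YY χ F l1 l2 n1 n2) x :=
          Finset.sum_le_sum fun i _ => by linarith [this i]
        rw [Finset.sum_sub_distrib, Finset.sum_const, Finset.card_univ, nsmul_eq_mul,
          ← Finset.mul_sum] at h1
        calc _ = (Fintype.card ι : ℝ)⁻¹ * (q * X1 χ l1 x *
              ∑ i, A (σ i) s F (B1 n1 x) - Fintype.card ι * err) := by
              field_simp
          _ ≤ _ := by
              apply mul_le_mul_of_nonneg_left h1 (by positivity)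
      have KY2 : ∀ s, ρ ≤ s → s ≤ ρ⁻¹ → q * X2 χ l2 x * K σ s F (B2 n2 x) - err ≤
          K (fun i => 1 + σ i / n2) s (YY χ F l1 l2 n1 n2) x := by
        intro s hs hs'
        have := fun i => (abs_le.1 (E.g2 s hs hs' i x)).1
        unfold K
        have hc : (0 : ℝ) < Fintype.card ι := by exact_mod_cast Fintype.card_pos
        have h1 : ∑ i, (q * X2 χ l2 x * A (σ i) s F (B2 n2 x) - err) ≤
            ∑ i, A (1 + σ i / n2) s (YY χ F l1 l2 n1 n2) x :=
          Finset.sum_le_sum fun i _ => by linarith [this i]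
        rw [Finset.sum_sub_distrib, Finset.sum_const, Finset.card_univ, nsmul_eq_mul,
          ← Finset.mul_sum] at h1
        calc _ = (Fintype.card ι : ℝ)⁻¹ * (q * X2 χ l2 x *
              ∑ i, A (σ i) s F (B2 n2 x) - Fintype.card ι * err) := by
              field_simp
          _ ≤ _ := by
              apply mul_le_mul_of_nonneg_left h1 (by positivity)
      rcases d1 with d1 | d1
      · rcases d2 with d2 | d2
        · rw [d1, d2] at hW
          norm_num at hW
        · push Not at c5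
          obtain ⟨s, hs, hs', hK⟩ := c5
          apply hgood
          refine ⟨s, hs, hs', ?_, KW s hs hs' (by rw [d1, d2]; norm_num)⟩
          rw [K_VV]
          have a1 := KY1 s hs hs'
          have a2 := KY2 s hs hs'
          rw [d1] at a1
          rw [d2] at a2
          have a3 : q * g ≤ q * K σ s F (B2 n2 x) := mul_le_mul_of_nonneg_left hK hq0
          linarith
      · rcases d2 with d2 | d2
        · push Not at c4
          obtain ⟨s, hs, hs', hK⟩ := c4
          apply hgood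
          refine ⟨s, hs, hs', ?_, KW s hs hs' (by rw [d1, d2]; norm_num)⟩
          rw [K_VV]
          have a1 := KY1 s hs hs'
          have a2 := KY2 s hs hs'
          rw [d1] at a1
          rw [d2] at a2
          have a3 : q * g ≤ q * K σ s F (B1 n1 x) := mul_le_mul_of_nonneg_left hK hq0
          linarith
        · exact d3 ⟨d1, d2⟩
    refine (measure_mono hsub).trans ?_
    refine (measure_union_le _ _).trans ?_
    have m1 := (measure_preimage_le (mp_l1 hl1) {y | χ y ≠ 0 ∧ χ y ≠ 1}).trans hκ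
    have m2 := (measure_preimage_le (mp_l2 hl2) {y | χ y ≠ 0 ∧ χ y ≠ 1}).trans hκ
    have m3 : volume ((fun x : T2 => (l1 • x.2, l2 • (x.2 - x.1))) ⁻¹'
        ({y | χ y = 1} ×ˢ {y | χ y = 1})) ≤ ENNReal.ofReal (r * r) := by
      refine (measure_preimage_le (mp_l12 hl1 hl2) _).trans ?_
      rw [Measure.volume_eq_prod, Measure.prod_prod, ENNReal.ofReal_mul hr0]
      gcongr
    have m4 := (measure_preimage_le (mp_B1 (n := n1) (by omega))
      {x | ∀ s, ρ ≤ s → s ≤ ρ⁻¹ → K σ s F x < g}).trans hbad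
    have m5 := (measure_preimage_le (mp_B2 (n := n2) (by omega))
      {x | ∀ s, ρ ≤ s → s ≤ ρ⁻¹ → K σ s F x < g}).trans hbad
    calc _ ≤ (ENNReal.ofReal κ + ENNReal.ofReal κ) + ENNReal.ofReal (r * r) +
          (ENNReal.ofReal ε + ENNReal.ofReal ε) := by
          refine add_le_add ?_ ?_
          · refine (measure_union_le _ _).trans (add_le_add ?_ m3)
            exact (measure_union_le _ _).trans (add_le_add m1 m2)
          · exact (measure_union_le _ _).trans (add_le_add m4 m5)
      _ = ENNReal.ofReal (2 * κ + r * r + 2 * ε) := by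
          rw [← ENNReal.ofReal_add hκ0 hκ0, ← ENNReal.ofReal_add (by positivity) (by positivity),
            ← ENNReal.ofReal_add hε hε, ← ENNReal.ofReal_add (by positivity) (by positivity)]
          congr 1
          ring

end Pool.Agent.Helper79.Sector
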