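import Mathlib
import Pool.Agent.Helper79.SectorRound

set_option autoImplicit false

open MeasureTheory Set Filter

namespace Pool.Agent.Helper79.Sector

/-- The sequence of mean values. -/
noncomputable def fs (q g : ℝ) : ℕ → ℝ
  | 0 => 1
  | j + 1 => (2 - (1 - q) * fs q g j) / (q * g) * (q * q) + (1 - q) * (1 - q) * fs q g j

lemma fs_zero (q g : ℝ) : fs q g 0 = 1 := rfl
lemma fs_succ (q g : ℝ) (j : ℕ) : fs q g (j + 1) =
  (2 - (1 - q) * fs q g j) / (q * g) * (q * q) + (1 - q) * (1 - q) * fs q g j := rfl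

lemma fs_bound {q g : ℝ} (hq : 0 < q) (hq' : q ≤ 1 / 4) (hg : 3 / 4 ≤ g) (j : ℕ) :
    0 ≤ fs q g j ∧ fs q g j ≤ 1 := by
  have hg0 : 0 < g := by linarith
  induction j with
  | zero => rw [fs_zero]; norm_num
  | succ j ih =>
    obtain ⟨h0, h1⟩ := ih
    rw [fs_succ]
    set f := fs q g j
    have e : (2 - (1 - q) * f) / (q * g) * (q * q) = (2 - (1 - q) * f) * q / g := by
      field_simp
    rw [e]
    have hf : (1 - q) * f ≤ 1 := by nlinarith
    constructor
    · have : 0 ≤ (2 - (1 - q) * f) * q / g := by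
        apply div_nonneg (mul_nonneg (by linarith) hq.le) hg0.le
      have h2 : 0 ≤ (1 - q) * (1 - q) * f := by
        apply mul_nonneg (mul_nonneg _ _) h0 <;> linarith
      linarith
    · rw [div_add' _ _ _ hg0.ne', div_le_one hg0]
      have k1 : 0 ≤ (1 - f) * ((1 - q) * ((1 - q) * g - q)) := by
        apply mul_nonneg (by linarith) (mul_nonneg (by linarith) _)
        nlinarith
      have k2 : 0 ≤ q * ((g - 3 / 4) * (2 - q)) := by
        apply mul_nonneg hq.le (mul_nonneg (by linarith) (by linarith))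
      have k3 : 0 ≤ q * (1 / 4 - q) := mul_nonneg hq.le (by linarith)
      nlinarith

/-- The limit of the mean values. -/
noncomputable def fstar (q g : ℝ) : ℝ := 2 / (g * (2 - q) + (1 - q))

lemma fs_sub {q g : ℝ} (hq : 0 < q) (hq' : q ≤ 1 / 4) (hg : 3 / 4 ≤ g) (j : ℕ) :
    fs q g j - fstar q g = ((1 - q) * (1 - q - q / g)) ^ j * (1 - fstar q g) := by
  have hg0 : 0 < g := by linarith
  have hd : 0 < g * (2 - q) + (1 - q) := by
    have : 0 < g * (2 - q) := mul_pos hg0 (by linarith)
    linarith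
  induction j with
  | zero => simp [fs_zero]
  | succ j ih =>
    rw [pow_succ, mul_comm (_ ^ j), mul_assoc, ← ih, fs_succ]
    unfold fstar
    field_simp
    ring

lemma fs_lower {q g : ℝ} (hq : 0 < q) (hq' : q ≤ 1 / 4) (hg : 3 / 4 ≤ g) (j : ℕ) :
    fstar q g ≤ fs q g j := by
  have h := fs_sub hq hq' hg j
  have hg0 : 0 < g := by linarith
  have h1 : 0 ≤ 1 - fstar q g := by
    unfold fstar
    have : 2 ≤ g * (2 - q) + (1 - q) := by nlinarith
    rw [sub_nonneg, div_le_one (by linarith)]
    exact this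
  have h2 : 0 ≤ (1 - q) * (1 - q - q / g) := by
    apply mul_nonneg (by linarith)
    have : q / g ≤ 1 / 2 := by
      rw [div_le_iff₀ hg0]; linarith
    linarith
  have : 0 ≤ ((1 - q) * (1 - q - q / g)) ^ j * (1 - fstar q g) := by positivity
  linarith

lemma fs_upper {q g : ℝ} (hq : 0 < q) (hq' : q ≤ 1 / 4) (hg : 3 / 4 ≤ g) (j : ℕ) :
    fs q g j ≤ fstar q g + (1 - q) ^ j := by
  have h := fs_sub hq hq' hg j
  have hg0 : 0 < g := by linarith
  have h0 : 0 ≤ fstar q g := by
    unfold fstar
    apply div_nonneg (by norm_num)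
    have : 0 < g * (2 - q) := mul_pos hg0 (by linarith)
    linarith
  have h1 : 0 ≤ 1 - fstar q g := by
    unfold fstar
    have : 2 ≤ g * (2 - q) + (1 - q) := by nlinarith
    rw [sub_nonneg, div_le_one (by linarith)]
    exact this
  have h3 : q / g ≤ 1 / 2 := by
      rw [div_le_iff₀ hg0]; linarith
  have h2 : 0 ≤ (1 - q) * (1 - q - q / g) := by
    apply mul_nonneg (by linarith)
    linarith
  have h4 : (1 - q) * (1 - q - q / g) ≤ 1 - q := by
    have : 0 ≤ q / g := by positivity
    nlinarith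
  have h5 : ((1 - q) * (1 - q - q / g)) ^ j ≤ (1 - q) ^ j := pow_le_pow_left₀ h2 h4 j
  have h6 : 0 ≤ (1 - q) ^ j := pow_nonneg (by linarith) j
  nlinarith [mul_nonneg (sub_nonneg.2 h5) h1, mul_nonneg h6 h0]

lemma vm_abs_le {W : T2 → ℝ} (hW : Continuous W) (W0 : ∀ x, 0 ≤ W x) (W1 : ∀ x, W x ≤ 1) (a : T) :
    0 ≤ vm W a ∧ vm W a ≤ 1 := by
  constructor
  · exact integral_nonneg fun y => W0 _
  · unfold vm
    have : ∫ y, W (a, y) ≤ ∫ _y : T, (1 : ℝ) := by
      apply integral_mono
      · exact Continuous.integrable_of_hasCompactSupport (by fun_prop)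
          (HasCompactSupport.of_compactSpace _)
      · exact integrable_const _
      · intro y; exact W1 _
    simpa using this

lemma cont_integrable {F : T2 → ℝ} (hF : Continuous F) : Integrable F :=
  Continuous.integrable_of_hasCompactSupport hF (HasCompactSupport.of_compactSpace _)

lemma integral_eq_vm {F : T2 → ℝ} (hF : Continuous F) : ∫ x, F x = ∫ a, vm F a := by
  have := integral_prod (μ := (volume : Measure T)) (ν := (volume : Measure T)) F
    (cont_integrable hF)
  rw [Measure.volume_eq_prod, this]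
  rfl

lemma continuous_vm {F : T2 → ℝ} (hF : Continuous F) : Continuous (vm F) := by
  have := continuous_parametric_integral_of_continuous (μ := (volume : Measure T))
    (f := fun (a : T) (y : T) => F (a, y)) (s := univ) (by fun_prop) isCompact_univ
  simp only [Measure.restrict_univ] at this
  exact this

lemma integral_lower {F : T2 → ℝ} (hF : Continuous F) {m : ℝ} (h : ∀ a, m ≤ vm F a) :
    m ≤ ∫ x, F x := by
  rw [integral_eq_vm hF]
  have : ∫ _a : T, m ≤ ∫ a, vm F a := by
    apply integral_mono (integrable_const _)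
    · exact Continuous.integrable_of_hasCompactSupport (continuous_vm hF)
        (HasCompactSupport.of_compactSpace _)
    · intro a; exact h a
  simpa using this

/-- State after some rounds. -/
structure State {ι : Type} [Fintype ι] (V : ι → ℝ) (F : T2 → ℝ) (ρ f δ β : ℝ) : Prop where
  c : Continuous F
  pos : ∀ x, 0 ≤ F x
  ρ0 : 0 < ρ
  ρ1 : ρ ≤ 1
  vm : ∀ a, |vm F a - f| ≤ δ
  bad : volume {x | ∀ s, ρ ≤ s → s ≤ ρ⁻¹ → K V s F x < 1 - δ} ≤ ENNReal.ofReal β

lemma state_zero {ι : Type} [Fintype ι] [Nonempty ι] (V : ι → ℝ) :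
    State V (fun _ => 1) 1 1 0 0 := by
  refine ⟨continuous_const, fun _ => zero_le_one, zero_lt_one, le_rfl, fun a => ?_, ?_⟩
  · simp [vm]
  · have : {x | ∀ s : ℝ, 1 ≤ s → s ≤ 1⁻¹ → K V s (fun _ => 1) x < 1 - 0} = ∅ := by
      ext x
      simp only [mem_ofPred_eq, mem_empty_iff_false, iff_false, not_forall, not_lt]
      refine ⟨1, le_rfl, by norm_num, ?_⟩
      rw [K_one]; norm_num
    rw [this]; simp

lemma state_succ {ι : Type} [Fintype ι] [Nonempty ι] {V : ι → ℝ} (hV : ∀ i, |V i| ≤ 2)
    (hirr : ∀ i, Irrational (V i)) {Y W : T2 → ℝ} {ρ g q err ε0 : ℝ}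
    (R : Round V Y W ρ g q err ε0) (hρ : 0 < ρ) (hρ1 : ρ ≤ 1) (herr : 0 < err) (herr1 : err ≤ 1)
    (hq : 0 < q) (hq1 : q ≤ 1) (hg : 0 < g) (hε0 : 0 ≤ ε0)
    {F : T2 → ℝ} {ρ' f δ β : ℝ} (S : State V F ρ' f δ β) (hf0 : 0 ≤ f) (hf1 : f ≤ 1)
    (hδ : 0 ≤ δ) (hβ : 0 ≤ β) :
    ∃ F' ρ'', State V F' ρ'' ((2 - (1 - q) * f) / (q * g) * (q * q) + (1 - q) * (1 - q) * f)
      (δ + (2 / (q * g) + 2) * err) (β + ε0) := by
  set c := (2 - (1 - q) * f) / (q * g) with hc
  have hqg : 0 < q * g := mul_pos hq hg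
  have hqf : 0 ≤ (1 - q) * f := mul_nonneg (by linarith) hf0
  have hc0 : 0 ≤ c := div_nonneg (by nlinarith) hqg.le
  have hcle : c ≤ 2 / (q * g) := by
    rw [hc]; gcongr; linarith
  have hcq : c * (q * g) = 2 - (1 - q) * f := by
    rw [hc]; field_simp
  have hint : ∀ s x, (f - δ) * K V s W x ≤ (∫ y, F y) * K V s W x := by
    intro s x
    apply mul_le_mul_of_nonneg_right _ (K_nonneg R.W0 _ _ _)
    apply integral_lower S.c
    intro a
    have := (abs_le.1 (S.vm a)).1
    linarith
  obtain ⟨d, hd, hunif⟩ := unif2 R.cW (ε := err) herr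
  have ev1 : ∀ᶠ M : ℕ in atTop, ∀ i, ∀ s : ℝ, ρ ≤ s → s ≤ ρ⁻¹ → ∀ x : T2,
      |A (V i) s (fun y => W y * F (dil M y)) x - (∫ y, F y) * A (V i) s W x| ≤ err := by
    rw [eventually_all]
    intro i
    exact step_dil (hirr i) R.cW S.c hρ herr
  have ev2 := step_dil_vert R.cW S.c herr
  have ev3 : ∀ᶠ M : ℕ in atTop, 2 * ρ'⁻¹ / d < (M : ℝ) :=
    (tendsto_natCast_atTop_atTop (R := ℝ)).eventually (eventually_gt_atTop _)
  obtain ⟨M, ⟨h1, h2⟩, h3, hM⟩ := ((ev1.and ev2).and (ev3.and (eventually_gt_atTop 0))).exists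
  have hMr : (0 : ℝ) < M := by exact_mod_cast hM
  have hMr1 : (1 : ℝ) ≤ M := by exact_mod_cast hM
  have cd : Continuous (fun y => F (dil M y)) := S.c.comp (continuous_dil M)
  have cWd : Continuous (fun y => W y * F (dil M y)) := R.cW.mul cd
  have cYc : Continuous (fun y => c * Y y) := continuous_const.mul R.cY
  have hρ'M : 0 < ρ' / M := div_pos S.ρ0 hMr
  refine ⟨fun y => c * Y y + W y * F (dil M y), min ρ (ρ' / M), cYc.add cWd, ?_,
    lt_min hρ hρ'M, (min_le_left _ _).trans hρ1, ?_, ?_⟩
  · intro x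
    exact add_nonneg (mul_nonneg hc0 (R.Y0 x)) (mul_nonneg (R.W0 x) (S.pos _))
  · intro a
    have e : vm (fun y => c * Y y + W y * F (dil M y)) a
        = c * vm Y a + vm (fun y => W y * F (dil M y)) a := by
      unfold vm
      rw [← integral_const_mul, ← integral_add]
      · exact Continuous.integrable_of_hasCompactSupport
          (cYc.comp (Continuous.prodMk_right a)) (HasCompactSupport.of_compactSpace _)
      · exact Continuous.integrable_of_hasCompactSupport
          (cWd.comp (Continuous.prodMk_right a)) (HasCompactSupport.of_compactSpace _)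
    rw [e]
    have a1 := R.vY a
    have a2 := R.vW a
    have a3 := h2 a
    have a4 := S.vm (M • a)
    obtain ⟨w0, w1⟩ := vm_abs_le R.cW R.W0 R.W1 a
    rw [abs_le] at a1 a2 a3 a4 ⊢
    set vY := vm Y a
    set vW := vm W a
    set vF := vm F (M • a)
    set vWF := vm (fun y => W y * F (dil M y)) a
    have b1 : c * (vY - q * q) ≤ c * err := mul_le_mul_of_nonneg_left a1.2 hc0
    have b1' : c * (-err) ≤ c * (vY - q * q) := mul_le_mul_of_nonneg_left a1.1 hc0
    have b2 : (vF - f) * vW ≤ δ * vW := mul_le_mul_of_nonneg_right a4.2 w0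
    have b2' : (-δ) * vW ≤ (vF - f) * vW := mul_le_mul_of_nonneg_right a4.1 w0
    have b3 : δ * vW ≤ δ := by nlinarith
    have b4 : f * (vW - (1 - q) * (1 - q)) ≤ f * err := mul_le_mul_of_nonneg_left a2.2 hf0
    have b4' : f * (-err) ≤ f * (vW - (1 - q) * (1 - q)) := mul_le_mul_of_nonneg_left a2.1 hf0
    have b5 : f * err ≤ err := by nlinarith
    have b6 : c * err ≤ 2 / (q * g) * err := mul_le_mul_of_nonneg_right hcle herr.le
    constructor <;> nlinarith
  · have hsub : {x | ∀ s, min ρ (ρ' / M) ≤ s → s ≤ (min ρ (ρ' / M))⁻¹ →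
        K V s (fun y => c * Y y + W y * F (dil M y)) x < 1 - (δ + (2 / (q * g) + 2) * err)} ⊆
        (dil M) ⁻¹' {x | ∀ s, ρ' ≤ s → s ≤ ρ'⁻¹ → K V s F x < 1 - δ} ∪
        {x | W x ≠ 1 ∧ ¬ ∃ s, ρ ≤ s ∧ s ≤ ρ⁻¹ ∧ q * g / 2 - err ≤ K V s Y x ∧
          (1 - q) / 2 - err ≤ K V s W x} := by
      intro x hx
      simp only [mem_ofPred_eq] at hx
      by_contra hc'
      simp only [mem_union, mem_preimage, mem_ofPred_eq, not_or] at hc'
      obtain ⟨k1, k2⟩ := hc'
      push Not at k1
      by_cases hW : W x = 1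
      · obtain ⟨s, hs, hs', hK⟩ := k1
        have hs0 : 0 < s := S.ρ0.trans_le hs
        have m1 : min ρ (ρ' / M) ≤ s / M :=
          (min_le_right _ _).trans (by gcongr)
        have m2 : s / M ≤ (min ρ (ρ' / M))⁻¹ := by
          have t1 : (ρ' / M)⁻¹ ≤ (min ρ (ρ' / M))⁻¹ := by
            apply inv_anti₀ (lt_min hρ hρ'M) (min_le_right _ _)
          refine le_trans ?_ t1
          have t2 : s / M ≤ s := div_le_self hs0.le hMr1
          have t3 : ρ'⁻¹ ≤ (ρ' / M)⁻¹ := by
            apply inv_anti₀ hρ'M (div_le_self S.ρ0.le hMr1)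
          linarith
        have hlt := hx (s / M) m1 m2
        have hsM : s / M * 2 < d := by
          have : ρ'⁻¹ * 2 < d * M := by
            rw [div_lt_iff₀ hd] at h3; linarith
          rw [div_mul_eq_mul_div, div_lt_iff₀ hMr]
          nlinarith
        have hsM0 : 0 < s / M := div_pos hs0 hMr
        have key : (1 - err) * K V s F (dil M x) - 0 ≤
            K V (s / M) (fun y => c * Y y + W y * F (dil M y)) x := by
          apply K_le_of
          intro i
          rw [sub_zero]
          have e1 : A (V i) (s / M) (fun y => F (dil M y)) x = A (V i) s F (dil M x) := by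
            rw [A_dil]
            congr 1
            field_simp
          rw [← e1, ← A_const_mul]
          refine A_mono_on (F := fun y => (1 - err) * F (dil M y))
            (G := fun y => c * Y y + W y * F (dil M y))
            (continuous_const.mul cd) (cYc.add cWd) (V i) (s / M) x ?_
          intro t ht0 ht1
          have hWt : 1 - err ≤ W (flow x (s / M * t) (s / M * V i * t)) := by
            have d1 : |s / M * t - 0| ≤ d := by
              rw [sub_zero, abs_mul, abs_of_pos hsM0, abs_of_nonneg ht0]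
              nlinarith
            have d2 : |s / M * V i * t - 0| ≤ d := by
              rw [sub_zero, abs_mul, abs_mul, abs_of_pos hsM0, abs_of_nonneg ht0]
              have := abs_nonneg (V i)
              calc s / M * |V i| * t ≤ s / M * 2 * 1 := by gcongr; exact hV i
                _ ≤ d := by linarith
            have := hunif x _ _ _ _ d1 d2
            have e0 : flow x 0 0 = x := by simp [flow]
            rw [e0, hW, abs_le] at this
            linarith [this.1]
          have hY := R.Y0 (flow x (s / M * t) (s / M * V i * t))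
          have hFp := S.pos (dil M (flow x (s / M * t) (s / M * V i * t)))
          have := mul_le_mul_of_nonneg_right hWt hFp
          have := mul_nonneg hc0 hY
          linarith
        have hlow : 1 - δ - err ≤ (1 - err) * K V s F (dil M x) := by
          have : (1 - err) * (1 - δ) ≤ (1 - err) * K V s F (dil M x) :=
            mul_le_mul_of_nonneg_left hK (by linarith)
          nlinarith [mul_nonneg herr.le hδ]
        have : err ≤ (2 / (q * g) + 2) * err := by
          have : 0 ≤ 2 / (q * g) := by positivity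
          nlinarith
        linarith
      · have hgood : ∃ s, ρ ≤ s ∧ s ≤ ρ⁻¹ ∧ q * g / 2 - err ≤ K V s Y x ∧
          (1 - q) / 2 - err ≤ K V s W x := by
          by_contra hno
          exact k2 ⟨hW, hno⟩
        obtain ⟨s, hs, hs', hY, hWs⟩ := hgood
        have m1 : min ρ (ρ' / M) ≤ s := (min_le_left _ _).trans hs
        have m2 : s ≤ (min ρ (ρ' / M))⁻¹ :=
          hs'.trans (inv_anti₀ (lt_min hρ hρ'M) (min_le_left _ _))
        have hlt := hx s m1 m2
        have e1 : K V s (fun y => c * Y y + W y * F (dil M y)) x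
            = c * K V s Y x + K V s (fun y => W y * F (dil M y)) x := by
          rw [K_add cYc cWd, K_const_mul]
        have e2 : (∫ y, F y) * K V s W x - err ≤ K V s (fun y => W y * F (dil M y)) x := by
          apply K_le_of
          intro i
          have := (abs_le.1 (h1 i s hs hs' x)).1
          linarith
        have e3 := hint s x
        have hKW1 : K V s W x ≤ 1 := by
          have := K_mono R.cW (continuous_const (y := (1 : ℝ))) R.W1 V s x
          rwa [K_one] at this
        have hKW0 := K_nonneg R.W0 V s x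
        have e4 : c * (q * g / 2 - err) ≤ c * K V s Y x := mul_le_mul_of_nonneg_left hY hc0
        have e5 : f * ((1 - q) / 2 - err) ≤ f * K V s W x := mul_le_mul_of_nonneg_left hWs hf0
        have e6 : δ * K V s W x ≤ δ := by nlinarith
        have e7 : f * err ≤ err := by nlinarith
        have e8 : c * err ≤ 2 / (q * g) * err := mul_le_mul_of_nonneg_right hcle herr.le
        nlinarith
    refine (measure_mono hsub).trans ((measure_union_le _ _).trans ?_)
    rw [ENNReal.ofReal_add hβ hε0]
    exact add_le_add ((measure_preimage_le (mp_dil hM) _).trans S.bad) R.bad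

lemma state_iter {ι : Type} [Fintype ι] [Nonempty ι] {V : ι → ℝ} (hV : ∀ i, |V i| ≤ 2)
    (hirr : ∀ i, Irrational (V i)) {Y W : T2 → ℝ} {ρ g q err ε0 : ℝ}
    (R : Round V Y W ρ g q err ε0) (hρ : 0 < ρ) (hρ1 : ρ ≤ 1) (herr : 0 < err) (herr1 : err ≤ 1)
    (hq : 0 < q) (hq' : q ≤ 1 / 4) (hg : 3 / 4 ≤ g) (hε0 : 0 ≤ ε0) (j : ℕ) :
    ∃ F ρ', State V F ρ' (fs q g j) (j * ((2 / (q * g) + 2) * err)) (j * ε0) := by
  have hg0 : 0 < g := by linarith
  induction j with
  | zero =>
    refine ⟨fun _ => 1, 1, ?_⟩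
    simpa [fs_zero] using state_zero V
  | succ j ih =>
    obtain ⟨F, ρ', S⟩ := ih
    have hb := fs_bound hq hq' hg j
    have hqg : 0 < q * g := mul_pos hq hg0
    obtain ⟨F', ρ'', S'⟩ := state_succ hV hirr R hρ hρ1 herr herr1 hq (by linarith) hg0 hε0 S
      hb.1 hb.2 (by positivity) (by positivity)
    refine ⟨F', ρ'', ?_⟩
    rw [fs_succ]
    convert S' using 1
    · push_cast; ring
    · push_cast; ring

end Pool.Agent.Helper79.Sector
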