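import Mathlib
import Pool.Agent.Helper79.SectorIter

set_option autoImplicit false

open MeasureTheory Set Filter

namespace Pool.Agent.Helper79.Sector

/-- The gain statement. -/
def Gain (g : ℝ) : Prop :=
  ∀ ε : ℝ, 0 < ε → ∃ (ι : Type) (_ : Fintype ι) (_ : Nonempty ι) (σ : ι → ℝ) (F : T2 → ℝ) (ρ : ℝ),
    Function.Injective σ ∧ (∀ i, |σ i| ≤ 2) ∧ (∀ i, Irrational (σ i)) ∧ Continuous F ∧
    (∀ x, 0 ≤ F x) ∧ (∀ a, ∫ y, F (a, y) = 1) ∧ 0 < ρ ∧ ρ ≤ 1 ∧
    volume {x | ∀ s, ρ ≤ s → s ≤ ρ⁻¹ → K σ s F x < g - ε} ≤ ENNReal.ofReal ε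

lemma gain_one : Gain 1 := by
  intro ε hε
  refine ⟨Unit, inferInstance, inferInstance, fun _ => √2, fun _ => 1, 1,
    Function.injective_of_subsingleton _, fun _ => ?_, fun _ => irrational_sqrt_two,
    continuous_const, fun _ => zero_le_one, fun a => by simp, one_pos, le_rfl, ?_⟩
  · rw [abs_of_nonneg (Real.sqrt_nonneg 2)]
    rw [Real.sqrt_le_left (by norm_num)]
    norm_num
  · have : {x | ∀ s : ℝ, 1 ≤ s → s ≤ 1⁻¹ → K (fun _ : Unit => √2) s (fun _ => 1) x < 1 - ε} = ∅ := by
      ext x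
      simp only [mem_ofPred_eq, mem_empty_iff_false, iff_false, not_forall, not_lt]
      refine ⟨1, le_rfl, by norm_num, ?_⟩
      rw [K_one]; linarith
    rw [this]; simp

lemma gain_step {g : ℝ} (hg : 1 ≤ g) (P : Gain g) : Gain (g + 1 / 4) := by
  intro ε hε
  set η := 1 / (g + 1 / 4) - 1 / (g + 3 / 8) with hη
  have hη0 : 0 < η := by
    rw [hη, sub_pos]
    apply one_div_lt_one_div_of_lt <;> linarith
  set m := |Real.log η| with hm
  have hm0 : 0 ≤ m := abs_nonneg _
  set r := min (1 / 16) (min (1 / (24 * (g + 1))) (ε / (8 * (m + 1)))) with hr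
  have hr0 : 0 < r := by
    apply lt_min (by norm_num) (lt_min (by positivity) (by positivity))
  have hr1 : r ≤ 1 / 16 := min_le_left _ _
  have hr2 : r * (24 * (g + 1)) ≤ 1 := by
    have : r ≤ 1 / (24 * (g + 1)) := (min_le_right _ _).trans (min_le_left _ _)
    rwa [le_div_iff₀ (by positivity)] at this
  have hr3 : r * (8 * (m + 1)) ≤ ε := by
    have : r ≤ ε / (8 * (m + 1)) := (min_le_right _ _).trans (min_le_right _ _)
    rwa [le_div_iff₀ (by positivity)] at this
  have hrr : r * r ≤ 1 / 16 * r := mul_le_mul_of_nonneg_right hr1 hr0.le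
  obtain ⟨ι, _, _, σ, F, ρ, hinj, hσ, hirr, hF, hF0, hF1, hρ, hρ1, hbad⟩ := P (r * r)
    (by positivity)
  obtain ⟨χ, hχ, hχ0, hχ1, hqlo, hqhi, hκ, hχ2⟩ := exists_chi hr0 (by linarith)
    (κ := r * r) (by positivity) (by linarith)
  set q := ∫ y, χ y with hq
  have hq0 : 0 < q := by linarith
  have hq1 : q ≤ 1 / 4 := by linarith
  set g' := g - r * r with hg'
  have hg'1 : 3 / 4 ≤ g' := by linarith
  have hg'0 : 0 < g' := by linarith
  set R := ⌈m / r⌉₊ with hR
  have hRlo : m ≤ R * r := by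
    have := Nat.le_ceil (m / r)
    rwa [div_le_iff₀ hr0] at this
  have hRhi : R * r ≤ m + r := by
    have := (Nat.ceil_lt_add_one (a := m / r) (by positivity)).le
    rw [← hR] at this
    calc (R : ℝ) * r ≤ (m / r + 1) * r := by gcongr
      _ = m + r := by field_simp
  have hpow : (1 - q) ^ R ≤ η := by
    have h1 : 1 - q ≤ Real.exp (-q) := Real.one_sub_le_exp_neg q
    have h2 : (1 - q) ^ R ≤ Real.exp (-q) ^ R := pow_le_pow_left₀ (by linarith) h1 R
    rw [← Real.exp_nat_mul] at h2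
    refine h2.trans ?_
    have h3 : (R : ℝ) * -q ≤ Real.log η := by
      have h4 : -m ≤ Real.log η := neg_abs_le _
      have h5 : (R : ℝ) * r ≤ R * q := by
        gcongr; linarith
      linarith
    calc Real.exp (R * -q) ≤ Real.exp (Real.log η) := Real.exp_le_exp.2 h3
      _ = η := Real.exp_log hη0
  have hfs : fstar q g' ≤ 1 / (g + 3 / 8) := by
    unfold fstar
    rw [div_le_div_iff₀ (by nlinarith) (by linarith)]
    have : q * (g' + 1) ≤ 3 * r * (g + 1) := by
      apply mul_le_mul (by linarith) (by linarith [mul_pos hr0 hr0]) (by linarith) (by linarith)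
    nlinarith
  have hfs0 : 0 < fstar q g' := by
    unfold fstar
    apply div_pos (by norm_num) (by nlinarith)
  have hup := fs_upper hq0 hq1 hg'1 R
  have hlo := fs_lower hq0 hq1 hg'1 R
  set f := fs q g' R with hf
  have hfh : f * (g + 1 / 4) ≤ 1 := by
    have : f ≤ 1 / (g + 1 / 4) := by
      rw [hη] at hpow; linarith
    rwa [le_div_iff₀ (by linarith)] at this
  set C := 2 / (q * g') + 2 with hC
  have hC0 : 0 < C := by positivity
  set δs := min (fstar q g' / 2) (ε * fstar q g' / (g + 5 / 4)) with hδs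
  have hδs0 : 0 < δs := lt_min (by positivity) (by positivity)
  set err := min 1 (δs / (R * C + 1)) with herr
  have herr0 : 0 < err := lt_min one_pos (by positivity)
  have herr1 : err ≤ 1 := min_le_left _ _
  obtain ⟨n1, n2, hn1, hn2, Y, W, hRound⟩ := exists_round hσ hF hF0 hF1 hρ (g := g')
    (ε := r * r) hbad (by positivity) hχ hχ0 hχ1 hκ (by positivity) hχ2 (by positivity) herr0
  obtain ⟨G, ρ', S⟩ := state_iter (VV_bound hσ hn1 hn2) (VV_irr hirr hn1 hn2) hRound hρ hρ1 herr0
    herr1 hq0 hq1 hg'1 (by positivity) R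
  rw [← hf] at S
  set δ := (R : ℝ) * (C * err) with hδ
  have hδ0 : 0 ≤ δ := by positivity
  have hδle : δ ≤ δs := by
    have h1 : err ≤ δs / (R * C + 1) := min_le_right _ _
    rw [le_div_iff₀ (by positivity)] at h1
    have : δ = err * (R * C) := by rw [hδ]; ring
    nlinarith
  have hδ1 : δ ≤ fstar q g' / 2 := hδle.trans (min_le_left _ _)
  have hδ2 : (g + 5 / 4) * δ ≤ ε * f := by
    have h1 : δ ≤ ε * fstar q g' / (g + 5 / 4) := hδle.trans (min_le_right _ _)
    rw [le_div_iff₀ (by linarith)] at h1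
    have h2 : ε * fstar q g' ≤ ε * f := mul_le_mul_of_nonneg_left hlo hε.le
    linarith
  have hvpos : ∀ a, 0 < vm G a := by
    intro a
    have := (abs_le.1 (S.vm a)).1
    linarith
  have hvle : ∀ a, vm G a ≤ f + δ := by
    intro a
    have := (abs_le.1 (S.vm a)).2
    linarith
  have hfδ : 0 < f + δ := by linarith
  have cN : Continuous (fun x : T2 => G x / vm G x.1) :=
    S.c.div ((continuous_vm S.c).comp continuous_fst) (fun x => (hvpos x.1).ne')
  refine ⟨ι ⊕ ι, inferInstance, inferInstance, VV σ n1 n2, fun x => G x / vm G x.1, ρ',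
    VV_inj hinj hσ hirr hn1 hn2, VV_bound hσ hn1 hn2, VV_irr hirr hn1 hn2, cN,
    fun x => div_nonneg (S.pos x) (hvpos x.1).le, fun a => ?_, S.ρ0, S.ρ1, ?_⟩
  · simp only
    rw [integral_div]
    exact div_self (hvpos a).ne'
  · have hsub : {x | ∀ s, ρ' ≤ s → s ≤ ρ'⁻¹ →
        K (VV σ n1 n2) s (fun x => G x / vm G x.1) x < g + 1 / 4 - ε} ⊆
        {x | ∀ s, ρ' ≤ s → s ≤ ρ'⁻¹ → K (VV σ n1 n2) s G x < 1 - δ} := by
      intro x hx s hs hs'
      have h1 := hx s hs hs'
      by_contra hc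
      push Not at hc
      have h2 : (f + δ)⁻¹ * K (VV σ n1 n2) s G x ≤
          K (VV σ n1 n2) s (fun x => G x / vm G x.1) x := by
        rw [← K_const_mul]
        apply K_mono (continuous_const.mul S.c) cN
        intro y
        rw [div_eq_inv_mul]
        apply mul_le_mul_of_nonneg_right _ (S.pos y)
        exact inv_anti₀ (hvpos y.1) (hvle y.1)
      have h3 : (f + δ)⁻¹ * (1 - δ) ≤ (f + δ)⁻¹ * K (VV σ n1 n2) s G x :=
        mul_le_mul_of_nonneg_left hc (by positivity)
      have h4 : g + 1 / 4 - ε ≤ (f + δ)⁻¹ * (1 - δ) := by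
        rw [inv_mul_eq_div, le_div_iff₀ hfδ]
        nlinarith [mul_nonneg hε.le hδ0]
      linarith
    refine (measure_mono hsub).trans (S.bad.trans ?_)
    apply ENNReal.ofReal_le_ofReal
    nlinarith [mul_le_mul_of_nonneg_left hRhi hr0.le]

lemma gain_all (k : ℕ) : Gain (1 + k * (1 / 4)) := by
  induction k with
  | zero => simpa using gain_one
  | succ k ih =>
    have : (1 : ℝ) ≤ 1 + k * (1 / 4) := by
      have : (0 : ℝ) ≤ k := Nat.cast_nonneg k
      linarith
    have h := gain_step this ih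
    convert h using 1
    push_cast
    ring

end Pool.Agent.Helper79.Sector
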