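import Mathlib
import Pool.Agent.Helper79.SectorInd

set_option autoImplicit false

open MeasureTheory Set Filter

namespace Pool.Agent.Helper79.Sector

/-- The sector. -/
def sec (E : Set ℝ) (r : ℝ) : Set ℂ := {z : ℂ | ‖z‖ ≤ r ∧ Complex.arg z ∈ E}

lemma measurableSet_sec {E : Set ℝ} (hE : MeasurableSet E) (r : ℝ) : MeasurableSet (sec E r) :=
  (measurableSet_le measurable_norm measurable_const).inter (Complex.measurable_arg hE)

lemma integral_sec {E : Set ℝ} (hE : MeasurableSet E) (hE' : E ⊆ Ioo (-Real.pi) Real.pi) {r : ℝ}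
    (h : ℂ → ℝ) :
    ∫ y in sec E r, h y = ∫ p in Ioc (0 : ℝ) r ×ˢ E, p.1 * h (Complex.polarCoord.symm p) := by
  have hm : MeasurableSet (Ioc (0 : ℝ) r ×ˢ E) := measurableSet_Ioc.prod hE
  rw [← integral_indicator (measurableSet_sec hE r), ← Complex.integral_comp_polarCoord_symm]
  have e1 : ∀ p ∈ polarCoord.target, p.1 • (sec E r).indicator h (Complex.polarCoord.symm p) =
      (Ioc (0 : ℝ) r ×ˢ E).indicator (fun p => p.1 * h (Complex.polarCoord.symm p)) p := by
    rintro ⟨a, b⟩ hp
    rw [polarCoord_target] at hp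
    obtain ⟨ha, hb⟩ := hp
    simp only [mem_Ioi] at ha
    simp only at hb
    have h1 : ‖Complex.polarCoord.symm (a, b)‖ = a := by
      rw [Complex.norm_polarCoord_symm, abs_of_pos ha]
    have h2 : Complex.arg (Complex.polarCoord.symm (a, b)) = b := by
      rw [Complex.polarCoord_symm_apply]
      simp only [Complex.ofReal_cos, Complex.ofReal_sin]
      exact Complex.arg_mul_cos_add_sin_mul_I ha ⟨hb.1, hb.2.le⟩
    by_cases hc : a ≤ r ∧ b ∈ E
    · rw [indicator_of_mem, indicator_of_mem, smul_eq_mul]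
      · exact ⟨⟨ha, hc.1⟩, hc.2⟩
      · change ‖_‖ ≤ r ∧ _ ∈ E
        rw [h1, h2]; exact hc
    · rw [indicator_of_notMem, indicator_of_notMem, smul_zero]
      · intro hc'
        exact hc ⟨hc'.1.2, hc'.2⟩
      · intro hc'
        change ‖_‖ ≤ r ∧ _ ∈ E at hc'
        rw [h1, h2] at hc'
        exact hc hc'
  rw [setIntegral_congr_fun polarCoord.open_target.measurableSet e1, setIntegral_indicator hm]
  congr 2
  rw [inter_eq_right, polarCoord_target]
  rintro ⟨a, b⟩ ⟨ha, hb⟩
  exact ⟨ha.1, hE' hb⟩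

lemma integral_id_Ioc {r : ℝ} (hr : 0 ≤ r) : ∫ t in Ioc (0 : ℝ) r, t = r ^ 2 / 2 := by
  rw [← intervalIntegral.integral_of_le hr]
  simp

lemma volume_sec {E : Set ℝ} (hE : MeasurableSet E) (hE' : E ⊆ Ioo (-Real.pi) Real.pi) {r : ℝ}
    (hr : 0 ≤ r) : volume.real (sec E r) = r ^ 2 / 2 * volume.real E := by
  have h1 := integral_sec hE hE' (r := r) (fun _ => 1)
  have h2 := setIntegral_prod_mul (μ := (volume : Measure ℝ)) (ν := (volume : Measure ℝ))
    (fun t : ℝ => t) (fun _ : ℝ => (1 : ℝ)) (Ioc (0 : ℝ) r) E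
  rw [integral_id_Ioc hr] at h2
  simp only [integral_const, smul_eq_mul, mul_one, measureReal_restrict_apply_univ] at h1 h2
  rw [h1, ← h2]
  rfl

lemma pol_re (p : ℝ × ℝ) : (Complex.polarCoord.symm p).re = p.1 * Real.cos p.2 := by
  rw [Complex.polarCoord_symm_apply, Complex.re_ofReal_mul, Complex.add_re, Complex.re_ofReal_mul,
    Complex.I_re, Complex.ofReal_re, mul_zero, add_zero]

lemma pol_im (p : ℝ × ℝ) : (Complex.polarCoord.symm p).im = p.1 * Real.sin p.2 := by
  rw [Complex.polarCoord_symm_apply, Complex.im_ofReal_mul, Complex.add_im, Complex.im_ofReal_mul,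
    Complex.I_im, Complex.ofReal_im, mul_one, zero_add]

lemma avg_lower {ι : Type} [Fintype ι] [Nonempty ι] {θ σ : ι → ℝ} {F : T2 → ℝ} (hF : Continuous F)
    {h : ℂ → ℝ} {e r M ε : ℝ} {x : T2} (hr : 0 < r) (he : 0 < e)
    (hθ : ∀ i, Real.sin (θ i) = σ i * Real.cos (θ i))
    (hdisj : Pairwise fun i j => Disjoint (Ioo (θ i - e) (θ i + e)) (Ioo (θ j - e) (θ j + e)))
    (hE' : (⋃ i, Ioo (θ i - e) (θ i + e)) ⊆ Ioo (-Real.pi) Real.pi)
    (hval : ∀ y : ℂ, ‖y‖ ≤ r → h y = F (flow x (M * y.re) (M * y.im)))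
    (hunif : ∀ i t φ, 0 ≤ t → t ≤ r → |φ - θ i| ≤ e →
      F (flow x (M * (t * Real.cos (θ i))) (M * (t * Real.sin (θ i)))) - ε ≤
        F (flow x (M * (t * Real.cos φ)) (M * (t * Real.sin φ)))) :
    (Fintype.card ι : ℝ)⁻¹ * ∑ i, A (σ i) (M * r * Real.cos (θ i)) F x - ε ≤
      (volume.real (sec (⋃ i, Ioo (θ i - e) (θ i + e)) r))⁻¹ *
        ∫ y in sec (⋃ i, Ioo (θ i - e) (θ i + e)) r, h y := by
  set E := ⋃ i, Ioo (θ i - e) (θ i + e) with hEdef
  have hE : MeasurableSet E := MeasurableSet.iUnion fun i => measurableSet_Ioo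
  have hc : (0 : ℝ) < Fintype.card ι := by exact_mod_cast Fintype.card_pos
  have hvE : volume.real E = Fintype.card ι * (2 * e) := by
    rw [hEdef, measureReal_iUnion_fintype hdisj (fun i => measurableSet_Ioo)
      (fun i => measure_Ioo_lt_top.ne)]
    have : ∀ i, volume.real (Ioo (θ i - e) (θ i + e)) = 2 * e := by
      intro i
      rw [Real.volume_real_Ioo_of_le (by linarith)]; ring
    simp_rw [this]
    rw [Finset.sum_const, Finset.card_univ, nsmul_eq_mul]
  rw [volume_sec hE hE' hr.le, hvE]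
  have e1 : ∫ y in sec E r, h y = ∫ y in sec E r, F (flow x (M * y.re) (M * y.im)) := by
    apply setIntegral_congr_fun (measurableSet_sec hE r)
    intro y hy
    exact hval y hy.1
  rw [e1, integral_sec hE hE', hEdef, prod_iUnion]
  have cpol : Continuous (fun p : ℝ × ℝ => p.1 *
      F (flow x (M * (Complex.polarCoord.symm p).re) (M * (Complex.polarCoord.symm p).im))) := by
    apply continuous_fst.mul
    apply hF.comp
    simp_rw [Complex.polarCoord_symm_apply]
    unfold flow
    apply Continuous.prodMk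
    · apply continuous_const.sub
      apply continuous_coe.comp
      simp only [Complex.mul_re, Complex.ofReal_re, Complex.ofReal_im, Complex.add_re,
        Complex.I_re, Complex.I_im, Complex.add_im, Complex.mul_im]
      fun_prop
    · apply continuous_const.sub
      apply continuous_coe.comp
      simp only [Complex.mul_re, Complex.ofReal_re, Complex.ofReal_im, Complex.add_re,
        Complex.I_re, Complex.I_im, Complex.add_im, Complex.mul_im]
      fun_prop
  have hint : ∀ (f : ℝ × ℝ → ℝ), Continuous f → ∀ i,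
      IntegrableOn f (Ioc (0 : ℝ) r ×ˢ Ioo (θ i - e) (θ i + e)) := by
    intro f hf i
    have h1 : IntegrableOn f (Icc (0 : ℝ) r ×ˢ Icc (θ i - e) (θ i + e)) :=
      hf.continuousOn.integrableOn_compact (isCompact_Icc.prod isCompact_Icc)
    exact h1.mono_set (prod_mono Ioc_subset_Icc_self Ioo_subset_Icc_self)
  rw [integral_iUnion_fintype (fun i => measurableSet_Ioc.prod measurableSet_Ioo) ?_
    (fun i => hint _ cpol i)]
  swap
  · intro i j hij
    exact Disjoint.set_prod_right (hdisj hij) _ _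
  have key : ∀ i, (r ^ 2 / 2 * (2 * e)) * (A (σ i) (M * r * Real.cos (θ i)) F x - ε) ≤
      ∫ p in Ioc (0 : ℝ) r ×ˢ Ioo (θ i - e) (θ i + e), p.1 *
        F (flow x (M * (Complex.polarCoord.symm p).re) (M * (Complex.polarCoord.symm p).im)) := by
    intro i
    set φ0 : ℝ → ℝ := fun t => t *
      (F (flow x (M * (t * Real.cos (θ i))) (M * (t * Real.sin (θ i)))) - ε) with hφ0
    have cφ0 : Continuous φ0 := by
      apply continuous_id.mul
      apply Continuous.sub _ continuous_const
      apply hF.comp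
      exact continuous_flow x (by fun_prop) (by fun_prop)
    have h1 : ∫ p in Ioc (0 : ℝ) r ×ˢ Ioo (θ i - e) (θ i + e), φ0 p.1 * 1 ≤
        ∫ p in Ioc (0 : ℝ) r ×ˢ Ioo (θ i - e) (θ i + e), p.1 *
        F (flow x (M * (Complex.polarCoord.symm p).re) (M * (Complex.polarCoord.symm p).im)) := by
      apply setIntegral_mono_on (hint _ (by fun_prop) i) (hint _ cpol i)
        (measurableSet_Ioc.prod measurableSet_Ioo)
      rintro ⟨t, φ⟩ ⟨ht, hφ⟩
      simp only [mem_Ioc] at ht
      simp only [mem_Ioo] at hφ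
      simp only [hφ0, mul_one]
      apply mul_le_mul_of_nonneg_left _ ht.1.le
      have h2 := hunif i t φ ht.1.le ht.2 (by rw [abs_le]; constructor <;> linarith)
      rw [pol_re, pol_im]
      exact h2
    refine le_trans (le_of_eq ?_) h1
    have h3 := setIntegral_prod_mul (μ := (volume : Measure ℝ)) (ν := (volume : Measure ℝ))
      φ0 (fun _ : ℝ => (1 : ℝ)) (Ioc (0 : ℝ) r) (Ioo (θ i - e) (θ i + e))
    rw [← Measure.volume_eq_prod] at h3
    rw [h3]
    have h4 : ∫ _y in Ioo (θ i - e) (θ i + e), (1 : ℝ) = 2 * e := by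
      simp only [integral_const, smul_eq_mul, mul_one, measureReal_restrict_apply_univ]
      rw [Real.volume_real_Ioo_of_le (by linarith)]; ring
    rw [h4]
    have h5 : ∫ t in Ioc (0 : ℝ) r, φ0 t =
        r ^ 2 / 2 * (A (σ i) (M * r * Real.cos (θ i)) F x - ε) := by
      rw [← intervalIntegral.integral_of_le hr.le]
      have hsub := intervalIntegral.integral_comp_mul_left (a := 0) (b := 1) φ0 hr.ne'
      rw [mul_zero, mul_one] at hsub
      have h6 : ∫ t in (0 : ℝ)..r, φ0 t = r * ∫ t in (0 : ℝ)..1, φ0 (r * t) := by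
        rw [hsub, smul_eq_mul, ← mul_assoc, mul_inv_cancel₀ hr.ne', one_mul]
      rw [h6]
      have h7 : A (σ i) (M * r * Real.cos (θ i)) F x - ε
          = ∫ t in (0 : ℝ)..1, (2 * t * F (flow x (M * r * Real.cos (θ i) * t)
            (M * r * Real.cos (θ i) * σ i * t)) - ε * (2 * t)) := by
        rw [intervalIntegral.integral_sub (A_intervalIntegrable hF _ _ x 0 1)
          (Continuous.intervalIntegrable (by fun_prop) _ _), intervalIntegral.integral_const_mul,
          integral_two_t, mul_one]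
        rfl
      rw [h7, ← intervalIntegral.integral_const_mul, ← intervalIntegral.integral_const_mul]
      congr 1
      ext t
      have a1 : M * r * Real.cos (θ i) * t = M * (r * t * Real.cos (θ i)) := by ring
      have a2 : M * r * Real.cos (θ i) * σ i * t = M * (r * t * Real.sin (θ i)) := by
        rw [hθ]; ring
      rw [a1, a2]
      simp only [hφ0]
      ring
    rw [h5]
    ring
  have hsum := Finset.sum_le_sum (fun i (_ : i ∈ Finset.univ) => key i)
  rw [← Finset.mul_sum, Finset.sum_sub_distrib, Finset.sum_const, Finset.card_univ,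
    nsmul_eq_mul] at hsum
  have hr2 : 0 < r ^ 2 / 2 * (2 * e) := by positivity
  calc (Fintype.card ι : ℝ)⁻¹ * ∑ i, A (σ i) (M * r * Real.cos (θ i)) F x - ε
      = (r ^ 2 / 2 * (Fintype.card ι * (2 * e)))⁻¹ * ((r ^ 2 / 2 * (2 * e)) *
        (∑ i, A (σ i) (M * r * Real.cos (θ i)) F x - Fintype.card ι * ε)) := by
        field_simp
    _ ≤ _ := by
        apply mul_le_mul_of_nonneg_left hsum (by positivity)

end Pool.Agent.Helper79.Sector
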