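import Pool.Agent.Helper79.SectorMain

/-!
# Sectorial maximal operators: a stronger form of the counterexample
-/

set_option autoImplicit false

open MeasureTheory Set Filter Topology

namespace Pool.Agent.Helper79.Sector

theorem main_strong (C : ℝ) : ∃ (S : Finset ℝ) (e : ℝ), 0 < e ∧
      (∀ a ∈ S, |a| + e ≤ Real.pi / 2) ∧ (∀ a ∈ S, ∀ b ∈ S, a ≠ b → 2 * e ≤ |a - b|) ∧
      0 < volume (⋃ a ∈ S, Ioo (a - e) (a + e)) ∧
      ∃ f : ℂ → ℝ, Integrable f ∧ (∀ z, 0 ≤ f z) ∧ (∃ R : ℝ, ∀ z, R < ‖z‖ → f z = 0) ∧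
        (∃ R : ℝ, ∀ z, f z ≤ R) ∧ ∃ α : ℝ, 0 < α ∧
        ENNReal.ofReal (C / α * ∫ x, f x) < volume {x : ℂ | ∃ r : ℝ, 0 < r ∧
            α < (volume.real (sec (⋃ a ∈ S, Ioo (a - e) (a + e)) r))⁻¹ *
              ∫ y in sec (⋃ a ∈ S, Ioo (a - e) (a + e)) r, f (x - y)} := by
  obtain ⟨k, hk⟩ := exists_nat_gt (4 * (20 * |C| + 20))
  have hgain := gain_all k
  set g : ℝ := 1 + k * (1 / 4) with hg
  have hC0 := abs_nonneg C
  have hg20 : 20 * |C| + 20 < g := by linarith
  obtain ⟨ι, _, _, σ, F, ρ, hinj, hσ, hirr, hF, hF0, hF1, hρ, hρ1, hbad⟩ := hgain (1 / 8)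
    (by norm_num)
  set θ : ι → ℝ := fun i => Real.arctan (σ i) with hθdef
  have hθinj : Function.Injective θ := Real.arctan_injective.comp hinj
  have hθ : ∀ i, Real.sin (θ i) = σ i * Real.cos (θ i) := by
    intro i
    simp only [hθdef]
    rw [Real.sin_arctan, Real.cos_arctan]
    ring
  have hκ : ∀ i, 1 ≤ √5 * Real.cos (θ i) ∧ (√5 * Real.cos (θ i)) ^ 2 ≤ 5 := by
    intro i
    have hc : 0 < Real.cos (θ i) := Real.cos_arctan_pos _
    have h5 : (√5 * Real.cos (θ i)) ^ 2 = 5 / (1 + σ i ^ 2) := by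
      rw [mul_pow, Real.sq_sqrt (by norm_num)]
      simp only [hθdef]
      rw [Real.cos_sq_arctan]
      ring
    have hs : σ i ^ 2 ≤ 4 := by
      have := hσ i
      rw [← sq_abs]
      nlinarith [abs_nonneg (σ i)]
    refine ⟨?_, ?_⟩
    · have h6 : 1 ≤ (√5 * Real.cos (θ i)) ^ 2 := by
        rw [h5, le_div_iff₀ (by positivity)]
        linarith
      have h7 : 0 ≤ √5 * Real.cos (θ i) := by positivity
      nlinarith
    · rw [h5, div_le_iff₀ (by positivity)]
      nlinarith [sq_nonneg (σ i)]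
  obtain ⟨d, hd, hunif⟩ := unif2 hF (ε := 1) one_pos
  -- choice of the aperture
  have hθlt : ∀ i, |θ i| < Real.pi / 2 := fun i => by
    rw [abs_lt]
    exact ⟨Real.neg_pi_div_two_lt_arctan (σ i), Real.arctan_lt_pi_div_two (σ i)⟩
  have ev : ∀ᶠ e in 𝓝[>] (0 : ℝ), (∀ i j, i ≠ j → 2 * e ≤ |θ i - θ j|) ∧
      (∀ i, e ≤ Real.pi / 2 - |θ i|) ∧ e ≤ d * ρ / 3 := by
    have hsmall : ∀ c : ℝ, 0 < c → ∀ᶠ e in 𝓝[>] (0 : ℝ), e ≤ c := fun c hc =>
      (eventually_le_nhds hc).filter_mono nhdsWithin_le_nhds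
    refine Filter.Eventually.and ?_ (Filter.Eventually.and ?_ (hsmall _ (by positivity)))
    swap
    · rw [eventually_all]
      intro i
      exact hsmall _ (sub_pos.2 (hθlt i))
    rw [eventually_all]
    intro i
    rw [eventually_all]
    intro j
    by_cases hij : i = j
    · exact Filter.Eventually.of_forall fun e h => absurd hij h
    · have : 0 < |θ i - θ j| := abs_pos.2 (sub_ne_zero.2 fun h => hij (hθinj h))
      filter_upwards [hsmall (|θ i - θ j| / 2) (by positivity)] with e he _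
      linarith
  obtain ⟨e, ⟨he1, he2, he3⟩, he0⟩ := (ev.and self_mem_nhdsWithin).exists
  have he0 : 0 < e := he0
  have hdisj : Pairwise fun i j => Disjoint (Ioo (θ i - e) (θ i + e)) (Ioo (θ j - e) (θ j + e)) := by
    intro i j hij
    rw [Set.disjoint_left]
    rintro y ⟨h1, h2⟩ ⟨h3, h4⟩
    have h5 := he1 i j hij
    have h6 : |θ i - θ j| < 2 * e := by
      rw [abs_lt]; constructor <;> linarith
    linarith
  set E : Set ℝ := ⋃ i, Ioo (θ i - e) (θ i + e) with hEdef
  have hEpi : E ⊆ Ioo (-Real.pi) Real.pi := by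
    intro y hy
    rw [hEdef, mem_iUnion] at hy
    obtain ⟨i, h1, h2⟩ := hy
    have h3 := he2 i
    have h4 := abs_le.1 (le_refl |θ i|)
    have hpi := Real.pi_gt_three
    constructor <;> linarith [h4.1, h4.2]
  have hE : MeasurableSet E := MeasurableSet.iUnion fun i => measurableSet_Ioo
  have hEvol : 0 < volume E := by
    obtain ⟨i⟩ := (inferInstance : Nonempty ι)
    have : 0 < volume (Ioo (θ i - e) (θ i + e)) := by
      rw [Real.volume_Ioo]
      simp only [ENNReal.ofReal_pos]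
      linarith
    exact this.trans_le (measure_mono (subset_iUnion (fun i => Ioo (θ i - e) (θ i + e)) i))
  obtain ⟨M, hM⟩ := exists_nat_gt (48 * ρ⁻¹)
  have hMr : (0 : ℝ) < M := lt_trans (by positivity) hM
  have hM0 : 0 < M := by exact_mod_cast hMr
  set f : ℂ → ℝ := Q.indicator (fun z => F (dil M (mk2 z))) with hf
  have mpd := mp_dil hM0
  have hFd : Continuous (fun y => F (dil M y)) := hF.comp (continuous_dil M)
  have hfint : Integrable f := by
    rw [hf, integrable_indicator_iff measurableSet_Q]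
    exact (mp_mk2.integrable_comp hFd.aestronglyMeasurable).2 (cont_integrable hFd)
  have hf0 : ∀ z, 0 ≤ f z := by
    intro z
    rw [hf]
    exact indicator_nonneg (fun _ _ => hF0 _) z
  have hf1 : ∫ x, |f x| = 1 := by
    simp_rw [abs_of_nonneg (hf0 _)]
    rw [hf, integral_indicator measurableSet_Q]
    have h1 : ∫ z in Q, F (dil M (mk2 z)) = ∫ y, F (dil M y) := by
      conv_rhs => rw [← mp_mk2.map_eq]
      rw [integral_map mp_mk2.measurable.aemeasurable]
      exact hFd.aestronglyMeasurable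
    have h2 : ∫ y, F (dil M y) = ∫ y, F y := by
      conv_rhs => rw [← mpd.map_eq]
      rw [integral_map mpd.measurable.aemeasurable]
      exact hF.aestronglyMeasurable
    rw [h1, h2, integral_eq_vm hF]
    simp [vm, hF1]
  classical
  set S : Finset ℝ := Finset.univ.image θ with hSdef
  have hES : (⋃ a ∈ S, Ioo (a - e) (a + e)) = E := by
    rw [hEdef, hSdef]
    simp only [Finset.mem_image, Finset.mem_univ, true_and, iUnion_exists, iUnion_iUnion_eq']
  have hf1' : ∫ x, f x = 1 := by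
    rw [← hf1]
    exact integral_congr_ae (Filter.Eventually.of_forall fun z => (abs_of_nonneg (hf0 z)).symm)
  refine ⟨S, e, he0, ?_, ?_, ?_, f, hfint, hf0, ?_, ?_, g / 10, by linarith, ?_⟩
  · intro a ha
    rw [hSdef, Finset.mem_image] at ha
    obtain ⟨i, -, rfl⟩ := ha
    linarith [he2 i]
  · intro a ha a' ha' hne
    rw [hSdef, Finset.mem_image] at ha ha'
    obtain ⟨i, -, rfl⟩ := ha
    obtain ⟨j, -, rfl⟩ := ha'
    exact he1 i j fun hij => hne (by rw [hij])
  · rw [hES]
    exact hEvol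
  · refine ⟨2, fun z hz => ?_⟩
    rw [hf]
    refine indicator_of_notMem ?_ _
    intro hzQ
    have h1 : 0 < z.re ∧ z.re ≤ 1 := hzQ.1
    have h2 : 0 < z.im ∧ z.im ≤ 1 := hzQ.2
    have h3 := Complex.norm_le_abs_re_add_abs_im z
    rw [abs_of_pos h1.1, abs_of_pos h2.1] at h3
    linarith [h1.2, h2.2]
  · obtain ⟨R, hR⟩ := (isCompact_univ (X := T2)).bddAbove_image hF.continuousOn
    refine ⟨max R 0, fun z => ?_⟩
    rw [hf]
    by_cases hz : z ∈ Q
    · rw [indicator_of_mem hz]
      exact (hR ⟨_, mem_univ _, rfl⟩).trans (le_max_left _ _)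
    · rw [indicator_of_notMem hz]
      exact le_max_right _ _
  by_contra hcon
  rw [not_lt, hES] at hcon
  have hmain := hcon
  rw [hf1', mul_one] at hmain
  set Bad : Set T2 := {x | ∀ s, ρ ≤ s → s ≤ ρ⁻¹ → K σ s F x < g - 1 / 8} with hBad
  set Q' : Set ℂ := Complex.measurableEquivRealProd ⁻¹'
    (Ioc (1 / 16 : ℝ) (15 / 16) ×ˢ Ioc (1 / 16 : ℝ) (15 / 16)) with hQ'
  have hvol : volume Q' = ENNReal.ofReal (49 / 64) := by
    rw [hQ', Complex.volume_preserving_equiv_real_prod.measure_preimage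
      (measurableSet_Ioc.prod measurableSet_Ioc).nullMeasurableSet,
      Measure.volume_eq_prod, Measure.prod_prod, Real.volume_Ioc, ← ENNReal.ofReal_mul (by norm_num)]
    congr 1
    norm_num
  have hcover : Q' ⊆ {x : ℂ | ∃ r : ℝ, 0 < r ∧
            g / 10 < (volume.real (sec E r))⁻¹ * ∫ y in sec E r, f (x - y)} ∪
            ((fun z => dil M (mk2 z)) ⁻¹' Bad ∩ Q) := by
    intro x hx
    have hx1 : 1 / 16 < x.re ∧ x.re ≤ 15 / 16 := hx.1
    have hx2 : 1 / 16 < x.im ∧ x.im ≤ 15 / 16 := hx.2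
    have hxQ : x ∈ Q := ⟨⟨by linarith [hx1.1], by linarith [hx1.2]⟩,
      ⟨by linarith [hx2.1], by linarith [hx2.2]⟩⟩
    by_cases hb : dil M (mk2 x) ∈ Bad
    · exact Or.inr ⟨hb, hxQ⟩
    left
    rw [hBad] at hb
    simp only [mem_ofPred_eq] at hb
    push Not at hb
    obtain ⟨s, hs, hs', hK⟩ := hb
    have hs0 : 0 < s := hρ.trans_le hs
    have h53 : √5 ≤ 3 := by
      rw [Real.sqrt_le_left (by norm_num)]; norm_num
    have h50 : 0 < √5 := by positivity
    set r := √5 * s / M with hr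
    have hr0 : 0 < r := by positivity
    have hMr' : M * r = √5 * s := by rw [hr]; field_simp
    have hMr3 : M * r ≤ 3 * ρ⁻¹ := by
      rw [hMr']
      gcongr
    have hr16 : r ≤ 1 / 16 := by
      rw [hr, div_le_iff₀ hMr]
      rw [hMr'] at hMr3
      linarith
    refine ⟨r, hr0, ?_⟩
    have key := avg_lower (θ := θ) (σ := σ) hF (h := fun y => f (x - y)) (e := e) (r := r) (M := M)
      (ε := 1) (x := dil M (mk2 x)) hr0 he0 hθ hdisj hEpi ?_ ?_
    · refine lt_of_lt_of_le ?_ key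
      have h1 : 1 / 5 * K σ s F (dil M (mk2 x)) ≤ (Fintype.card ι : ℝ)⁻¹ *
          ∑ i, A (σ i) (M * r * Real.cos (θ i)) F (dil M (mk2 x)) := by
        unfold K
        have h2 : ∑ i, 1 / 5 * A (σ i) s F (dil M (mk2 x)) ≤
            ∑ i, A (σ i) (M * r * Real.cos (θ i)) F (dil M (mk2 x)) := by
          apply Finset.sum_le_sum
          intro i _
          have h3 : M * r * Real.cos (θ i) = √5 * Real.cos (θ i) * s := by
            rw [hMr']; ring
          rw [h3]
          exact A_scale hF hF0 _ (hκ i).1 (hκ i).2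
        rw [← Finset.mul_sum] at h2
        calc _ = (Fintype.card ι : ℝ)⁻¹ * (1 / 5 * ∑ i, A (σ i) s F (dil M (mk2 x))) := by ring
          _ ≤ _ := by
            apply mul_le_mul_of_nonneg_left h2 (by positivity)
      linarith
    · intro y hy
      have hy1 := (Complex.abs_re_le_norm y).trans hy
      have hy2 := (Complex.abs_im_le_norm y).trans hy
      rw [abs_le] at hy1 hy2
      have hQ : x - y ∈ Q := by
        refine ⟨⟨?_, ?_⟩, ⟨?_, ?_⟩⟩
        · rw [Complex.sub_re]; linarith [hx1.1, hy1.2]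
        · rw [Complex.sub_re]; linarith [hx1.2, hy1.1]
        · rw [Complex.sub_im]; linarith [hx2.1, hy2.2]
        · rw [Complex.sub_im]; linarith [hx2.2, hy2.1]
      change f (x - y) = _
      rw [hf, indicator_of_mem hQ, mk2_sub, dil_flow]
    · intro i t φ ht0 htr hφ
      have hb1 : ∀ u v : ℝ, |u - v| ≤ |φ - θ i| → |M * (t * u) - M * (t * v)| ≤ d := by
        intro u v huv
        have e1 : M * (t * u) - M * (t * v) = M * t * (u - v) := by ring
        rw [e1, abs_mul, abs_of_nonneg (by positivity)]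
        have h1 : M * t ≤ 3 * ρ⁻¹ := le_trans (by gcongr) hMr3
        have h2 : |u - v| ≤ d * ρ / 3 := huv.trans (hφ.trans he3)
        calc M * t * |u - v| ≤ 3 * ρ⁻¹ * (d * ρ / 3) := by gcongr
          _ = d := by field_simp
      have h3 := hunif (dil M (mk2 x)) (M * (t * Real.cos φ)) (M * (t * Real.sin φ))
        (M * (t * Real.cos (θ i))) (M * (t * Real.sin (θ i)))
        (hb1 _ _ (Real.abs_cos_sub_cos_le _ _)) (hb1 _ _ (Real.abs_sin_sub_sin_le _ _))
      have := (abs_le.1 h3).1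
      linarith
  have hbadm : volume ((fun z => dil M (mk2 z)) ⁻¹' Bad ∩ Q) ≤ ENNReal.ofReal (1 / 8) := by
    refine (Measure.le_restrict_apply _ _).trans ?_
    exact (measure_preimage_le (mpd.comp mp_mk2) Bad).trans hbad
  have hfin : ENNReal.ofReal (49 / 64) ≤ ENNReal.ofReal (C / (g / 10)) + ENNReal.ofReal (1 / 8) := by
    rw [← hvol]
    exact (measure_mono hcover).trans ((measure_union_le _ _).trans (add_le_add hmain hbadm))
  have hCg : C / (g / 10) ≤ 1 / 2 := by
    rw [div_le_iff₀ (by linarith)]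
    have := le_abs_self C
    linarith
  have hfin2 : ENNReal.ofReal (49 / 64) ≤ ENNReal.ofReal (1 / 2 + 1 / 8) := by
    refine hfin.trans ?_
    rw [ENNReal.ofReal_add (by norm_num) (by norm_num)]
    gcongr
  rw [ENNReal.ofReal_le_ofReal_iff (by norm_num)] at hfin2
  norm_num at hfin2

end Pool.Agent.Helper79.Sector
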