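import Mathlib

set_option autoImplicit false

namespace Pool.Agent.Helper79.SqFn

open scoped ENNReal

/-- convolution of functions on the integers -/
noncomputable def cv (a g : ℤ → ℝ) : ℤ → ℝ := fun m => ∑' i : ℤ, a i * g (m - i)

/-- the l1 norm, with values in the extended nonnegative reals -/
noncomputable def n1 (g : ℤ → ℝ) : ℝ≥0∞ := ∑' m, ‖g m‖ₑ

/-- the delta function at the origin -/
noncomputable def dl : ℤ → ℝ := fun m => if m = 0 then (1 : ℝ) else 0

theorem n1_cv_le (a g : ℤ → ℝ) : n1 (cv a g) ≤ n1 a * n1 g := by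
  unfold n1 cv
  calc ∑' m, ‖∑' i : ℤ, a i * g (m - i)‖ₑ
      ≤ ∑' m, ∑' i : ℤ, ‖a i‖ₑ * ‖g (m - i)‖ₑ := by
        refine ENNReal.tsum_le_tsum fun m => ?_
        refine enorm_tsum_le_tsum_enorm.trans ?_
        refine ENNReal.tsum_le_tsum fun i => ?_
        rw [enorm_mul]
    _ = ∑' i : ℤ, ∑' m, ‖a i‖ₑ * ‖g (m - i)‖ₑ := ENNReal.tsum_comm
    _ = ∑' i : ℤ, ‖a i‖ₑ * ∑' m, ‖g m‖ₑ := by
        refine tsum_congr fun i => ?_
        rw [ENNReal.tsum_mul_left]
        congr 1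
        exact (Equiv.subRight i).tsum_eq (fun m => ‖g m‖ₑ)
    _ = (∑' i : ℤ, ‖a i‖ₑ) * ∑' m, ‖g m‖ₑ := ENNReal.tsum_mul_right

theorem summable_of_n1 {g : ℤ → ℝ} (h : n1 g ≠ ⊤) : Summable g :=
  (tsum_enorm_ne_top_iff_summable_norm.1 h).of_norm

theorem summable_abs_of_n1 {g : ℤ → ℝ} (h : n1 g ≠ ⊤) : Summable (fun k => |g k|) :=
  tsum_enorm_ne_top_iff_summable_norm.1 h

theorem enorm_le_n1 (g : ℤ → ℝ) (k : ℤ) : ‖g k‖ₑ ≤ n1 g := ENNReal.le_tsum k

theorem n1_toReal {g : ℤ → ℝ} (h : n1 g ≠ ⊤) : n1 g = ENNReal.ofReal (∑' k, |g k|) := by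
  have := summable_abs_of_n1 h
  rw [ENNReal.ofReal_tsum_of_nonneg (fun _ => abs_nonneg _) this]
  unfold n1
  exact tsum_congr fun k => Real.enorm_eq_ofReal_abs (g k)

theorem n1_add_le (f g : ℤ → ℝ) : n1 (f + g) ≤ n1 f + n1 g := by
  unfold n1
  rw [← ENNReal.tsum_add]
  exact ENNReal.tsum_le_tsum fun k => enorm_add_le _ _

theorem n1_add_le' (f g : ℤ → ℝ) : n1 (fun k => f k + g k) ≤ n1 f + n1 g := n1_add_le f g

theorem n1_sub_le (f g : ℤ → ℝ) : n1 (fun k => f k - g k) ≤ n1 f + n1 g := by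
  unfold n1
  rw [← ENNReal.tsum_add]
  exact ENNReal.tsum_le_tsum fun k => enorm_sub_le

theorem n1_smul (c : ℝ) (f : ℤ → ℝ) : n1 (fun k => c * f k) = ‖c‖ₑ * n1 f := by
  unfold n1
  rw [← ENNReal.tsum_mul_left]
  exact tsum_congr fun k => enorm_mul _ _

/-- the products in a convolution are summable -/
theorem summable_cv {a g : ℤ → ℝ} (ha : n1 a ≠ ⊤) (hg : n1 g ≠ ⊤) (m : ℤ) :
    Summable (fun i => a i * g (m - i)) := by
  apply summable_of_n1
  have : n1 (fun i => a i * g (m - i)) ≤ n1 a * n1 g := by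
    unfold n1
    rw [← ENNReal.tsum_mul_right]
    refine ENNReal.tsum_le_tsum fun i => ?_
    rw [enorm_mul]
    gcongr
    exact enorm_le_n1 g _
  exact ne_top_of_le_ne_top (ENNReal.mul_ne_top ha hg) this

theorem n1_cv_ne_top {a g : ℤ → ℝ} (ha : n1 a ≠ ⊤) (hg : n1 g ≠ ⊤) : n1 (cv a g) ≠ ⊤ :=
  ne_top_of_le_ne_top (ENNReal.mul_ne_top ha hg) (n1_cv_le a g)

theorem cv_sub_right {a f g : ℤ → ℝ} (ha : n1 a ≠ ⊤) (hf : n1 f ≠ ⊤) (hg : n1 g ≠ ⊤) :
    cv a (fun k => f k - g k) = fun k => cv a f k - cv a g k := by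
  funext k
  unfold cv
  rw [← (summable_cv ha hf k).tsum_sub (summable_cv ha hg k)]
  exact tsum_congr fun i => by ring

theorem cv_sub_left {a b g : ℤ → ℝ} (ha : n1 a ≠ ⊤) (hb : n1 b ≠ ⊤) (hg : n1 g ≠ ⊤) :
    cv (fun k => a k - b k) g = fun k => cv a g k - cv b g k := by
  funext k
  unfold cv
  rw [← (summable_cv ha hg k).tsum_sub (summable_cv hb hg k)]
  exact tsum_congr fun i => by ring

theorem n1_iter_le {a g : ℤ → ℝ} (ha : n1 a ≤ 1) (n : ℕ) : n1 ((cv a)^[n] g) ≤ n1 g := by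
  induction n with
  | zero => simp
  | succ n ih =>
    rw [Function.iterate_succ_apply']
    calc n1 (cv a ((cv a)^[n] g)) ≤ n1 a * n1 ((cv a)^[n] g) := n1_cv_le _ _
      _ ≤ 1 * n1 g := by gcongr
      _ = n1 g := one_mul _

/-- iterates of two convolution contractions are close if the two laws are close -/
theorem n1_iter_sub_le {a b g : ℤ → ℝ} (ha : n1 a ≤ 1) (hb : n1 b ≤ 1) (hg : n1 g ≠ ⊤)
    {d : ℝ≥0∞} (hd : n1 (fun k => a k - b k) ≤ d) (n : ℕ) :
    n1 (fun k => (cv a)^[n] g k - (cv b)^[n] g k) ≤ n * d * n1 g := by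
  have ha' : n1 a ≠ ⊤ := ne_top_of_le_ne_top ENNReal.one_ne_top ha
  have hb' : n1 b ≠ ⊤ := ne_top_of_le_ne_top ENNReal.one_ne_top hb
  induction n with
  | zero =>
    have : n1 (fun k => (cv a)^[0] g k - (cv b)^[0] g k) = 0 := by
      simp [n1]
    rw [this]
    exact zero_le
  | succ n ih =>
    have h1 : n1 ((cv a)^[n] g) ≠ ⊤ := ne_top_of_le_ne_top hg (n1_iter_le ha n)
    have h2 : n1 ((cv b)^[n] g) ≠ ⊤ := ne_top_of_le_ne_top hg (n1_iter_le hb n)
    have e : (fun k => (cv a)^[n + 1] g k - (cv b)^[n + 1] g k)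
        = fun k => cv a (fun k => (cv a)^[n] g k - (cv b)^[n] g k) k
          + cv (fun k => a k - b k) ((cv b)^[n] g) k := by
      funext k
      rw [cv_sub_right ha' h1 h2, cv_sub_left ha' hb' h2]
      simp only [Function.iterate_succ_apply']
      ring
    rw [e]
    refine (n1_add_le' _ _).trans ?_
    have i1 : n1 (cv a (fun k => (cv a)^[n] g k - (cv b)^[n] g k)) ≤ n * d * n1 g := by
      calc _ ≤ n1 a * n1 (fun k => (cv a)^[n] g k - (cv b)^[n] g k) := n1_cv_le _ _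
        _ ≤ 1 * (n * d * n1 g) := by gcongr
        _ = _ := one_mul _
    have i2 : n1 (cv (fun k => a k - b k) ((cv b)^[n] g)) ≤ d * n1 g := by
      calc _ ≤ n1 (fun k => a k - b k) * n1 ((cv b)^[n] g) := n1_cv_le _ _
        _ ≤ d * n1 g := by
          gcongr
          exact n1_iter_le hb n
    calc _ ≤ n * d * n1 g + d * n1 g := add_le_add i1 i2
      _ = ((n + 1 : ℕ) : ℝ≥0∞) * d * n1 g := by push_cast; ring

/-- Markov: the set where a function is large is small -/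
theorem card_le_of_n1 {g : ℤ → ℝ} (s : Finset ℤ) {c : ℝ} (_hc : 0 < c)
    (h : ∀ k ∈ s, c < |g k|) : (s.card : ℝ≥0∞) * ENNReal.ofReal c ≤ n1 g := by
  calc (s.card : ℝ≥0∞) * ENNReal.ofReal c = ∑ k ∈ s, ENNReal.ofReal c := by simp
    _ ≤ ∑ k ∈ s, ‖g k‖ₑ := by
      refine Finset.sum_le_sum fun k hk => ?_
      rw [Real.enorm_eq_ofReal_abs]
      exact ENNReal.ofReal_le_ofReal (h k hk).le
    _ ≤ n1 g := ENNReal.sum_le_tsum s

/-- the convolution iterates acting on a finitely supported function in terms of the iterates of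
the delta function -/
theorem iter_eq_sum {a : ℤ → ℝ} (ha : n1 a ≤ 1) (f : ℤ → ℝ) (S : Finset ℤ)
    (hS : ∀ k, k ∉ S → f k = 0) (n : ℕ) (k : ℤ) :
    (cv a)^[n] f k = ∑ i ∈ S, f i * (cv a)^[n] dl (k - i) := by
  have ha' : n1 a ≠ ⊤ := ne_top_of_le_ne_top ENNReal.one_ne_top ha
  have hdl : n1 dl ≠ ⊤ := by
    have : n1 dl = 1 := by
      unfold n1 dl
      rw [tsum_eq_single 0]
      · simp
      · intro b hb; simp [hb]
    rw [this]; exact ENNReal.one_ne_top
  induction n generalizing k with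
  | zero =>
    simp only [Function.iterate_zero, id_eq, dl]
    by_cases hk : k ∈ S
    · rw [Finset.sum_eq_single k]
      · simp
      · intro b _ hb
        have : ¬ (k - b = 0) := fun h => hb (by omega)
        simp [this]
      · intro h; exact absurd hk h
    · rw [hS k hk, Finset.sum_eq_zero]
      intro b hb
      have : ¬ (k - b = 0) := fun h => hk (by
        have : k = b := by omega
        rw [this]; exact hb)
      simp [this]
  | succ n ih =>
    rw [Function.iterate_succ_apply', Function.iterate_succ_apply']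
    have e1 : cv a ((cv a)^[n] f) k
        = ∑' l : ℤ, ∑ i ∈ S, a l * (f i * (cv a)^[n] dl (k - l - i)) := by
      unfold cv
      refine tsum_congr fun l => ?_
      rw [← Finset.mul_sum]
      congr 1
      exact ih (k - l)
    have hq : n1 ((cv a)^[n] dl) ≠ ⊤ := ne_top_of_le_ne_top hdl (n1_iter_le ha n)
    rw [e1, Summable.tsum_finsetSum]
    · refine Finset.sum_congr rfl fun i _ => ?_
      unfold cv
      rw [← tsum_mul_left]
      refine tsum_congr fun l => ?_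
      have : k - l - i = k - i - l := by ring
      rw [this]
      ring
    · intro i _
      have := (summable_cv ha' hq (k - i)).mul_left (f i)
      refine this.congr fun l => ?_
      have : k - l - i = k - i - l := by ring
      rw [this]
      ring

theorem tsum_shift {f Q : ℤ → ℝ} (S : Finset ℤ) (hS : ∀ k, k ∉ S → f k = 0) (k : ℤ) :
    ∑' j : ℤ, Q j * f (k - j) = ∑ i ∈ S, f i * Q (k - i) := by
  have : ∑' j : ℤ, Q j * f (k - j) = ∑' i : ℤ, f i * Q (k - i) := by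
    rw [← (Equiv.subLeft k).tsum_eq (fun i => f i * Q (k - i))]
    refine tsum_congr fun j => ?_
    simp [Equiv.subLeft, mul_comm]
  rw [this]
  refine tsum_eq_sum fun i hi => ?_
  rw [hS i hi, zero_mul]

/-- the expression in the square function -/
theorem diff_eq {a : ℤ → ℝ} (ha : n1 a ≤ 1) (f : ℤ → ℝ) (S : Finset ℤ)
    (hS : ∀ k, k ∉ S → f k = 0) (n m : ℕ) (k : ℤ) :
    ∑' j : ℤ, ((cv a)^[n] dl j - (cv a)^[m] dl j) * f (k - j)
      = (cv a)^[n] f k - (cv a)^[m] f k := by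
  rw [tsum_shift (Q := fun j => (cv a)^[n] dl j - (cv a)^[m] dl j) S hS k,
    iter_eq_sum ha f S hS n k, iter_eq_sum ha f S hS m k, ← Finset.sum_sub_distrib]
  exact Finset.sum_congr rfl fun i _ => by ring

/-- The square function is large where the iterates change by one half over a short
(logarithmic) range of times. -/
theorem sq_lower (x : ℕ → ℝ) (n1 n2 : ℕ) (h1 : 1 ≤ n1) (h12 : n1 ≤ n2) (η : ℝ) (hη : 0 < η)
    (hr : ((n2 : ℝ) - n1) ≤ η * n1) (hx : 1 / 2 ≤ x n2 - x n1) :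
    1 / (4 * η) ≤ ∑ n ∈ Finset.Ico n1 n2, (n : ℝ) * (x n - x (n + 1)) ^ 2 := by
  have htel : ∑ n ∈ Finset.Ico n1 n2, (x (n + 1) - x n) = x n2 - x n1 :=
    Finset.sum_Ico_sub x h12
  have hpos : ∀ n ∈ Finset.Ico n1 n2, (0 : ℝ) < n := by
    intro n hn
    rw [Finset.mem_Ico] at hn
    have : 0 < n := by omega
    exact_mod_cast this
  have hcs := Finset.sum_sq_le_sum_mul_sum_of_sq_le_mul (Finset.Ico n1 n2)
    (r := fun n => x (n + 1) - x n) (f := fun n => 1 / (n : ℝ))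
    (g := fun n => (n : ℝ) * (x n - x (n + 1)) ^ 2)
    (fun n hn => by have := hpos n hn; positivity)
    (fun n hn => by have := hpos n hn; positivity)
    (fun n hn => by
      have := hpos n hn
      apply le_of_eq
      field_simp
      ring)
  rw [htel] at hcs
  have hsum : ∑ n ∈ Finset.Ico n1 n2, 1 / (n : ℝ) ≤ η := by
    have hn1 : (0 : ℝ) < n1 := by exact_mod_cast h1
    calc ∑ n ∈ Finset.Ico n1 n2, 1 / (n : ℝ) ≤ ∑ n ∈ Finset.Ico n1 n2, 1 / (n1 : ℝ) := by
          refine Finset.sum_le_sum fun n hn => ?_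
          have : (n1 : ℝ) ≤ n := by
            rw [Finset.mem_Ico] at hn
            exact_mod_cast hn.1
          gcongr
      _ = ((n2 : ℝ) - n1) * (1 / n1) := by
          rw [Finset.sum_const, Nat.card_Ico, nsmul_eq_mul, Nat.cast_sub h12]
      _ ≤ η := by
          rw [mul_one_div, div_le_iff₀ hn1]
          exact hr
  have h0 : 0 ≤ ∑ n ∈ Finset.Ico n1 n2, (n : ℝ) * (x n - x (n + 1)) ^ 2 :=
    Finset.sum_nonneg fun n hn => by have := hpos n hn; positivity
  have h3 : (1 : ℝ) / 4 ≤ η * ∑ n ∈ Finset.Ico n1 n2, (n : ℝ) * (x n - x (n + 1)) ^ 2 := by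
    calc (1 : ℝ) / 4 = (1 / 2) ^ 2 := by norm_num
      _ ≤ (x n2 - x n1) ^ 2 := by gcongr
      _ ≤ _ := hcs
      _ ≤ _ := by gcongr
  rw [div_le_iff₀ (by positivity)]
  nlinarith

end Pool.Agent.Helper79.SqFn
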