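import Pool.Agent.Helper79.SqLimit

set_option autoImplicit false

namespace Pool.Agent.Helper79.SqFn

open scoped ENNReal LaurentPolynomial
open LaurentPolynomial Filter Topology

/-- the Fourier transform of a symmetric lazy law is real, and between 1/2 and 1 -/
theorem fourier_real {μ : ℤ → ℝ} (hnn : ∀ k, 0 ≤ μ k) (hsum : HasSum μ 1)
    (hsym : ∀ k, μ (-k) = μ k) (h0 : 3 / 4 ≤ μ 0) (h1 : 0 < μ 1) (t : ℝ) (ht : 0 < |t|)
    (ht' : |t| ≤ Real.pi) : ∃ c : ℝ, 1 / 2 ≤ c ∧ c < 1 ∧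
      ∑' k : ℤ, (μ k : ℂ) * Complex.exp (((t * (k : ℝ) : ℝ) : ℂ) * Complex.I) = (c : ℂ) := by
  have hS := hsum.summable
  have hcos : Summable fun k : ℤ => μ k * Real.cos (t * k) := by
    apply Summable.of_norm_bounded hS
    intro k
    rw [Real.norm_eq_abs, abs_mul, abs_of_nonneg (hnn k)]
    have := Real.abs_cos_le_one (t * k)
    have := hnn k
    nlinarith
  have hsin : Summable fun k : ℤ => μ k * Real.sin (t * k) := by
    apply Summable.of_norm_bounded hS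
    intro k
    rw [Real.norm_eq_abs, abs_mul, abs_of_nonneg (hnn k)]
    have := Real.abs_sin_le_one (t * k)
    have := hnn k
    nlinarith
  have hsin0 : ∑' k : ℤ, μ k * Real.sin (t * k) = 0 := by
    have e1 : ∑' k : ℤ, μ k * Real.sin (t * k) = ∑' k : ℤ, -(μ k * Real.sin (t * k)) := by
      rw [← (Equiv.neg ℤ).tsum_eq (fun k : ℤ => μ k * Real.sin (t * k))]
      refine tsum_congr fun k => ?_
      rw [Equiv.neg_apply, hsym]
      push_cast
      rw [mul_neg, Real.sin_neg, mul_neg]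
    rw [tsum_neg] at e1
    linarith
  refine ⟨∑' k : ℤ, μ k * Real.cos (t * k), ?_, ?_, ?_⟩
  · -- 1 - c ≤ 2 (1 - μ 0)
    have hH1 : HasSum (fun k : ℤ => μ k - μ k * Real.cos (t * k))
        (1 - ∑' k : ℤ, μ k * Real.cos (t * k)) := hsum.sub hcos.hasSum
    have hH2 : HasSum (fun k : ℤ => 2 * (μ k - if k = 0 then μ 0 else 0)) (2 * (1 - μ 0)) :=
      (hsum.sub (hasSum_ite_eq 0 (μ 0))).mul_left 2
    have hle : ∀ k : ℤ, μ k - μ k * Real.cos (t * k) ≤ 2 * (μ k - if k = 0 then μ 0 else 0) := by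
      intro k
      by_cases hk : k = 0
      · subst hk
        simp
      · rw [if_neg hk]
        have h2 := Real.neg_one_le_cos (t * k)
        have := hnn k
        nlinarith
    have := hasSum_le hle hH1 hH2
    linarith
  · have hH1 : HasSum (fun k : ℤ => μ k - μ k * Real.cos (t * k))
        (1 - ∑' k : ℤ, μ k * Real.cos (t * k)) := hsum.sub hcos.hasSum
    have hnn' : ∀ k : ℤ, 0 ≤ μ k - μ k * Real.cos (t * k) := by
      intro k
      have h2 := Real.cos_le_one (t * k)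
      have := hnn k
      nlinarith
    have h3 : μ 1 - μ 1 * Real.cos (t * (1 : ℤ)) ≤ 1 - ∑' k : ℤ, μ k * Real.cos (t * k) := by
      rw [← hH1.tsum_eq]
      exact hH1.summable.le_tsum 1 fun k _ => hnn' k
    have h4 : Real.cos t < 1 := by
      rw [← Real.cos_abs t, ← Real.cos_zero]
      exact Real.cos_lt_cos_of_nonneg_of_le_pi le_rfl ht' ht
    have h5 : Real.cos (t * (1 : ℤ)) = Real.cos t := by
      push_cast
      rw [mul_one]
    rw [h5] at h3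
    nlinarith
  · have hH : HasSum (fun k : ℤ => (μ k : ℂ) * Complex.exp (((t * (k : ℝ) : ℝ) : ℂ) * Complex.I))
        (((∑' k : ℤ, μ k * Real.cos (t * k) : ℝ) : ℂ)
          + ((∑' k : ℤ, μ k * Real.sin (t * k) : ℝ) : ℂ) * Complex.I) := by
      have ha := Complex.hasSum_ofReal.2 hcos.hasSum
      have hb := (Complex.hasSum_ofReal.2 hsin.hasSum).mul_right Complex.I
      have e : (fun k : ℤ => (μ k : ℂ) * Complex.exp (((t * (k : ℝ) : ℝ) : ℂ) * Complex.I))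
          = fun k : ℤ => ((μ k * Real.cos (t * k) : ℝ) : ℂ)
            + ((μ k * Real.sin (t * k) : ℝ) : ℂ) * Complex.I := by
        funext k
        rw [Complex.exp_mul_I]
        push_cast
        ring
      rw [e]
      exact ha.add hb
    rw [hH.tsum_eq, hsin0]
    simp

/-- the square function of a finitely supported function, with the sum started at zero -/
theorem sq_tsum {μ : ℤ → ℝ} (hμ : n1 μ ≤ 1) (f : ℤ → ℝ) (S : Finset ℤ)
    (hS : ∀ k, k ∉ S → f k = 0) (k : ℤ) (t₁ t₂ : ℕ) (h1 : 1 ≤ t₁) (h12 : t₁ ≤ t₂) (η : ℝ)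
    (hη : 0 < η) (hr : ((t₂ : ℝ) - t₁) ≤ η * t₁)
    (hx : 1 / 2 ≤ (cv μ)^[t₂] f k - (cv μ)^[t₁] f k) :
    ENNReal.ofReal (1 / (4 * η)) ≤ ∑' n : ℕ, ENNReal.ofReal (((n : ℝ) + 1) *
      (∑' j : ℤ, ((cv μ)^[n + 1] dl j - (cv μ)^[n + 2] dl j) * f (k - j)) ^ 2) := by
  set x : ℕ → ℝ := fun n => (cv μ)^[n] f k with hxdef
  have e1 : ∀ n : ℕ, ENNReal.ofReal (((n : ℝ) + 1) *
      (∑' j : ℤ, ((cv μ)^[n + 1] dl j - (cv μ)^[n + 2] dl j) * f (k - j)) ^ 2)
      = ENNReal.ofReal (((n + 1 : ℕ) : ℝ) * (x (n + 1) - x (n + 1 + 1)) ^ 2) := by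
    intro n
    rw [diff_eq hμ f S hS (n + 1) (n + 2) k]
    push_cast
    rfl
  rw [tsum_congr e1]
  have h2 := sq_lower x t₁ t₂ h1 h12 η hη hr hx
  calc ENNReal.ofReal (1 / (4 * η))
      ≤ ENNReal.ofReal (∑ n ∈ Finset.Ico t₁ t₂, (n : ℝ) * (x n - x (n + 1)) ^ 2) :=
        ENNReal.ofReal_le_ofReal h2
    _ ≤ ENNReal.ofReal (∑ n ∈ Finset.Ico 1 (t₂ + 1), (n : ℝ) * (x n - x (n + 1)) ^ 2) := by
        apply ENNReal.ofReal_le_ofReal
        apply Finset.sum_le_sum_of_subset_of_nonneg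
        · exact Finset.Ico_subset_Ico h1 (by omega)
        · intro n _ _
          positivity
    _ = ENNReal.ofReal (∑ n ∈ Finset.range t₂,
          (((n + 1 : ℕ) : ℝ) * (x (n + 1) - x (n + 1 + 1)) ^ 2)) := by
        congr 1
        rw [Finset.sum_Ico_eq_sum_range]
        simp only [Nat.add_sub_cancel]
        refine Finset.sum_congr rfl fun n _ => ?_
        rw [add_comm 1 n]
    _ = ∑ n ∈ Finset.range t₂, ENNReal.ofReal
          (((n + 1 : ℕ) : ℝ) * (x (n + 1) - x (n + 1 + 1)) ^ 2) := by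
        rw [ENNReal.ofReal_sum_of_nonneg]
        intro n _
        positivity
    _ ≤ _ := ENNReal.sum_le_tsum _

theorem n1_of_finite {f : ℤ → ℝ} {S : Finset ℤ} (hS : ∀ k, k ∉ S → f k = 0) :
    n1 f = ENNReal.ofReal (∑ k ∈ S, |f k|) := by
  unfold n1
  rw [tsum_eq_sum (s := S), ENNReal.ofReal_sum_of_nonneg (fun _ _ => abs_nonneg _)]
  · exact Finset.sum_congr rfl fun k _ => Real.enorm_eq_ofReal_abs (f k)
  · intro k hk
    rw [hS k hk, enorm_zero]

/-- few points are bad -/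
theorem card_bad {μ ν f : ℤ → ℝ} {S : Finset ℤ} (hS : ∀ k, k ∉ S → f k = 0)
    (hμ : n1 μ ≤ 1) (hν : n1 ν ≤ 1) {d : ℝ} (hd : 0 ≤ d)
    (hdist : n1 (fun k => μ k - ν k) ≤ ENNReal.ofReal (2 * d)) (t : ℕ) (ht : (t : ℝ) * d ≤ 1 / 128)
    (B : Finset ℤ) (hB : ∀ k ∈ B, 1 / 8 < |(cv μ)^[t] f k - (cv ν)^[t] f k|) :
    (B.card : ℝ) ≤ (∑ k ∈ S, |f k|) / 8 := by
  have hf : n1 f = ENNReal.ofReal (∑ k ∈ S, |f k|) := n1_of_finite hS
  have hf' : n1 f ≠ ⊤ := by rw [hf]; exact ENNReal.ofReal_ne_top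
  have h1 := n1_iter_sub_le hμ hν hf' hdist t
  have h2 := card_le_of_n1 (g := fun k => (cv μ)^[t] f k - (cv ν)^[t] f k) B (by norm_num) hB
  have hs0 : 0 ≤ ∑ k ∈ S, |f k| := Finset.sum_nonneg fun _ _ => abs_nonneg _
  have h3 := h2.trans h1
  rw [hf, ← ENNReal.ofReal_natCast, ← ENNReal.ofReal_natCast, ← ENNReal.ofReal_mul (by positivity),
    ← ENNReal.ofReal_mul (by positivity), ← ENNReal.ofReal_mul (by positivity),
    ENNReal.ofReal_le_ofReal_iff (by positivity)] at h3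
  have h4 : (t : ℝ) * (2 * d) * (∑ k ∈ S, |f k|) ≤ 1 / 64 * (∑ k ∈ S, |f k|) := by
    gcongr
    linarith
  linarith

theorem main : ∃ μ : ℤ → ℝ, (∀ k, 0 ≤ μ k) ∧ HasSum μ 1 ∧
    (∀ t : ℝ, 0 < |t| → |t| ≤ Real.pi → ∃ c : ℝ, 1 / 2 ≤ c ∧ c < 1 ∧
      ∑' k : ℤ, (μ k : ℂ) * Complex.exp (((t * (k : ℝ) : ℝ) : ℂ) * Complex.I) = (c : ℂ)) ∧
    ∀ A : ℝ, 0 < A → ∃ (f : ℤ → ℝ) (lam : ℝ), Summable (fun k => |f k|) ∧ 0 < lam ∧
      ENNReal.ofReal (A * (∑' k : ℤ, |f k|) / lam) < MeasureTheory.Measure.count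
          {k : ℤ | ENNReal.ofReal (lam ^ 2) <
            ∑' n : ℕ, ENNReal.ofReal (((n : ℝ) + 1) *
              (∑' j : ℤ, ((cv μ)^[n + 1] dl j - (cv μ)^[n + 2] dl j) * f (k - j)) ^ 2)} := by
  obtain ⟨μ, s, hs, hnn, hsum, hsym, hμ0, hμ1, hμn, hdist⟩ := exists_measure
  refine ⟨μ, hnn, hsum, fun t ht ht' => fourier_real hnn hsum hsym hμ0 hμ1 t ht ht', ?_⟩
  intro A hA
  set lam : ℝ := 4 * A + 1 with hlam
  have hlam0 : 0 < lam := by positivity
  obtain ⟨J, hJ⟩ := exists_nat_gt (4 * lam ^ 2)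
  obtain ⟨-, -, t₁, t₂, f, S, G, h1, h12, hr, hS, hpos, hG, hd, hGood⟩ := hs J
  set ν : ℤ → ℝ := fun i => (s (J + 1)).p.coeff i with hν
  have hνn : n1 ν ≤ 1 := (s (J + 1)).hp.n1_eq.le
  have hdist' : n1 (fun k => μ k - ν k) ≤ ENNReal.ofReal (2 * (s (J + 1)).d) := hdist (J + 1)
  have hd0 := (s (J + 1)).hd
  have ht1 : (t₁ : ℝ) * (s (J + 1)).d ≤ 1 / 128 := by
    refine le_trans ?_ hd
    gcongr
  classical
  set B1 : Finset ℤ := G.filter (fun k => 1 / 8 < |(cv μ)^[t₁] f k - (cv ν)^[t₁] f k|) with hB1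
  set B2 : Finset ℤ := G.filter (fun k => 1 / 8 < |(cv μ)^[t₂] f k - (cv ν)^[t₂] f k|) with hB2
  have c1 := card_bad hS hμn hνn hd0.le hdist' t₁ ht1 B1 fun k hk => (Finset.mem_filter.1 hk).2
  have c2 := card_bad hS hμn hνn hd0.le hdist' t₂ hd B2 fun k hk => (Finset.mem_filter.1 hk).2
  have hsumm : Summable (fun k => |f k|) := by
    apply summable_of_ne_finset_zero (s := S)
    intro k hk
    rw [hS k hk, abs_zero]
  have htsum : ∑' k, |f k| = ∑ k ∈ S, |f k| := by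
    apply tsum_eq_sum
    intro k hk
    rw [hS k hk, abs_zero]
  refine ⟨f, lam, hsumm, hlam0, ?_⟩
  rw [htsum]
  set T : ℝ := ∑ k ∈ S, |f k| with hT
  have hcard : T / 4 ≤ ((G \ (B1 ∪ B2)).card : ℝ) := by
    have h3 : G.card ≤ (G \ (B1 ∪ B2)).card + (B1 ∪ B2).card := by
      have := Finset.card_le_card_sdiff_add_card (s := G) (t := B1 ∪ B2)
      exact this
    have h4 := Finset.card_union_le B1 B2
    have h5 : (G.card : ℝ) ≤ (G \ (B1 ∪ B2)).card + (B1.card + B2.card) := by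
      exact_mod_cast h3.trans (Nat.add_le_add_left h4 _)
    linarith
  have hsub : ((G \ (B1 ∪ B2) : Finset ℤ) : Set ℤ) ⊆ {k : ℤ | ENNReal.ofReal (lam ^ 2) <
            ∑' n : ℕ, ENNReal.ofReal (((n : ℝ) + 1) *
              (∑' j : ℤ, ((cv μ)^[n + 1] dl j - (cv μ)^[n + 2] dl j) * f (k - j)) ^ 2)} := by
    intro k hk
    rw [Finset.mem_coe, Finset.mem_sdiff, Finset.mem_union, not_or] at hk
    obtain ⟨hkG, hk1, hk2⟩ := hk
    have g1 : |(cv μ)^[t₁] f k - (cv ν)^[t₁] f k| ≤ 1 / 8 := by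
      by_contra hcon
      push Not at hcon
      exact hk1 (Finset.mem_filter.2 ⟨hkG, hcon⟩)
    have g2 : |(cv μ)^[t₂] f k - (cv ν)^[t₂] f k| ≤ 1 / 8 := by
      by_contra hcon
      push Not at hcon
      exact hk2 (Finset.mem_filter.2 ⟨hkG, hcon⟩)
    obtain ⟨g3, g4⟩ := hGood k hkG
    rw [abs_le] at g1 g2
    have hx : 1 / 2 ≤ (cv μ)^[t₂] f k - (cv μ)^[t₁] f k := by
      have := g1.2
      have := g2.1
      linarith
    have hη : (0 : ℝ) < 1 / ((J : ℝ) + 1) := by positivity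
    have key := sq_tsum hμn f S hS k t₁ t₂ h1 h12 _ hη hr hx
    change ENNReal.ofReal (lam ^ 2) < _
    refine lt_of_lt_of_le ?_ key
    apply (ENNReal.ofReal_lt_ofReal_iff_of_nonneg (by positivity)).2
    have : 1 / (4 * (1 / ((J : ℝ) + 1))) = ((J : ℝ) + 1) / 4 := by
      field_simp
    rw [this]
    linarith
  have hcount : ((G \ (B1 ∪ B2)).card : ℝ≥0∞) ≤ MeasureTheory.Measure.count
      {k : ℤ | ENNReal.ofReal (lam ^ 2) <
            ∑' n : ℕ, ENNReal.ofReal (((n : ℝ) + 1) *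
              (∑' j : ℤ, ((cv μ)^[n + 1] dl j - (cv μ)^[n + 2] dl j) * f (k - j)) ^ 2)} := by
    rw [← MeasureTheory.Measure.count_apply_finset]
    exact MeasureTheory.measure_mono hsub
  refine lt_of_lt_of_le ?_ hcount
  rw [← ENNReal.ofReal_natCast]
  apply (ENNReal.ofReal_lt_ofReal_iff_of_nonneg (by positivity)).2
  refine lt_of_lt_of_le ?_ hcard
  rw [div_lt_div_iff₀ hlam0 (by norm_num), hlam]
  nlinarith

end Pool.Agent.Helper79.SqFn
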