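import Pool.Agent.Helper79.SqBasic

set_option autoImplicit false

namespace Pool.Agent.Helper79.SqFn

open scoped ENNReal LaurentPolynomial
open LaurentPolynomial

/-- translation operator -/
def tr (a : ℤ) : Module.End ℝ (ℤ → ℝ) where
  toFun f := fun k => f (k - a)
  map_add' _ _ := rfl
  map_smul' _ _ := rfl

/-- the translation representation -/
def trHom : Multiplicative ℤ →* Module.End ℝ (ℤ → ℝ) where
  toFun a := tr a.toAdd
  map_one' := by
    ext f k
    simp [tr]
  map_mul' a b := by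
    refine LinearMap.ext fun f => funext fun k => ?_
    change f (k - (a * b).toAdd) = f (k - a.toAdd - b.toAdd)
    rw [toAdd_mul]
    congr 1
    ring

/-- action of Laurent polynomials on functions by convolution -/
noncomputable def act : ℝ[T;T⁻¹] →ₐ[ℝ] Module.End ℝ (ℤ → ℝ) :=
  AddMonoidAlgebra.lift ℝ (Module.End ℝ (ℤ → ℝ)) ℤ trHom

theorem act_apply (p : ℝ[T;T⁻¹]) (f : ℤ → ℝ) (k : ℤ) :
    act p f k = ∑ a ∈ p.coeff.support, p.coeff a * f (k - a) := by
  unfold act
  rw [AddMonoidAlgebra.lift_apply, Finsupp.sum, LinearMap.sum_apply, Finset.sum_apply]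
  rfl

theorem act_eq_cv (p : ℝ[T;T⁻¹]) (f : ℤ → ℝ) : act p f = cv (fun i => p.coeff i) f := by
  funext k
  rw [act_apply]
  unfold cv
  rw [tsum_eq_sum (s := p.coeff.support)]
  intro b hb
  change p.coeff b * f (k - b) = 0
  rw [Finsupp.notMem_support_iff.1 hb, zero_mul]

theorem act_pow_eq (p : ℝ[T;T⁻¹]) (f : ℤ → ℝ) (n : ℕ) :
    act (p ^ n) f = (cv (fun i => p.coeff i))^[n] f := by
  induction n generalizing f with
  | zero => simp
  | succ n ih =>
    rw [pow_succ, map_mul, Module.End.mul_apply, ih, Function.iterate_succ_apply, act_eq_cv]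

theorem act_T (a : ℤ) (f : ℤ → ℝ) (k : ℤ) : act (T a) f k = f (k - a) := by
  unfold act
  have : (T a : ℝ[T;T⁻¹]) = AddMonoidAlgebra.single a 1 := rfl
  rw [this, AddMonoidAlgebra.lift_single, one_smul]
  rfl

theorem act_dl (p : ℝ[T;T⁻¹]) (k : ℤ) : act p dl k = p.coeff k := by
  rw [act_apply]
  unfold dl
  by_cases hk : k ∈ p.coeff.support
  · rw [Finset.sum_eq_single k]
    · simp
    · intro b _ hb
      have : ¬ (k - b = 0) := fun h => hb (by omega)
      simp [this]
    · intro h; exact absurd hk h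
  · rw [Finsupp.notMem_support_iff.1 hk, Finset.sum_eq_zero]
    intro b hb
    have : ¬ (k - b = 0) := fun h => hk (by
      have : k = b := by omega
      rw [this]; exact hb)
    simp [this]

/-- a symmetric finitely supported probability law -/
structure Nice (p : ℝ[T;T⁻¹]) : Prop where
  nonneg : ∀ i, 0 ≤ p.coeff i
  one : act p (fun _ => 1) = fun _ => 1
  sym : invert p = p

theorem Nice.act_nonneg {p : ℝ[T;T⁻¹]} (hp : Nice p) {f : ℤ → ℝ} (hf : ∀ k, 0 ≤ f k) (k : ℤ) :
    0 ≤ act p f k := by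
  rw [act_apply]
  exact Finset.sum_nonneg fun i _ => mul_nonneg (hp.nonneg i) (hf _)

theorem nice_of_act {p : ℝ[T;T⁻¹]} (h : ∀ f : ℤ → ℝ, (∀ k, 0 ≤ f k) → ∀ k, 0 ≤ act p f k)
    (h1 : act p (fun _ => 1) = fun _ => 1) (hs : invert p = p) : Nice p where
  nonneg i := by
    rw [← act_dl]
    exact h _ (fun k => by unfold dl; split_ifs <;> norm_num) i
  one := h1
  sym := hs

theorem Nice.mul {p q : ℝ[T;T⁻¹]} (hp : Nice p) (hq : Nice q) : Nice (p * q) := by
  refine nice_of_act ?_ ?_ ?_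
  · intro f hf k
    rw [map_mul, Module.End.mul_apply]
    exact hp.act_nonneg (fun j => hq.act_nonneg hf j) k
  · rw [map_mul, Module.End.mul_apply, hq.one, hp.one]
  · rw [map_mul, hp.sym, hq.sym]

theorem nice_one : Nice (1 : ℝ[T;T⁻¹]) := by
  refine nice_of_act ?_ ?_ ?_
  · intro f hf k
    rw [map_one]
    exact hf k
  · rw [map_one]; rfl
  · exact map_one _

theorem nice_prod {ι : Type*} (s : Finset ι) (p : ι → ℝ[T;T⁻¹]) (h : ∀ i ∈ s, Nice (p i)) :
    Nice (∏ i ∈ s, p i) := by
  classical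
  induction s using Finset.induction_on with
  | empty => simpa using nice_one
  | insert a s ha ih =>
    rw [Finset.prod_insert ha]
    exact (h a (Finset.mem_insert_self _ _)).mul
      (ih fun i hi => h i (Finset.mem_insert_of_mem hi))

theorem Nice.conv {p q : ℝ[T;T⁻¹]} (hp : Nice p) (hq : Nice q) {e : ℝ} (h0 : 0 ≤ e) (h1 : e ≤ 1) :
    Nice ((1 - e) • p + e • q) := by
  refine nice_of_act ?_ ?_ ?_
  · intro f hf k
    rw [map_add, map_smul, map_smul]
    have a := hp.act_nonneg hf k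
    have b := hq.act_nonneg hf k
    have c : 0 ≤ 1 - e := by linarith
    exact add_nonneg (mul_nonneg c a) (mul_nonneg h0 b)
  · rw [map_add, map_smul, map_smul, LinearMap.add_apply, LinearMap.smul_apply,
      LinearMap.smul_apply, hp.one, hq.one]
    funext k
    simp
  · rw [map_add, map_smul, map_smul, hp.sym, hq.sym]

theorem Nice.n1_eq {p : ℝ[T;T⁻¹]} (hp : Nice p) : n1 (fun i => p.coeff i) = 1 := by
  have hs : HasSum (fun i => p.coeff i) (∑ a ∈ p.coeff.support, p.coeff a) := by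
    apply hasSum_sum_of_ne_finset_zero
    intro b hb
    exact Finsupp.notMem_support_iff.1 hb
  have h1 : ∑ a ∈ p.coeff.support, p.coeff a = 1 := by
    have := congrFun hp.one 0
    rw [act_apply] at this
    simpa using this
  rw [h1] at hs
  unfold n1
  have e : ∀ i, ‖p.coeff i‖ₑ = ENNReal.ofReal (p.coeff i) := fun i => by
    rw [Real.enorm_eq_ofReal_abs, abs_of_nonneg (hp.nonneg i)]
  rw [tsum_congr e, ← ENNReal.ofReal_tsum_of_nonneg hp.nonneg hs.summable, hs.tsum_eq,
    ENNReal.ofReal_one]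

theorem Nice.n1_act_le {p : ℝ[T;T⁻¹]} (hp : Nice p) (f : ℤ → ℝ) : n1 (act p f) ≤ n1 f := by
  rw [act_eq_cv]
  calc _ ≤ _ := n1_cv_le _ _
    _ = n1 f := by rw [hp.n1_eq, one_mul]

/-- locality -/
def Loc (p : ℝ[T;T⁻¹]) (A : ℕ) : Prop :=
  ∀ (f g : ℤ → ℝ) (k : ℤ), (∀ j : ℤ, |j - k| ≤ (A : ℤ) → f j = g j) → act p f k = act p g k

theorem exists_loc (p : ℝ[T;T⁻¹]) : ∃ A : ℕ, Loc p A := by
  refine ⟨p.coeff.support.sup Int.natAbs, fun f g k h => ?_⟩
  rw [act_apply, act_apply]
  refine Finset.sum_congr rfl fun a ha => ?_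
  rw [h]
  have h1 : a.natAbs ≤ p.coeff.support.sup Int.natAbs := Finset.le_sup (f := Int.natAbs) ha
  have h2 : |k - a - k| = (a.natAbs : ℤ) := by
    rw [show k - a - k = -a by ring, abs_neg, Int.natCast_natAbs]
  rw [h2]
  exact_mod_cast h1

theorem Loc.pow {p : ℝ[T;T⁻¹]} {A : ℕ} (h : Loc p A) (n : ℕ) : Loc (p ^ n) (A * n) := by
  induction n with
  | zero =>
    intro f g k hfg
    rw [pow_zero, map_one]
    exact hfg k (by simp)
  | succ n ih =>
    intro f g k hfg
    rw [pow_succ, map_mul, Module.End.mul_apply, Module.End.mul_apply]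
    apply ih
    intro j hj
    apply h
    intro i hi
    apply hfg
    have : |i - k| ≤ |i - j| + |j - k| := abs_sub_le i j k
    push_cast at *
    nlinarith

theorem Loc.mono {p : ℝ[T;T⁻¹]} {A B : ℕ} (h : Loc p A) (hAB : A ≤ B) : Loc p B := by
  intro f g k hfg
  exact h f g k fun j hj => hfg j (hj.trans (by exact_mod_cast hAB))

theorem Nice.pow_one {p : ℝ[T;T⁻¹]} (hp : Nice p) (n : ℕ) (c : ℝ) :
    act (p ^ n) (fun _ => c) = fun _ => c := by
  have hc : act p (fun _ => c) = fun _ => c := by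
    have : (fun _ : ℤ => c) = c • (fun _ : ℤ => (1 : ℝ)) := by funext k; simp
    rw [this, map_smul, hp.one]
  induction n with
  | zero => rw [pow_zero, map_one]; rfl
  | succ n ih => rw [pow_succ, map_mul, Module.End.mul_apply, hc, ih]

/-- the symmetrised uniform average over multiples of d -/
noncomputable def avg (q : ℕ) (d : ℤ) : ℝ[T;T⁻¹] :=
  (1 / (2 * (q : ℝ))) • ∑ l ∈ Finset.range q, (T (d * l) + T (-(d * l)))

theorem act_avg (q : ℕ) (d : ℤ) (f : ℤ → ℝ) (k : ℤ) :
    act (avg q d) f k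
      = (1 / (2 * (q : ℝ))) * ∑ l ∈ Finset.range q, (f (k - d * l) + f (k + d * l)) := by
  unfold avg
  rw [map_smul, LinearMap.smul_apply, Pi.smul_apply, smul_eq_mul, map_sum, LinearMap.sum_apply,
    Finset.sum_apply]
  congr 1
  refine Finset.sum_congr rfl fun l _ => ?_
  rw [map_add, LinearMap.add_apply, Pi.add_apply, act_T, act_T, sub_neg_eq_add]

theorem nice_avg (q : ℕ) (hq : 0 < q) (d : ℤ) : Nice (avg q d) := by
  have hq' : (0 : ℝ) < q := by exact_mod_cast hq
  refine nice_of_act ?_ ?_ ?_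
  · intro f hf k
    rw [act_avg]
    refine mul_nonneg (by positivity) (Finset.sum_nonneg fun l _ => add_nonneg (hf _) (hf _))
  · funext k
    rw [act_avg]
    simp only [Finset.sum_const, Finset.card_range, nsmul_eq_mul]
    field_simp
    ring
  · unfold avg
    rw [map_smul, map_sum]
    congr 1
    refine Finset.sum_congr rfl fun l _ => ?_
    rw [map_add, invert_T, invert_T, neg_neg, add_comm]

end Pool.Agent.Helper79.SqFn
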