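import Pool.Agent.Helper79.SqStepMain

set_option autoImplicit false

namespace Pool.Agent.Helper79.SqFn

open scoped ENNReal LaurentPolynomial
open LaurentPolynomial Filter Topology

/-- state of the construction: a law and the size of the next allowed change -/
structure St where
  p : ℝ[T;T⁻¹]
  d : ℝ
  hp : Nice p
  hd : 0 < d

/-- one step of the construction -/
def Rel (J : ℕ) (s s' : St) : Prop :=
  n1 (fun k => s'.p.coeff k - s.p.coeff k) ≤ ENNReal.ofReal s.d ∧ s'.d ≤ s.d / 2 ∧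
  ∃ (t₁ t₂ : ℕ) (f : ℤ → ℝ) (S G : Finset ℤ), 1 ≤ t₁ ∧ t₁ ≤ t₂ ∧
      ((t₂ : ℝ) - t₁ ≤ (1 / ((J : ℝ) + 1)) * t₁) ∧ (∀ k, k ∉ S → f k = 0) ∧
      0 < ∑ k ∈ S, |f k| ∧ ∑ k ∈ S, |f k| ≤ 2 * G.card ∧ (t₂ : ℝ) * s'.d ≤ 1 / 128 ∧
      ∀ k ∈ G, (cv (fun i => s'.p.coeff i))^[t₁] f k ≤ 1 / 8 ∧
        7 / 8 ≤ (cv (fun i => s'.p.coeff i))^[t₂] f k

theorem exists_next (J : ℕ) (s : St) : ∃ s' : St, Rel J s s' := by
  obtain ⟨p', t₁, t₂, f, S, G, hp', h1, h2, h3, h4, h5, h6, h7, h8⟩ :=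
    step s.p s.hp s.d (1 / ((J : ℝ) + 1)) s.hd (by positivity)
  have hd := s.hd
  refine ⟨⟨p', min (s.d / 2) (1 / (128 * (t₂ + 1))), hp', lt_min (by positivity) (by positivity)⟩,
    h1, min_le_left _ _, t₁, t₂, f, S, G, h2, h3, h4, h5, h6, h7, ?_, h8⟩
  calc (t₂ : ℝ) * min (s.d / 2) (1 / (128 * (t₂ + 1))) ≤ t₂ * (1 / (128 * (t₂ + 1))) := by
        gcongr
        exact min_le_right _ _
    _ ≤ 1 / 128 := by
        rw [mul_one_div, div_le_div_iff₀ (by positivity) (by norm_num)]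
        have : (0 : ℝ) ≤ t₂ := by positivity
        nlinarith

/-- the initial law -/
noncomputable def p0 : ℝ[T;T⁻¹] := bl (1 / 4) 2 1

theorem p0_nice : Nice p0 := nice_bl (by norm_num) (by norm_num) (by norm_num) 1

theorem p0_zero : p0.coeff 0 = 7 / 8 := by
  rw [← act_dl, p0, act_bl, act_avg, Finset.sum_range_succ, Finset.sum_range_one]
  simp [dl]
  norm_num

theorem p0_one : p0.coeff 1 = 1 / 16 := by
  rw [← act_dl, p0, act_bl, act_avg, Finset.sum_range_succ, Finset.sum_range_one]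
  simp [dl]
  norm_num

theorem exists_seq : ∃ s : ℕ → St, (s 0).p = p0 ∧ (s 0).d = 1 / 64 ∧ ∀ J, Rel J (s J) (s (J + 1)) := by
  choose nx hnx using exists_next
  refine ⟨fun J => Nat.rec ⟨p0, 1 / 64, p0_nice, by norm_num⟩ (fun J s => nx J s) J, rfl, rfl, ?_⟩
  intro J
  exact hnx J _

theorem Nice.hasSum {p : ℝ[T;T⁻¹]} (hp : Nice p) : HasSum (fun i => p.coeff i) 1 := by
  have hs : HasSum (fun i => p.coeff i) (∑ a ∈ p.coeff.support, p.coeff a) := by
    apply hasSum_sum_of_ne_finset_zero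
    intro b hb
    exact Finsupp.notMem_support_iff.1 hb
  have h1 : ∑ a ∈ p.coeff.support, p.coeff a = 1 := by
    have := congrFun hp.one 0
    rw [act_apply] at this
    simpa using this
  rwa [h1] at hs

section limit

variable (s : ℕ → St) (hs : ∀ J, Rel J (s J) (s (J + 1)))

include hs

theorem seq_d (J : ℕ) : (s J).d ≤ (s 0).d * (1 / 2) ^ J := by
  induction J with
  | zero => simp
  | succ n ih =>
    have := (hs n).2.1
    rw [pow_succ]
    linarith

theorem seq_n1 (J i : ℕ) : n1 (fun k => (s (J + i)).p.coeff k - (s J).p.coeff k)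
    ≤ ENNReal.ofReal (2 * (s J).d - 2 * (s (J + i)).d) := by
  have hmono : ∀ i, (s (J + i)).d ≤ (s J).d := by
    intro i
    induction i with
    | zero => exact le_rfl
    | succ n ih =>
      have h1 := (hs (J + n)).2.1
      have h2 := (s (J + n)).hd
      have : (s (J + n + 1)).d ≤ (s (J + n)).d := by linarith
      exact this.trans ih
  induction i with
  | zero => simp [n1]
  | succ n ih =>
    have e1 : (fun k => (s (J + (n + 1))).p.coeff k - (s J).p.coeff k)
        = fun k => ((s (J + n + 1)).p.coeff k - (s (J + n)).p.coeff k)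
          + ((s (J + n)).p.coeff k - (s J).p.coeff k) := by
      funext k
      rw [← add_assoc]
      ring
    rw [e1]
    refine (n1_add_le' _ _).trans ?_
    have h1 := (hs (J + n)).1
    have h2 := (hs (J + n)).2.1
    have h3 := (s (J + n)).hd
    calc _ ≤ ENNReal.ofReal (s (J + n)).d + ENNReal.ofReal (2 * (s J).d - 2 * (s (J + n)).d) :=
          add_le_add h1 ih
      _ = ENNReal.ofReal ((s (J + n)).d + (2 * (s J).d - 2 * (s (J + n)).d)) := by
          rw [ENNReal.ofReal_add h3.le (by linarith [hmono n])]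
      _ ≤ _ := by
          apply ENNReal.ofReal_le_ofReal
          have : (s (J + (n + 1))).d = (s (J + n + 1)).d := rfl
          rw [this]
          linarith

theorem exists_lim : ∃ μ : ℤ → ℝ, (∀ k, Tendsto (fun J => (s J).p.coeff k) atTop (𝓝 (μ k))) ∧
    ∀ J, n1 (fun k => μ k - (s J).p.coeff k) ≤ ENNReal.ofReal (2 * (s J).d) := by
  have hc : ∀ k, ∃ x, Tendsto (fun J => (s J).p.coeff k) atTop (𝓝 x) := by
    intro k
    apply cauchySeq_tendsto_of_complete
    apply cauchySeq_of_le_geometric (1 / 2) (s 0).d (by norm_num)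
    intro n
    rw [dist_comm, Real.dist_eq]
    have h1 := (enorm_le_n1 (fun k => (s (n + 1)).p.coeff k - (s n).p.coeff k) k).trans (hs n).1
    rw [Real.enorm_eq_ofReal_abs, ENNReal.ofReal_le_ofReal_iff (s n).hd.le] at h1
    exact h1.trans (seq_d s hs n)
  choose μ hμ using hc
  refine ⟨μ, hμ, fun J => ?_⟩
  unfold n1
  rw [ENNReal.tsum_eq_iSup_sum]
  refine iSup_le fun t => ?_
  have hlim : Tendsto (fun K => ∑ k ∈ t, ‖(s K).p.coeff k - (s J).p.coeff k‖ₑ) atTop
      (𝓝 (∑ k ∈ t, ‖μ k - (s J).p.coeff k‖ₑ)) := by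
    apply tendsto_finsetSum
    intro k _
    exact (continuous_enorm.tendsto _).comp ((hμ k).sub_const _)
  refine le_of_tendsto hlim ?_
  filter_upwards [eventually_ge_atTop J] with K hK
  obtain ⟨i, rfl⟩ := Nat.exists_eq_add_of_le hK
  calc _ ≤ n1 (fun k => (s (J + i)).p.coeff k - (s J).p.coeff k) := ENNReal.sum_le_tsum t
    _ ≤ _ := seq_n1 s hs J i
    _ ≤ _ := by
      apply ENNReal.ofReal_le_ofReal
      have := (s (J + i)).hd
      linarith

end limit

theorem exists_measure : ∃ (μ : ℤ → ℝ) (s : ℕ → St), (∀ J, Rel J (s J) (s (J + 1))) ∧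
    (∀ k, 0 ≤ μ k) ∧ HasSum μ 1 ∧ (∀ k, μ (-k) = μ k) ∧ 3 / 4 ≤ μ 0 ∧ 0 < μ 1 ∧ n1 μ ≤ 1 ∧
    ∀ J, n1 (fun k => μ k - (s J).p.coeff k) ≤ ENNReal.ofReal (2 * (s J).d) := by
  obtain ⟨s, hs0, hsd, hs⟩ := exists_seq
  obtain ⟨μ, hμ, hn⟩ := exists_lim s hs
  have hnn : ∀ k, 0 ≤ μ k := fun k =>
    ge_of_tendsto' (hμ k) fun J => (s J).hp.nonneg k
  have hfin : n1 μ ≠ ⊤ := by
    have h1 : n1 μ ≤ n1 (fun k => μ k - (s 0).p.coeff k) + n1 (fun k => (s 0).p.coeff k) := by
      have := n1_add_le' (fun k => μ k - (s 0).p.coeff k) (fun k => (s 0).p.coeff k)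
      simpa using this
    refine ne_top_of_le_ne_top ?_ h1
    rw [(s 0).hp.n1_eq]
    exact ENNReal.add_ne_top.2 ⟨ne_top_of_le_ne_top ENNReal.ofReal_ne_top (hn 0),
      ENNReal.one_ne_top⟩
  have hsum : Summable μ := summable_of_n1 hfin
  have htot : ∑' k, μ k = 1 := by
    have hb : ∀ J, |∑' k, μ k - 1| ≤ 2 * ((s 0).d * (1 / 2) ^ J) := by
      intro J
      have h1 : ∑' k, (μ k - (s J).p.coeff k) = ∑' k, μ k - 1 := by
        rw [hsum.tsum_sub (s J).hp.hasSum.summable, (s J).hp.hasSum.tsum_eq]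
      have h2 : ‖∑' k, (μ k - (s J).p.coeff k)‖ₑ ≤ ENNReal.ofReal (2 * (s J).d) :=
        enorm_tsum_le_tsum_enorm.trans (hn J)
      rw [h1, Real.enorm_eq_ofReal_abs, ENNReal.ofReal_le_ofReal_iff
        (by have := (s J).hd; positivity)] at h2
      have := seq_d s hs J
      linarith
    have hlim : Tendsto (fun J : ℕ => 2 * ((s 0).d * (1 / 2 : ℝ) ^ J)) atTop (𝓝 0) := by
      have := (tendsto_pow_atTop_nhds_zero_of_lt_one (r := (1 / 2 : ℝ)) (by norm_num)
        (by norm_num)).const_mul (s 0).d |>.const_mul 2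
      simpa using this
    have h3 : |∑' k, μ k - 1| ≤ 0 := ge_of_tendsto' hlim hb
    have h4 := abs_nonpos_iff.1 h3
    linarith
  have hHas : HasSum μ 1 := by
    rw [← htot]
    exact hsum.hasSum
  have hclose : ∀ k, |μ k - p0.coeff k| ≤ 1 / 32 := by
    intro k
    have h1 := (enorm_le_n1 (fun k => μ k - (s 0).p.coeff k) k).trans (hn 0)
    rw [Real.enorm_eq_ofReal_abs, ENNReal.ofReal_le_ofReal_iff
      (by have := (s 0).hd; positivity), hs0, hsd] at h1
    linarith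
  refine ⟨μ, s, hs, hnn, hHas, ?_, ?_, ?_, ?_, hn⟩
  · intro k
    refine tendsto_nhds_unique (hμ (-k)) ?_
    have : (fun J => (s J).p.coeff (-k)) = fun J => (s J).p.coeff k := by
      funext J
      rw [← invert_apply, (s J).hp.sym]
    rw [this]
    exact hμ k
  · have := hclose 0
    rw [p0_zero, abs_le] at this
    linarith [this.1]
  · have := hclose 1
    rw [p0_one, abs_le] at this
    linarith [this.1]
  · unfold n1
    have e : ∀ i, ‖μ i‖ₑ = ENNReal.ofReal (μ i) := fun i => by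
      rw [Real.enorm_eq_ofReal_abs, abs_of_nonneg (hnn i)]
    rw [tsum_congr e, ← ENNReal.ofReal_tsum_of_nonneg hnn hsum, htot, ENNReal.ofReal_one]

end Pool.Agent.Helper79.SqFn
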