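import Pool.Agent.Helper79.SqLaw

set_option autoImplicit false

namespace Pool.Agent.Helper79.SqFn

open scoped ENNReal LaurentPolynomial
open LaurentPolynomial

/-- a lazy averaging step -/
noncomputable def bl (e : ℝ) (q : ℕ) (d : ℤ) : ℝ[T;T⁻¹] := (1 - e) • 1 + e • avg q d

theorem nice_bl {e : ℝ} (h0 : 0 ≤ e) (h1 : e ≤ 1) {q : ℕ} (hq : 0 < q) (d : ℤ) :
    Nice (bl e q d) := nice_one.conv (nice_avg q hq d) h0 h1

theorem act_bl (e : ℝ) (q : ℕ) (d : ℤ) (f : ℤ → ℝ) (k : ℤ) :
    act (bl e q d) f k = (1 - e) * f k + e * act (avg q d) f k := by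
  unfold bl
  rw [map_add, map_smul, map_smul, map_one]
  rfl

theorem n1_bl_sub {e : ℝ} (h0 : 0 ≤ e) {q : ℕ} (hq : 0 < q) (d : ℤ) (f : ℤ → ℝ) :
    n1 (fun k => act (bl e q d) f k - f k) ≤ ENNReal.ofReal (2 * e) * n1 f := by
  have e1 : (fun k => act (bl e q d) f k - f k) = fun k => e * (act (avg q d) f k - f k) := by
    funext k
    rw [act_bl]
    ring
  rw [e1, n1_smul]
  calc ‖e‖ₑ * n1 (fun k => act (avg q d) f k - f k)
      ≤ ‖e‖ₑ * (n1 (act (avg q d) f) + n1 f) := by
        gcongr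
        exact n1_sub_le _ _
    _ ≤ ‖e‖ₑ * (n1 f + n1 f) := by
        gcongr
        exact (nice_avg q hq d).n1_act_le f
    _ = ENNReal.ofReal (2 * e) * n1 f := by
        rw [Real.enorm_eq_ofReal_abs, abs_of_nonneg h0, ENNReal.ofReal_mul (by norm_num),
          ← two_mul, ← mul_assoc, mul_comm (ENNReal.ofReal e), ENNReal.ofReal_ofNat]

theorem n1_prod_sub {ι : Type*} {e : ℝ} (h0 : 0 ≤ e) (h1 : e ≤ 1) (s : Finset ι) (q : ι → ℕ)
    (hq : ∀ i, 0 < q i) (d : ι → ℤ) (f : ℤ → ℝ) :
    n1 (fun k => act (∏ i ∈ s, bl e (q i) (d i)) f k - f k)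
      ≤ (s.card : ℝ≥0∞) * ENNReal.ofReal (2 * e) * n1 f := by
  classical
  induction s using Finset.induction_on with
  | empty =>
    have : n1 (fun k => act (∏ i ∈ (∅ : Finset ι), bl e (q i) (d i)) f k - f k) = 0 := by
      simp [n1]
    rw [this]
    exact zero_le
  | insert a s ha ih =>
    have hs : Nice (∏ i ∈ s, bl e (q i) (d i)) :=
      nice_prod s _ fun i _ => nice_bl h0 h1 (hq i) (d i)
    rw [Finset.prod_insert ha, Finset.card_insert_of_notMem ha]
    have e1 : (fun k => act (bl e (q a) (d a) * ∏ i ∈ s, bl e (q i) (d i)) f k - f k)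
        = fun k => act (∏ i ∈ s, bl e (q i) (d i)) (fun j => act (bl e (q a) (d a)) f j - f j) k
          + (act (∏ i ∈ s, bl e (q i) (d i)) f k - f k) := by
      funext k
      rw [mul_comm, map_mul, Module.End.mul_apply]
      have : (fun j => act (bl e (q a) (d a)) f j - f j) = act (bl e (q a) (d a)) f - f := rfl
      rw [this, map_sub, Pi.sub_apply]
      ring
    rw [e1]
    refine (n1_add_le' _ _).trans ?_
    have i1 := (hs.n1_act_le (fun j => act (bl e (q a) (d a)) f j - f j)).trans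
      (n1_bl_sub h0 (hq a) (d a) f)
    calc _ ≤ ENNReal.ofReal (2 * e) * n1 f
          + (s.card : ℝ≥0∞) * ENNReal.ofReal (2 * e) * n1 f := add_le_add i1 ih
      _ = ((s.card + 1 : ℕ) : ℝ≥0∞) * ENNReal.ofReal (2 * e) * n1 f := by push_cast; ring

/-- a factor of the Riesz product -/
noncomputable def ph (q : ℕ) (v : ℝ) (c : ℤ) : ℝ :=
  v * q * (if (q : ℤ) ∣ c then 1 else 0) + (1 - v)

/-- the Riesz product -/
noncomputable def rz {m : ℕ} (L : ℕ) (q : Fin m → ℕ) (v : Fin m → ℝ) (k : ℤ) : ℝ :=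
  ∏ i, ph (q i) (v i) (k / L)

theorem count_res (q : ℕ) (hq : 0 < q) (M c : ℤ) (hM : IsCoprime M q) :
    ∑ l ∈ Finset.range q, (if (q : ℤ) ∣ c + M * l then (1 : ℝ) else 0) = 1 := by
  obtain ⟨u, w, huw⟩ := hM
  have hq' : (0 : ℤ) < q := by exact_mod_cast hq
  set r : ℤ := (-(u * c)) % q with hr
  have hr0 : 0 ≤ r := Int.emod_nonneg _ hq'.ne'
  have hr1 : r < q := Int.emod_lt_of_pos _ hq'
  have hdiv : (q : ℤ) ∣ c + M * r := by
    have h1 : r = -(u * c) - q * ((-(u * c)) / q) := by
      rw [hr, Int.emod_def]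
    rw [h1]
    refine ⟨c * w - M * ((-(u * c)) / q), ?_⟩
    have : c * (u * M + w * q) = c := by rw [huw, mul_one]
    linear_combination (-1 : ℤ) * this
  have hmem : r.toNat ∈ Finset.range q := by
    rw [Finset.mem_range]
    omega
  rw [Finset.sum_eq_single_of_mem r.toNat hmem]
  · rw [Int.toNat_of_nonneg hr0, if_pos hdiv]
  · intro l hl hne
    rw [if_neg]
    intro h
    apply hne
    rw [Finset.mem_range] at hl
    have h2 : (q : ℤ) ∣ M * ((l : ℤ) - r) := by
      have := dvd_sub h hdiv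
      have e : c + M * l - (c + M * r) = M * ((l : ℤ) - r) := by ring
      rwa [e] at this
    have h3 : (q : ℤ) ∣ (l : ℤ) - r := by
      have hc : IsCoprime (q : ℤ) M := IsCoprime.symm ⟨u, w, huw⟩
      exact hc.dvd_of_dvd_mul_left h2
    have h4 : (l : ℤ) - r = 0 := by
      apply Int.eq_zero_of_abs_lt_dvd h3
      rw [abs_lt]
      constructor <;> omega
    omega

theorem sum_ph (q : ℕ) (hq : 0 < q) (M c : ℤ) (hM : IsCoprime M q) (v : ℝ) :
    ∑ l ∈ Finset.range q, ph q v (c + M * l) = q := by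
  unfold ph
  rw [Finset.sum_add_distrib, ← Finset.mul_sum, count_res q hq M c hM]
  simp only [Finset.sum_const, Finset.card_range, nsmul_eq_mul]
  ring

theorem act_avg_rz {m : ℕ} (L : ℕ) (hL : 0 < L) (q : Fin m → ℕ) (hq : ∀ i, 0 < q i)
    (v : Fin m → ℝ) (i : Fin m) (M : ℤ) (hM : IsCoprime M (q i))
    (hM' : ∀ j, j ≠ i → (q j : ℤ) ∣ M) (k : ℤ) :
    act (avg (q i) (L * M)) (rz L q v) k = rz L q (Function.update v i 0) k := by
  have hL' : (L : ℤ) ≠ 0 := by exact_mod_cast hL.ne'
  have hq' : (0 : ℝ) < q i := by exact_mod_cast hq i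
  have key : ∀ x : ℤ, rz L q v (k + L * M * x)
      = ph (q i) (v i) (k / L + M * x) * ∏ j ∈ Finset.univ.erase i, ph (q j) (v j) (k / L) := by
    intro x
    unfold rz
    rw [← Finset.mul_prod_erase Finset.univ _ (Finset.mem_univ i)]
    have hc : (k + L * M * x) / L = k / L + M * x := by
      have : k + L * M * x = k + M * x * L := by ring
      rw [this, Int.add_mul_ediv_right _ _ hL']
    rw [hc]
    congr 1
    refine Finset.prod_congr rfl fun j hj => ?_
    have hji : j ≠ i := Finset.ne_of_mem_erase hj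
    unfold ph
    have : ((q j : ℤ) ∣ k / L + M * x) ↔ ((q j : ℤ) ∣ k / L) := by
      exact (Int.dvd_add_left ((hM' j hji).mul_right x))
    simp only [this]
  rw [act_avg]
  have e1 : ∑ l ∈ Finset.range (q i), (rz L q v (k - L * M * l) + rz L q v (k + L * M * l))
      = (2 * q i) * ∏ j ∈ Finset.univ.erase i, ph (q j) (v j) (k / L) := by
    rw [Finset.sum_add_distrib]
    have s1 : ∑ l ∈ Finset.range (q i), rz L q v (k + L * M * l)
        = q i * ∏ j ∈ Finset.univ.erase i, ph (q j) (v j) (k / L) := by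
      rw [← sum_ph (q i) (hq i) M (k / L) hM (v i), Finset.sum_mul]
      exact Finset.sum_congr rfl fun l _ => key l
    have s2 : ∑ l ∈ Finset.range (q i), rz L q v (k - L * M * l)
        = q i * ∏ j ∈ Finset.univ.erase i, ph (q j) (v j) (k / L) := by
      rw [← sum_ph (q i) (hq i) (-M) (k / L) hM.neg_left (v i), Finset.sum_mul]
      refine Finset.sum_congr rfl fun l _ => ?_
      have h1 := key (-l)
      have e2 : k + L * M * (-l) = k - L * M * l := by ring
      have e3 : k / L + M * (-l) = k / L + (-M) * l := by ring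
      rw [e2, e3] at h1
      exact h1
    rw [s1, s2]
    ring
  rw [e1]
  have e4 : rz L q (Function.update v i 0) k
      = ∏ j ∈ Finset.univ.erase i, ph (q j) (v j) (k / L) := by
    unfold rz
    rw [← Finset.mul_prod_erase Finset.univ _ (Finset.mem_univ i)]
    have : ph (q i) (Function.update v i 0 i) (k / L) = 1 := by
      unfold ph
      simp
    rw [this, one_mul]
    refine Finset.prod_congr rfl fun j hj => ?_
    rw [Function.update_of_ne (Finset.ne_of_mem_erase hj)]
  rw [e4]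
  field_simp

theorem rz_update {m : ℕ} (L : ℕ) (q : Fin m → ℕ) (v : Fin m → ℝ) (i : Fin m) (e : ℝ) (k : ℤ) :
    rz L q (Function.update v i ((1 - e) * v i)) k
      = (1 - e) * rz L q v k + e * rz L q (Function.update v i 0) k := by
  have key : ∀ x : ℝ, rz L q (Function.update v i x) k
      = ph (q i) x (k / L) * ∏ j ∈ Finset.univ.erase i, ph (q j) (v j) (k / L) := by
    intro x
    unfold rz
    rw [← Finset.mul_prod_erase Finset.univ _ (Finset.mem_univ i), Function.update_self]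
    congr 1
    refine Finset.prod_congr rfl fun j hj => ?_
    rw [Function.update_of_ne (Finset.ne_of_mem_erase hj)]
  have h0 := key (v i)
  rw [Function.update_eq_self] at h0
  rw [key, key, h0]
  unfold ph
  ring

theorem act_bl_rz {m : ℕ} (e : ℝ) (L : ℕ) (hL : 0 < L) (q : Fin m → ℕ) (hq : ∀ i, 0 < q i)
    (v : Fin m → ℝ) (i : Fin m) (M : ℤ) (hM : IsCoprime M (q i))
    (hM' : ∀ j, j ≠ i → (q j : ℤ) ∣ M) :
    act (bl e (q i) (L * M)) (rz L q v) = rz L q (Function.update v i ((1 - e) * v i)) := by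
  funext k
  rw [act_bl, act_avg_rz L hL q hq v i M hM hM', rz_update]

theorem act_prod_rz {m : ℕ} (e : ℝ) (L : ℕ) (hL : 0 < L) (q : Fin m → ℕ) (hq : ∀ i, 0 < q i)
    (M : Fin m → ℤ) (hM : ∀ i, IsCoprime (M i) (q i))
    (hM' : ∀ i j, j ≠ i → (q j : ℤ) ∣ M i) (s : Finset (Fin m)) (v : Fin m → ℝ) :
    act (∏ i ∈ s, bl e (q i) (L * M i)) (rz L q v)
      = rz L q (fun i => if i ∈ s then (1 - e) * v i else v i) := by
  classical
  induction s using Finset.induction_on generalizing v with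
  | empty => simp
  | insert a s ha ih =>
    rw [Finset.prod_insert ha, mul_comm, map_mul, Module.End.mul_apply,
      act_bl_rz e L hL q hq v a (M a) (hM a) (hM' a), ih]
    congr 1
    funext i
    by_cases hi : i = a
    · subst hi
      simp [ha]
    · simp [hi, Function.update_of_ne hi]

theorem act_pow_rz {m : ℕ} (e : ℝ) (L : ℕ) (hL : 0 < L) (q : Fin m → ℕ) (hq : ∀ i, 0 < q i)
    (M : Fin m → ℤ) (hM : ∀ i, IsCoprime (M i) (q i))
    (hM' : ∀ i j, j ≠ i → (q j : ℤ) ∣ M i) (n : ℕ) (v : ℝ) :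
    act ((∏ i, bl e (q i) (L * M i)) ^ n) (rz L q (fun _ => v))
      = rz L q (fun _ => (1 - e) ^ n * v) := by
  induction n generalizing v with
  | zero => simp
  | succ n ih =>
    rw [pow_succ, map_mul, Module.End.mul_apply, act_prod_rz e L hL q hq M hM hM']
    have : (fun i : Fin m => if i ∈ Finset.univ then (1 - e) * v else v)
        = fun _ => (1 - e) * v := by
      funext i
      simp
    rw [this, ih]
    congr 1
    funext i
    ring

theorem rz_off {m : ℕ} (L : ℕ) (q : Fin m → ℕ) (v : ℝ) (k : ℤ)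
    (h : ∀ i, ¬ ((q i : ℤ) ∣ k / L)) : rz L q (fun _ => v) k = (1 - v) ^ m := by
  unfold rz ph
  have : ∀ i ∈ Finset.univ, (v * (q i : ℝ) * (if (q i : ℤ) ∣ k / L then 1 else 0) + (1 - v))
      = 1 - v := by
    intro i _
    rw [if_neg (h i)]
    ring
  rw [Finset.prod_congr rfl this]
  simp

theorem rz_one {m : ℕ} (L : ℕ) (q : Fin m → ℕ) (hc : Pairwise fun i j => Nat.Coprime (q i) (q j))
    (k : ℤ) :
    rz L q (fun _ => 1) k = if ((∏ i, q i : ℕ) : ℤ) ∣ k / L then ((∏ i, q i : ℕ) : ℝ) else 0 := by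
  unfold rz ph
  by_cases h : ((∏ i, q i : ℕ) : ℤ) ∣ k / L
  · rw [if_pos h]
    push_cast
    refine Finset.prod_congr rfl fun i _ => ?_
    have : (q i : ℤ) ∣ k / L := by
      refine dvd_trans ?_ h
      exact_mod_cast Finset.dvd_prod_of_mem q (Finset.mem_univ i)
    rw [if_pos this]
    ring
  · rw [if_neg h]
    have : ∃ i, ¬ ((q i : ℤ) ∣ k / L) := by
      by_contra hcon
      push Not at hcon
      apply h
      push_cast
      apply Finset.prod_dvd_of_coprime
      · intro i _ j _ hij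
        exact Nat.isCoprime_iff_coprime.2 (hc hij)
      · intro i _
        exact hcon i
    obtain ⟨i, hi⟩ := this
    apply Finset.prod_eq_zero (Finset.mem_univ i)
    rw [if_neg hi]
    ring

end Pool.Agent.Helper79.SqFn
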