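import Pool.Agent.Helper79.SqRiesz

set_option autoImplicit false

namespace Pool.Agent.Helper79.SqFn

open scoped ENNReal LaurentPolynomial
open LaurentPolynomial

theorem exists_params (δ η : ℝ) (hδ : 0 < δ) (hη : 0 < η) :
    ∃ (m : ℕ) (e : ℝ) (t₁ t₂ : ℕ), 1 ≤ m ∧ 0 < e ∧ e ≤ 1 ∧ (m : ℝ) * (2 * e) ≤ δ ∧ 1 ≤ t₁ ∧
      t₁ ≤ t₂ ∧ ((t₂ : ℝ) - t₁ ≤ η * t₁) ∧ (1 - (1 - e) ^ t₁) ^ m ≤ 1 / 8 ∧
      7 / 8 ≤ (1 - (1 - e) ^ t₂) ^ m := by
  obtain ⟨a', ha'⟩ := exists_nat_ge (7 / η)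
  set a : ℕ := a' + 1 with ha
  have ha1 : 1 ≤ a := by omega
  have haη : 7 ≤ η * a := by
    have h1 : 7 / η ≤ a := ha'.trans (by rw [ha]; push_cast; linarith)
    rw [div_le_iff₀ hη] at h1
    linarith
  have haR : (1 : ℝ) ≤ a := by exact_mod_cast ha1
  set m : ℕ := 2 ^ (a + 3) with hm
  have hm1 : 1 ≤ m := Nat.one_le_two_pow
  have hmR : (1 : ℝ) ≤ m := by exact_mod_cast hm1
  set e : ℝ := min (1 / (2 * a)) (δ / (2 * m)) with he
  have he0 : 0 < e := lt_min (by positivity) (by positivity)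
  have hea : a * e ≤ 1 / 2 := by
    have : e ≤ 1 / (2 * a) := min_le_left _ _
    calc a * e ≤ a * (1 / (2 * a)) := by gcongr
      _ = 1 / 2 := by field_simp
  have heh : e ≤ 1 / 2 := by nlinarith
  have hem : (m : ℝ) * (2 * e) ≤ δ := by
    have : e ≤ δ / (2 * m) := min_le_right _ _
    calc (m : ℝ) * (2 * e) ≤ m * (2 * (δ / (2 * m))) := by gcongr
      _ = δ := by field_simp
  have hex : ∃ n : ℕ, (1 - e) ^ n ≤ 1 / 2 := by
    obtain ⟨n, hn⟩ := exists_pow_lt_of_lt_one (show (0 : ℝ) < 1 / 2 by norm_num)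
      (show 1 - e < 1 by linarith)
    exact ⟨n, hn.le⟩
  classical
  obtain ⟨q, hq1, hq2, hq3⟩ : ∃ q : ℕ, 1 ≤ q ∧ (1 - e) ^ q ≤ 1 / 2 ∧ (1 - e) / 2 ≤ (1 - e) ^ q := by
    refine ⟨Nat.find hex, ?_, Nat.find_spec hex, ?_⟩
    · by_contra h
      have h0 : Nat.find hex = 0 := by omega
      have := Nat.find_spec hex
      rw [h0] at this
      norm_num at this
    · have hpos : 1 ≤ Nat.find hex := by
        by_contra h
        have h0 : Nat.find hex = 0 := by omega
        have := Nat.find_spec hex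
        rw [h0] at this
        norm_num at this
      obtain ⟨r, hr⟩ : ∃ r, Nat.find hex = r + 1 := ⟨Nat.find hex - 1, by omega⟩
      have hlt : ¬ ((1 - e) ^ r ≤ 1 / 2) := Nat.find_min hex (by omega)
      rw [hr, pow_succ]
      have h1e : 0 ≤ 1 - e := by linarith
      nlinarith
  have h1e : 0 ≤ 1 - e := by linarith
  have h1e' : 1 - e ≤ 1 := by linarith
  refine ⟨m, e, a * q, (a + 7) * q, hm1, he0, by linarith, hem, ?_, ?_, ?_, ?_, ?_⟩
  · exact Nat.mul_pos ha1 hq1
  · exact Nat.mul_le_mul_right _ (by omega)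
  · push_cast
    have hqR : (0 : ℝ) ≤ q := by positivity
    nlinarith
  · set v : ℝ := (1 - e) ^ (a * q) with hv
    have hv1 : 1 / 2 / 2 ^ a ≤ v := by
      rw [hv, mul_comm, pow_mul]
      calc 1 / 2 / 2 ^ a ≤ (1 - e) ^ a / 2 ^ a := by
            gcongr
            have := one_add_mul_le_pow (show (-2 : ℝ) ≤ -e by linarith) a
            have h2 : (1 + -e) = 1 - e := by ring
            rw [h2] at this
            linarith
        _ = ((1 - e) / 2) ^ a := by rw [div_pow]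
        _ ≤ ((1 - e) ^ q) ^ a := by gcongr
    have hmv : 4 ≤ m * v := by
      calc (4 : ℝ) = 2 ^ (a + 3) * (1 / 2 / 2 ^ a) := by
            rw [pow_add]
            field_simp
            norm_num
        _ ≤ 2 ^ (a + 3) * v := by gcongr
        _ = m * v := by rw [hm]; push_cast; rfl
    have hv0 : v ≤ 1 := pow_le_one₀ h1e h1e'
    have h3 : 1 - v ≤ Real.exp (-v) := by
      have := Real.add_one_le_exp (-v)
      linarith
    calc (1 - v) ^ m ≤ (Real.exp (-v)) ^ m := by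
          apply pow_le_pow_left₀ (by linarith) h3
      _ = Real.exp (-(m * v)) := by
          rw [← Real.exp_nat_mul]
          congr 1
          ring
      _ ≤ Real.exp (-3) := by
          apply Real.exp_le_exp.2
          linarith
      _ ≤ 1 / 8 := by
          have h1 : (2 : ℝ) ≤ Real.exp 1 := by
            have := Real.add_one_le_exp (1 : ℝ)
            linarith
          have h2 : Real.exp (-3) = (Real.exp 1 ^ 3)⁻¹ := by
            rw [Real.exp_neg, ← Real.exp_nat_mul]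
            norm_num
          rw [h2, one_div]
          apply inv_anti₀ (by norm_num)
          calc (8 : ℝ) = 2 ^ 3 := by norm_num
            _ ≤ _ := by gcongr
  · set v : ℝ := (1 - e) ^ ((a + 7) * q) with hv
    have hv0 : 0 ≤ v := pow_nonneg h1e _
    have hv1 : v ≤ (1 / 2) ^ (a + 7) := by
      rw [hv, mul_comm, pow_mul]
      gcongr
    have hmv : m * v ≤ 1 / 16 := by
      calc m * v ≤ m * (1 / 2) ^ (a + 7) := by gcongr
        _ = 2 ^ (a + 3) * (1 / 2) ^ (a + 7) := by rw [hm]; push_cast; rfl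
        _ = (2 * (1 / 2)) ^ (a + 3) * (1 / 2) ^ 4 := by
          rw [mul_pow, mul_assoc, ← pow_add]
        _ = 1 / 16 := by norm_num
    have h4 := one_add_mul_le_pow (show (-2 : ℝ) ≤ -v by
      have : v ≤ 1 := pow_le_one₀ h1e h1e'
      linarith) m
    have h5 : 1 + -v = 1 - v := by ring
    rw [h5] at h4
    linarith

theorem exists_primes (m K : ℕ) : ∃ q : Fin m → ℕ, (∀ i, Nat.Prime (q i)) ∧ (∀ i, K < q i) ∧
    Pairwise fun i j => Nat.Coprime (q i) (q j) := by
  refine ⟨fun i => Nat.nth Nat.Prime (K + 1 + i), ?_, ?_, ?_⟩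
  · intro i
    exact Nat.nth_mem_of_infinite Nat.infinite_setOfPred_prime _
  · intro i
    have h : K + 1 + (i : ℕ) ≤ Nat.nth Nat.Prime (K + 1 + i) :=
      (Nat.nth_strictMono Nat.infinite_setOfPred_prime).le_apply
    change K < Nat.nth Nat.Prime (K + 1 + i)
    omega
  · intro i j hij
    have h1 := Nat.nth_mem_of_infinite Nat.infinite_setOfPred_prime (K + 1 + i)
    have h2 := Nat.nth_mem_of_infinite Nat.infinite_setOfPred_prime (K + 1 + j)
    refine (Nat.coprime_primes h1 h2).2 ?_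
    intro h
    have := (Nat.nth_strictMono Nat.infinite_setOfPred_prime).injective h
    apply hij
    apply Fin.ext
    omega

theorem card_dvd_le (q M J : ℕ) (hq : 0 < q) :
    ((Finset.Ico (-((q * M * J : ℕ) : ℤ)) ((q * M * J : ℕ) : ℤ)).filter
      (fun c => (q : ℤ) ∣ c)).card ≤ 2 * M * J := by
  have hsub : (Finset.Ico (-((q * M * J : ℕ) : ℤ)) ((q * M * J : ℕ) : ℤ)).filter
      (fun c => (q : ℤ) ∣ c)
      ⊆ (Finset.Ico (-((M * J : ℕ) : ℤ)) ((M * J : ℕ) : ℤ)).image (fun t => (q : ℤ) * t) := by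
    intro c hc
    rw [Finset.mem_filter, Finset.mem_Ico] at hc
    obtain ⟨⟨h1, h2⟩, t, rfl⟩ := hc
    rw [Finset.mem_image]
    refine ⟨t, ?_, rfl⟩
    have hq' : (0 : ℤ) < q := by exact_mod_cast hq
    rw [Finset.mem_Ico]
    push_cast at h1 h2 ⊢
    constructor
    · have : (q : ℤ) * (-(M * J)) ≤ q * t := by linarith
      exact le_of_mul_le_mul_left this hq'
    · have : (q : ℤ) * t < q * (M * J) := by linarith
      exact lt_of_mul_lt_mul_left this hq'.le
  refine (Finset.card_le_card hsub).trans (Finset.card_image_le.trans ?_)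
  rw [Int.card_Ico]
  have : ((M * J : ℕ) : ℤ) - -((M * J : ℕ) : ℤ) = ((2 * M * J : ℕ) : ℤ) := by
    push_cast; ring
  rw [this, Int.toNat_natCast]

theorem card_supp_le (N L J : ℕ) (hN : 0 < N) (hL : 0 < L) :
    ((Finset.Ico (-((N * J * L : ℕ) : ℤ)) ((N * J * L : ℕ) : ℤ)).filter
      (fun k => (N : ℤ) ∣ k / L)).card ≤ 2 * J * L := by
  have hN' : (0 : ℤ) < N := by exact_mod_cast hN
  have hL' : (0 : ℤ) < L := by exact_mod_cast hL
  have hsub : (Finset.Ico (-((N * J * L : ℕ) : ℤ)) ((N * J * L : ℕ) : ℤ)).filter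
      (fun k => (N : ℤ) ∣ k / L)
      ⊆ ((Finset.Ico (-(J : ℤ)) (J : ℤ)) ×ˢ (Finset.Ico (0 : ℤ) (L : ℤ))).image
        (fun x => (N : ℤ) * x.1 * L + x.2) := by
    intro k hk
    rw [Finset.mem_filter, Finset.mem_Ico] at hk
    obtain ⟨⟨h1, h2⟩, t, ht⟩ := hk
    rw [Finset.mem_image]
    have hmod := Int.emod_nonneg k hL'.ne'
    have hmod2 := Int.emod_lt_of_pos k hL'
    have hdm := Int.emod_add_mul_ediv k L
    refine ⟨(t, k % L), ?_, ?_⟩
    · rw [Finset.mem_product, Finset.mem_Ico, Finset.mem_Ico]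
      push_cast at h1 h2
      refine ⟨⟨?_, ?_⟩, hmod, hmod2⟩
      · by_contra hcon
        push Not at hcon
        have : t + 1 ≤ -J := by omega
        have h3 : (N : ℤ) * L * (t + 1) ≤ N * L * (-J) := by
          apply mul_le_mul_of_nonneg_left this (by positivity)
        have h4 : (L : ℤ) * (k / L) = N * L * t := by rw [ht]; ring
        have h5 : (L : ℤ) ≤ N * L := by
          nlinarith
        nlinarith
      · have h4 : (L : ℤ) * (k / L) = N * L * t := by rw [ht]; ring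
        have h3 : (N : ℤ) * L * t < N * L * J := by nlinarith
        exact lt_of_mul_lt_mul_left h3 (by positivity)
    · change (N : ℤ) * t * L + k % L = k
      have h4 : (L : ℤ) * (k / L) = N * t * L := by rw [ht]; ring
      linarith
  refine (Finset.card_le_card hsub).trans (Finset.card_image_le.trans ?_)
  rw [Finset.card_product, Int.card_Ico, Int.card_Ico]
  have : (J : ℤ) - -(J : ℤ) = ((2 * J : ℕ) : ℤ) := by push_cast; ring
  rw [this, Int.toNat_natCast, sub_zero, Int.toNat_natCast]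

theorem card_good {m : ℕ} (hm : 1 ≤ m) (q : Fin m → ℕ) (hq : ∀ i, Nat.Prime (q i))
    (hq8 : ∀ i, 8 * m < q i) (N : ℕ) (hN : N = ∏ i, q i) (L J B a : ℕ) (hL : 16 * a ≤ L)
    (hL0 : 0 < L) (hJ : 8 * B ≤ J) :
    ∃ G : Finset ℤ, (N * J * L : ℝ) ≤ G.card ∧ ∀ k ∈ G, ∃ c r : ℤ, k = c * L + r ∧
      (a : ℤ) ≤ r ∧ r < L - a ∧ (∀ i, ¬ ((q i : ℤ) ∣ c)) ∧
      -((N * J : ℕ) : ℤ) + B ≤ c ∧ c < (N * J : ℕ) - B := by
  classical
  have hNpos : 0 < N := by
    rw [hN]; exact Finset.prod_pos fun i _ => (hq i).pos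
  set I1 : Finset ℤ := Finset.Ico (-((N * J : ℕ) : ℤ) + B) ((N * J : ℕ) - B) with hI1
  set C : Finset ℤ := I1.filter (fun c => ∀ i, ¬ ((q i : ℤ) ∣ c)) with hC
  set R : Finset ℤ := Finset.Ico (a : ℤ) (L - a) with hR
  have hNJ : 8 * B ≤ N * J := hJ.trans (Nat.le_mul_of_pos_left _ hNpos)
  -- cardinality of C
  have hcardI : (I1.card : ℝ) = 2 * (N * J) - 2 * B := by
    rw [hI1, Int.card_Ico]
    have : ((N * J : ℕ) : ℤ) - B - (-((N * J : ℕ) : ℤ) + B) = ((2 * (N * J) - 2 * B : ℕ) : ℤ) := by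
      rw [Nat.cast_sub (by omega)]
      push_cast; ring
    rw [this, Int.toNat_natCast, Nat.cast_sub (by omega)]
    push_cast; ring
  have hsub : I1 ⊆ C ∪ Finset.univ.biUnion (fun i : Fin m =>
      (Finset.Ico (-((N * J : ℕ) : ℤ)) ((N * J : ℕ) : ℤ)).filter (fun c => (q i : ℤ) ∣ c)) := by
    intro c hc
    rw [Finset.mem_union]
    by_cases h : ∀ i, ¬ ((q i : ℤ) ∣ c)
    · left
      rw [hC, Finset.mem_filter]
      exact ⟨hc, h⟩
    · right
      push Not at h
      obtain ⟨i, hi⟩ := h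
      rw [Finset.mem_biUnion]
      refine ⟨i, Finset.mem_univ _, ?_⟩
      rw [Finset.mem_filter, Finset.mem_Ico]
      rw [hI1, Finset.mem_Ico] at hc
      exact ⟨⟨by omega, by omega⟩, hi⟩
  have hcard1 : (I1.card : ℝ) ≤ C.card + ∑ i : Fin m, 2 * (N * J) / (8 * m : ℝ) := by
    have h1 : I1.card ≤ C.card + ∑ i : Fin m,
        ((Finset.Ico (-((N * J : ℕ) : ℤ)) ((N * J : ℕ) : ℤ)).filter
          (fun c => (q i : ℤ) ∣ c)).card :=
      (Finset.card_le_card hsub).trans ((Finset.card_union_le _ _).trans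
        (Nat.add_le_add_left Finset.card_biUnion_le _))
    have h2 : (I1.card : ℝ) ≤ C.card + ∑ i : Fin m,
        (((Finset.Ico (-((N * J : ℕ) : ℤ)) ((N * J : ℕ) : ℤ)).filter
          (fun c => (q i : ℤ) ∣ c)).card : ℝ) := by exact_mod_cast h1
    refine h2.trans ?_
    gcongr with i _
    set M : ℕ := ∏ j ∈ Finset.univ.erase i, q j with hM
    have hqM : N = q i * M := by
      rw [hN, hM, Finset.mul_prod_erase Finset.univ _ (Finset.mem_univ i)]
    have h3 := card_dvd_le (q i) M J (hq i).pos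
    rw [← hqM] at h3
    have h4 : 8 * m * M ≤ N := by
      rw [hqM]
      exact Nat.mul_le_mul_right _ (hq8 i).le
    have h3' : (((Finset.Ico (-((N * J : ℕ) : ℤ)) ((N * J : ℕ) : ℤ)).filter
          (fun c => (q i : ℤ) ∣ c)).card : ℝ) ≤ 2 * M * J := by exact_mod_cast h3
    have h4' : (8 * m * M : ℝ) ≤ N := by exact_mod_cast h4
    have hmR : (0 : ℝ) < 8 * m := by
      have : (1 : ℝ) ≤ m := by exact_mod_cast hm
      linarith
    refine h3'.trans ?_
    rw [le_div_iff₀ hmR]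
    have hJ0 : (0 : ℝ) ≤ J := by positivity
    nlinarith
  have hcardC : (3 / 2 : ℝ) * (N * J) ≤ C.card := by
    have hmR : (1 : ℝ) ≤ m := by exact_mod_cast hm
    have h5 : ∑ i : Fin m, 2 * (N * J) / (8 * m : ℝ) = (N * J) / 4 := by
      rw [Finset.sum_const, Finset.card_univ, Fintype.card_fin, nsmul_eq_mul]
      field_simp
      ring
    rw [h5, hcardI] at hcard1
    have h6 : (8 * B : ℝ) ≤ N * J := by exact_mod_cast hNJ
    linarith
  have hcardR : (7 / 8 : ℝ) * L ≤ R.card := by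
    rw [hR, Int.card_Ico]
    have : (L : ℤ) - a - a = ((L - 2 * a : ℕ) : ℤ) := by
      rw [Nat.cast_sub (by omega)]
      push_cast; ring
    rw [this, Int.toNat_natCast, Nat.cast_sub (by omega)]
    have h6 : (16 * a : ℝ) ≤ L := by exact_mod_cast hL
    push_cast
    linarith
  refine ⟨(C ×ˢ R).image (fun x => x.1 * L + x.2), ?_, ?_⟩
  · have hinj : Set.InjOn (fun x : ℤ × ℤ => x.1 * (L : ℤ) + x.2) ((C ×ˢ R : Finset (ℤ × ℤ)) : Set (ℤ × ℤ)) := by
      rintro ⟨c, r⟩ h1 ⟨c', r'⟩ h2 h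
      rw [Finset.mem_coe, Finset.mem_product, hR, Finset.mem_Ico] at h1 h2
      have hL' : (0 : ℤ) < L := by exact_mod_cast hL0
      have ha0 : (0 : ℤ) ≤ a := by positivity
      change c * (L : ℤ) + r = c' * L + r' at h
      obtain ⟨_, h1a, h1b⟩ := h1
      obtain ⟨_, h2a, h2b⟩ := h2
      simp only at h1a h1b h2a h2b
      have hcc : c = c' := by
        have e1 : (c * (L : ℤ) + r) / L = c := by
          rw [add_comm, Int.add_mul_ediv_right _ _ hL'.ne', Int.ediv_eq_zero_of_lt (by omega)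
            (by omega), zero_add]
        have e2 : (c' * (L : ℤ) + r') / L = c' := by
          rw [add_comm, Int.add_mul_ediv_right _ _ hL'.ne', Int.ediv_eq_zero_of_lt (by omega)
            (by omega), zero_add]
        rw [← e1, ← e2, h]
      subst hcc
      have : r = r' := by linarith
      rw [this]
    rw [Finset.card_image_of_injOn hinj, Finset.card_product]
    push_cast
    have hL0' : (0 : ℝ) ≤ L := by positivity
    have hNJ0 : (0 : ℝ) ≤ N * J := by positivity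
    calc (N * J * L : ℝ) ≤ (3 / 2 * (N * J)) * (7 / 8 * L) := by
          have : (0 : ℝ) ≤ N * J * L := by positivity
          linarith
      _ ≤ C.card * R.card := by gcongr
  · intro k hk
    rw [Finset.mem_image] at hk
    obtain ⟨⟨c, r⟩, hx, rfl⟩ := hk
    rw [Finset.mem_product, hR, Finset.mem_Ico, hC, Finset.mem_filter, hI1, Finset.mem_Ico] at hx
    obtain ⟨⟨⟨h1, h2⟩, h3⟩, h4, h5⟩ := hx
    exact ⟨c, r, rfl, h4, h5, h3, h1, h2⟩

end Pool.Agent.Helper79.SqFn
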