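import Pool.Agent.Helper79.SqStep

set_option autoImplicit false

namespace Pool.Agent.Helper79.SqFn

open scoped ENNReal LaurentPolynomial
open LaurentPolynomial

theorem n1_dl : n1 dl = 1 := by
  unfold n1 dl
  rw [tsum_eq_single 0]
  · simp
  · intro b hb; simp [hb]

theorem ediv_of_near {c r L a j k : ℤ} (hL : 0 < L) (hk : k = c * L + r) (ha : a ≤ r)
    (hr : r < L - a) (hj : |j - k| ≤ a) : j / L = c := by
  rw [abs_le] at hj
  have h1 : j = (r + (j - k)) + c * L := by rw [hk]; ring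
  rw [h1, Int.add_mul_ediv_right _ _ hL.ne', Int.ediv_eq_zero_of_lt (by linarith) (by linarith),
    zero_add]

theorem step (p : ℝ[T;T⁻¹]) (hp : Nice p) (δ η : ℝ) (hδ : 0 < δ) (hη : 0 < η) :
    ∃ (p' : ℝ[T;T⁻¹]) (t₁ t₂ : ℕ) (f : ℤ → ℝ) (S G : Finset ℤ), Nice p' ∧
      n1 (fun k => p'.coeff k - p.coeff k) ≤ ENNReal.ofReal δ ∧ 1 ≤ t₁ ∧ t₁ ≤ t₂ ∧
      ((t₂ : ℝ) - t₁ ≤ η * t₁) ∧ (∀ k, k ∉ S → f k = 0) ∧ 0 < ∑ k ∈ S, |f k| ∧
      ∑ k ∈ S, |f k| ≤ 2 * G.card ∧
      ∀ k ∈ G, (cv (fun i => p'.coeff i))^[t₁] f k ≤ 1 / 8 ∧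
        7 / 8 ≤ (cv (fun i => p'.coeff i))^[t₂] f k := by
  classical
  obtain ⟨m, e, t₁, t₂, hm1, he0, he1, hme, ht1, ht12, hratio, hlow, hhigh⟩ :=
    exists_params δ η hδ hη
  obtain ⟨q, hqp, hq8, hqc⟩ := exists_primes m (8 * m)
  have hq0 : ∀ i, 0 < q i := fun i => (hqp i).pos
  obtain ⟨A, hA⟩ := exists_loc p
  set a : ℕ := A * t₂ with ha
  set L : ℕ := 16 * a + 1 with hL
  have hL0 : 0 < L := by omega
  set N : ℕ := ∏ i, q i with hN
  have hN0 : 0 < N := Finset.prod_pos fun i _ => hq0 i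
  set M : Fin m → ℤ := fun i => ∏ j ∈ Finset.univ.erase i, (q j : ℤ) with hM
  have hM1 : ∀ i, IsCoprime (M i) (q i) := by
    intro i
    apply IsCoprime.prod_left
    intro j hj
    exact Nat.isCoprime_iff_coprime.2 (hqc (Finset.ne_of_mem_erase hj))
  have hM2 : ∀ i j, j ≠ i → (q j : ℤ) ∣ M i := by
    intro i j hji
    exact Finset.dvd_prod_of_mem (fun j => (q j : ℤ)) (Finset.mem_erase.2 ⟨hji, Finset.mem_univ _⟩)
  set nu : ℝ[T;T⁻¹] := ∏ i, bl e (q i) (L * M i) with hnu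
  have hnuN : Nice nu := nice_prod _ _ fun i _ => nice_bl he0.le he1 (hq0 i) _
  set p' : ℝ[T;T⁻¹] := p * nu with hp'
  have hp'N : Nice p' := hp.mul hnuN
  obtain ⟨R, hR⟩ := exists_loc p'
  set B : ℕ := R * t₂ with hB
  set J : ℕ := 8 * B + 1 with hJ
  obtain ⟨G, hG1, hG2⟩ := card_good hm1 q hqp hq8 N hN L J B a (by omega) hL0 (by omega)
  set W : ℤ := ((N * J * L : ℕ) : ℤ) with hW
  set F : ℤ → ℝ := rz L q (fun _ => 1) with hF
  set f : ℤ → ℝ := fun k => if k ∈ Finset.Ico (-W) W then F k else 0 with hf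
  have hF1 : ∀ k, F k = if (N : ℤ) ∣ k / L then (N : ℝ) else 0 := rz_one L q hqc
  have hF0 : ∀ k, 0 ≤ F k := by
    intro k
    rw [hF1]
    split_ifs <;> positivity
  have hsum : ∑ k ∈ Finset.Ico (-W) W, |f k| = N * ((Finset.Ico (-W) W).filter
      (fun k => (N : ℤ) ∣ k / L)).card := by
    have e1 : ∀ k ∈ Finset.Ico (-W) W, |f k| = if (N : ℤ) ∣ k / L then (N : ℝ) else 0 := by
      intro k hk
      have : f k = F k := by rw [hf]; exact if_pos hk
      rw [this, abs_of_nonneg (hF0 k), hF1]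
    rw [Finset.sum_congr rfl e1, ← Finset.sum_filter, Finset.sum_const, nsmul_eq_mul, mul_comm]
  -- evaluation of the iterates
  have heval : ∀ k ∈ G, ∀ n, n ≤ t₂ → (cv (fun i => p'.coeff i))^[n] f k
      = (1 - (1 - e) ^ n) ^ m := by
    intro k hk n hn
    obtain ⟨c, r, hkc, hr1, hr2, hqc', hc1, hc2⟩ := hG2 k hk
    have hL' : (0 : ℤ) < L := by exact_mod_cast hL0
    have h1 : act (p' ^ n) f k = act (p' ^ n) F k := by
      apply (hR.pow n).mono (Nat.mul_le_mul_left R hn)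
      intro j hj
      rw [hf]
      apply if_pos
      rw [abs_le] at hj
      have hB0 : (0 : ℤ) ≤ B := by positivity
      have hBL : (B : ℤ) ≤ B * L := by nlinarith
      have ha0 : (0 : ℤ) ≤ a := by positivity
      obtain ⟨hj1, hj2⟩ := hj
      rw [← hB] at hj1 hj2
      have hWe : W = ((N * J : ℕ) : ℤ) * L := by rw [hW]; push_cast; ring
      rw [Finset.mem_Ico]
      constructor
      · have h5 : (-((N * J : ℕ) : ℤ) + B) * L ≤ c * L :=
          mul_le_mul_of_nonneg_right hc1 hL'.le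
        have h6 : (-((N * J : ℕ) : ℤ) + B) * L = -W + B * L := by rw [hWe]; ring
        linarith
      · have h5 : (c + 1) * L ≤ (((N * J : ℕ) : ℤ) - B) * L :=
          mul_le_mul_of_nonneg_right hc2 hL'.le
        have h6 : (((N * J : ℕ) : ℤ) - B) * L = W - B * L := by rw [hWe]; ring
        have h7 : (c + 1) * L = c * L + L := by ring
        linarith
    have h2 : act (p' ^ n) F = act (p ^ n) (rz L q (fun _ => (1 - e) ^ n)) := by
      rw [hp', mul_pow, map_mul, Module.End.mul_apply, hF, hnu,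
        act_pow_rz e L hL0 q hq0 M hM1 hM2 n 1, mul_one]
    have h3 : act (p ^ n) (rz L q (fun _ => (1 - e) ^ n)) k
        = act (p ^ n) (fun _ => (1 - (1 - e) ^ n) ^ m) k := by
      apply (hA.pow n).mono (Nat.mul_le_mul_left A hn)
      intro j hj
      have hj' : |j - k| ≤ (a : ℤ) := by rw [ha]; exact hj
      have hjc : j / L = c := ediv_of_near hL' hkc hr1 hr2 hj'
      apply rz_off
      rw [hjc]
      exact hqc'
    rw [← act_pow_eq, h1, h2, h3, hp.pow_one]
  refine ⟨p', t₁, t₂, f, Finset.Ico (-W) W, G, hp'N, ?_, ht1, ht12, hratio, ?_, ?_, ?_, ?_⟩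
  · have e1 : (fun k => p'.coeff k - p.coeff k)
        = act p (fun k => act nu dl k - dl k) := by
      have h0 : (fun k => act nu dl k - dl k) = act nu dl - dl := rfl
      rw [h0, map_sub]
      funext k
      rw [Pi.sub_apply, act_dl, ← act_dl p' k, hp', map_mul, Module.End.mul_apply]
    rw [e1]
    refine (hp.n1_act_le _).trans ?_
    have h5 := n1_prod_sub he0.le he1 (Finset.univ : Finset (Fin m)) q hq0
      (fun i => (L * M i : ℤ)) dl
    rw [← hnu, n1_dl, mul_one, Finset.card_univ, Fintype.card_fin] at h5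
    refine h5.trans ?_
    rw [← ENNReal.ofReal_natCast, ← ENNReal.ofReal_mul (by positivity)]
    exact ENNReal.ofReal_le_ofReal hme
  · intro k hk
    rw [hf]
    exact if_neg hk
  · rw [hsum]
    have h0 : (0 : ℤ) ∈ (Finset.Ico (-W) W).filter (fun k => (N : ℤ) ∣ k / L) := by
      rw [Finset.mem_filter, Finset.mem_Ico]
      have hW0 : 0 < W := by
        rw [hW]
        have : 0 < N * J * L := Nat.mul_pos (Nat.mul_pos hN0 (by omega)) hL0
        exact_mod_cast this
      refine ⟨⟨by omega, hW0⟩, ?_⟩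
      simp
    have h1 : 0 < ((Finset.Ico (-W) W).filter (fun k => (N : ℤ) ∣ k / L)).card :=
      Finset.card_pos.2 ⟨0, h0⟩
    have h1' : (0 : ℝ) < ((Finset.Ico (-W) W).filter (fun k => (N : ℤ) ∣ k / L)).card := by
      exact_mod_cast h1
    have hN' : (0 : ℝ) < N := by exact_mod_cast hN0
    positivity
  · rw [hsum]
    have h1 := card_supp_le N L J hN0 hL0
    have h1' : (((Finset.Ico (-W) W).filter (fun k => (N : ℤ) ∣ k / L)).card : ℝ)
        ≤ 2 * J * L := by exact_mod_cast h1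
    have hN' : (0 : ℝ) < N := by exact_mod_cast hN0
    calc (N : ℝ) * _ ≤ N * (2 * J * L) := by gcongr
      _ = 2 * (N * J * L) := by ring
      _ ≤ 2 * G.card := by linarith
  · intro k hk
    rw [heval k hk t₁ ht12, heval k hk t₂ le_rfl]
    exact ⟨hlow, hhigh⟩

end Pool.Agent.Helper79.SqFn
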